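import Pool.Agent.Lib.MP_d48993_lc.Interfaces
import Pool.Agent.Lib.MP_f26228_lc.RE

/-!
Module CLS: closed classes in the sense of the effective calculus are the classes of paths through
computable trees.
-/

set_option autoImplicit false

namespace Pool.Agent.Lib.MP_d48993_lc

open MP_8c048d_lc (pre join RecF Sig Clo Cop)

variable {α β γ : Type} [Primcodable α] [Primcodable β] [Primcodable γ]

/-- The value of a recursive functional at the zero function is computable. -/
theorem recF_eval {φ : α → (ℕ → ℕ) → β} (h : RecF φ) : Computable (fun a => φ a (fun _ => 0)) := by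
  obtain ⟨q, hq, h1, h2⟩ := h
  have hz : Computable (fun k : ℕ => pre (fun _ => 0) k) := by
    have e : (fun k : ℕ => pre (fun _ => 0) k) = fun k : ℕ => (List.range k).map fun _ => 0 := rfl
    rw [e]
    exact (Primrec.list_map Primrec.list_range (Primrec.const 0).to₂).to_comp
  have hr : Computable₂ (fun (a : α) (k : ℕ) => q (a, pre (fun _ => 0) k)) :=
    (hq.comp (Computable.pair Computable.fst (hz.comp Computable.snd))).to₂
  have hp := Partrec.rfindOpt hr
  refine hp.of_eq fun a => ?_
  change (Nat.rfindOpt fun k => q (a, pre (fun _ => 0) k)) = Part.some (φ a (fun _ => 0))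
  rw [Part.eq_some_iff]
  obtain ⟨k, hk⟩ := h2 a (fun _ => 0)
  have hd : (Nat.rfindOpt fun k => q (a, pre (fun _ => 0) k)).Dom := by
    rw [Nat.rfindOpt_dom]
    exact ⟨k, _, hk⟩
  obtain ⟨b, hb⟩ := Part.dom_iff_mem.1 hd
  obtain ⟨n, hn⟩ := Nat.rfindOpt_spec hb
  have := h1 a _ n b hn
  rw [this]
  exact hb

theorem comp_of_cop {Q : α → Prop} (h : Cop (fun a (_ : ℕ → ℕ) => Q a)) : ComputablePred Q := by
  classical
  obtain ⟨d, hd, h1⟩ := h
  refine ⟨fun a => Classical.propDecidable _, ?_⟩
  refine (recF_eval hd).of_eq fun a => ?_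
  have := h1 a (fun _ => 0)
  by_cases hq : Q a
  · rw [this.1 hq]; simp [hq]
  · have h3 : ¬ d a (fun _ => 0) = true := fun h => hq (this.2 h)
    simp only [Bool.not_eq_true] at h3
    rw [h3]; simp [hq]

theorem optEq_comp {f : α → Option β} (hf : Computable f) {g : α → Option β} (hg : Computable g) :
    ComputablePred (fun a => f a = g a) := by
  have h : ComputablePred (fun p : Option β × Option β => p.1 = p.2) :=
    PrimrecPred.computablePred (PrimrecRel.comp Primrec.eq Primrec.fst Primrec.snd)
  exact comp_of_cop (Cop.of_recF (φ := fun a (_ : ℕ → ℕ) => (f a, g a))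
    (RecF.of_computable (Computable.pair hf hg)) (p := fun p => p.1 = p.2) h)

/-- The tree of a closed class. -/
theorem closed_tree {P : Set (ℕ → ℕ)} (h : ClosedC P) : ∃ T, IsCompTree T ∧ P = paths T := by
  obtain ⟨d, hd, h1⟩ := h
  obtain ⟨q, hq, h2, h3⟩ := hd.mono
  refine ⟨fun σ => ∀ m < σ.length + 1, ∀ j < σ.length + 1,
    ¬ q (((), m), σ.take j) = some false, ⟨?_, ?_⟩, ?_⟩
  · have e0 : Computable (fun p : (List ℕ × ℕ) × ℕ => q (((), p.1.2), p.1.1.take p.2)) := by
      refine hq.comp (Computable.pair (Computable.pair (Computable.const ())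
        (Computable.snd.comp Computable.fst)) ?_)
      exact (Primrec.list_take (α := ℕ)).to_comp.comp Computable.snd
        (Computable.fst.comp Computable.fst)
    have e1 : Cop (fun (p : (List ℕ × ℕ) × ℕ) (_ : ℕ → ℕ) =>
        q (((), p.1.2), p.1.1.take p.2) = some false) :=
      Cop.of_computable (optEq_comp e0 (Computable.const (some false)))
    have e2 : Cop (fun (p : List ℕ × ℕ) (_ : ℕ → ℕ) => ∀ j < p.1.length + 1,
        ¬ q (((), p.2), p.1.take j) = some false) :=
      Cop.ball (P := fun (p : List ℕ × ℕ) j (_ : ℕ → ℕ) =>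
        ¬ q (((), p.2), p.1.take j) = some false) e1.not
        (Computable.succ.comp (Computable.list_length.comp Computable.fst))
    exact comp_of_cop (Cop.ball (P := fun (p : List ℕ) m (_ : ℕ → ℕ) =>
        ∀ j < p.length + 1, ¬ q (((), m), p.take j) = some false) e2
        (Computable.succ.comp Computable.list_length))
  · intro σ τ hστ hτ m hm j hj
    have hl := hστ.length_le
    have := hτ m (by omega) j (by omega)
    have e : τ.take j = σ.take j := by
      obtain ⟨r, rfl⟩ := hστ
      rw [List.take_append_of_le_length (by omega)]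
    rwa [e] at this
  · ext F
    have hF := h1 () F
    constructor
    · intro hP k m hm j hj hq'
      have hP' : ∀ m, d ((), m) F = true := hF.1 hP
      have e : ((List.range k).map F).take j = pre F (min j k) := by
        rw [← MP_8c048d_lc.pre_take]; rfl
      rw [e] at hq'
      have := h2 _ _ _ _ hq'
      rw [hP' m] at this
      exact absurd this (by decide)
    · intro hT
      refine hF.2 fun m => ?_
      by_contra hm
      simp only [Bool.not_eq_true] at hm
      obtain ⟨k0, hk0⟩ := h3 ((), m) F
      have := hT (max k0 m) m (by simp) (max k0 m) (by simp)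
      apply this
      have e : ((List.range (max k0 m)).map F).take (max k0 m) = pre F (max k0 m) := by
        rw [List.take_of_length_le (by simp)]; rfl
      rw [e, hk0 _ (le_max_left _ _), hm]

theorem closed_of_tree {T : List ℕ → Prop} (hT : IsCompTree T) : ClosedC (paths T) := by
  have e : Cop (fun (p : Unit × ℕ) (F : ℕ → ℕ) => T (pre F p.2)) :=
    Cop.of_recF (φ := fun (p : Unit × ℕ) (F : ℕ → ℕ) => pre F p.2)
      (RecF.pre.comp₁ Computable.snd) hT.1
  exact Clo.iInter (P := fun (_ : Unit) k (F : ℕ → ℕ) => T (pre F k)) e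

theorem bin_comp : ComputablePred (fun σ : List ℕ => ∀ n ∈ σ, n < 2) := by
  have e0 : Computable (fun p : List ℕ × ℕ => p.1.getD p.2 0) :=
    (Primrec.list_getD 0).to_comp.comp Computable.fst Computable.snd
  have lt2 : ComputablePred (fun n : ℕ => n < 2) :=
    PrimrecPred.computablePred (PrimrecRel.comp Primrec.nat_lt Primrec.id (Primrec.const 2))
  have e1 : Cop (fun (p : List ℕ × ℕ) (_ : ℕ → ℕ) => p.1.getD p.2 0 < 2) :=
    Cop.of_recF (RecF.of_computable e0) lt2
  refine comp_of_cop ((Cop.ball (P := fun (p : List ℕ) i (_ : ℕ → ℕ) => p.getD i 0 < 2) e1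
    Computable.list_length).congr fun σ _ => ?_)
  constructor
  · intro h x hx
    obtain ⟨i, hi, rfl⟩ := List.getElem_of_mem hx
    have := h i hi
    simpa [List.getD_eq_getElem?_getD, hi] using this
  · intro h i hi
    have := h _ (List.getElem_mem hi)
    simpa [List.getD_eq_getElem?_getD, hi] using this

theorem cls : ClsStatement := by
  constructor
  · intro P
    constructor
    · rintro ⟨hne, T, hT, rfl⟩
      exact ⟨hne, closed_of_tree hT⟩
    · rintro ⟨hne, hc⟩
      exact ⟨hne, closed_tree hc⟩
  · intro P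
    constructor
    · rintro ⟨hne, T, hT, hb, rfl⟩
      refine ⟨hne, closed_of_tree hT, fun f hf n => ?_⟩
      refine hb _ (hf (n + 1)) (f n) ?_
      exact List.mem_map.2 ⟨n, List.mem_range.2 (by omega), rfl⟩
    · rintro ⟨hne, hc, hb⟩
      obtain ⟨T, hT, rfl⟩ := closed_tree hc
      refine ⟨hne, fun σ => T σ ∧ ∀ n ∈ σ, n < 2, ⟨?_, ?_⟩, fun σ h => h.2, ?_⟩
      · exact comp_of_cop ((Cop.of_computable hT.1).and (Cop.of_computable bin_comp))
      · intro σ τ hστ hτ
        exact ⟨hT.2 σ τ hστ hτ.1, fun n hn => hτ.2 n (hστ.subset hn)⟩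
      · ext f
        constructor
        · intro hf k
          refine ⟨hf k, fun n hn => ?_⟩
          obtain ⟨i, -, rfl⟩ := List.mem_map.1 hn
          exact hb f hf i
        · intro hf k
          exact (hf k).1

end Pool.Agent.Lib.MP_d48993_lc
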