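import Pool.Agent.Lib.MP_d48993_lc.Interfaces
import Pool.Agent.Lib.MP_d48993_lc.Cls
import Pool.Agent.Lib.MP_f26228_lc.RE

/-!
Module B0: a closed class of binary functions no member of which is computable from a generic
function.
-/

set_option autoImplicit false

namespace Pool.Agent.Lib.MP_d48993_lc

open MP_8c048d_lc (pre join RecF Sig Clo Cop)

namespace B0

/-- The string coded by `u`. -/
def str (u : ℕ) : List ℕ := Denumerable.ofNat (List ℕ) u

/-- The pair coded by `p`. -/
def pr (p : ℕ) : ℕ × List ℕ := Denumerable.ofNat (ℕ × List ℕ) p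

/-- `u` is a candidate for `p`. -/
def Q (Φ : ℕ → List ℕ → List ℕ) (p u : ℕ) : Prop :=
  (pr p).2 <+: str u ∧ p < (Φ (pr p).1 (str u)).length

/-- `u` is the first candidate for `p`. -/
def Fst (Φ : ℕ → List ℕ → List ℕ) (p u : ℕ) : Prop := Q Φ p u ∧ ∀ u' < u, ¬ Q Φ p u'

variable {Φ : ℕ → List ℕ → List ℕ}

theorem str_comp : Computable str := (Primrec.ofNat (List ℕ)).to_comp

theorem pr_comp : Computable pr := (Primrec.ofNat (ℕ × List ℕ)).to_comp

theorem val_comp (h : Computable₂ Φ) :
    Computable (fun z : ℕ × ℕ => Φ (pr z.1).1 (str z.2)) :=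
  h.comp (Computable.fst.comp (pr_comp.comp Computable.fst)) (str_comp.comp Computable.snd)

theorem Q_comp (h : Computable₂ Φ) : ComputablePred (fun z : ℕ × ℕ => Q Φ z.1 z.2) := by
  have hpre : ComputablePred (fun z : List ℕ × List ℕ => z.2.take z.1.length = z.1) :=
    comp_of_cop (Cop.of_recF (φ := fun (z : List ℕ × List ℕ) (_ : ℕ → ℕ) =>
      (z.2.take z.1.length, z.1))
      (RecF.of_computable (Computable.pair ((Primrec.list_take (α := ℕ)).to_comp.comp
        (Computable.list_length.comp Computable.fst) Computable.snd) Computable.fst))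
      (p := fun p : List ℕ × List ℕ => p.1 = p.2)
      (PrimrecPred.computablePred (PrimrecRel.comp Primrec.eq Primrec.fst Primrec.snd)))
  have hlt : ComputablePred (fun z : ℕ × ℕ => z.1 < z.2) :=
    PrimrecPred.computablePred (PrimrecRel.comp Primrec.nat_lt Primrec.fst Primrec.snd)
  have e1 : Cop (fun (z : ℕ × ℕ) (_ : ℕ → ℕ) =>
      (str z.2).take (pr z.1).2.length = (pr z.1).2) :=
    Cop.of_recF (φ := fun (z : ℕ × ℕ) (_ : ℕ → ℕ) => ((pr z.1).2, str z.2))
      (RecF.of_computable (Computable.pair (Computable.snd.comp (pr_comp.comp Computable.fst))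
        (str_comp.comp Computable.snd))) hpre
  have e2 : Cop (fun (z : ℕ × ℕ) (_ : ℕ → ℕ) => z.1 < (Φ (pr z.1).1 (str z.2)).length) :=
    Cop.of_recF (φ := fun (z : ℕ × ℕ) (_ : ℕ → ℕ) => (z.1, (Φ (pr z.1).1 (str z.2)).length))
      (RecF.of_computable (Computable.pair Computable.fst
        (Computable.list_length.comp (val_comp h)))) hlt
  refine comp_of_cop ((e1.and e2).congr fun z _ => ?_)
  refine and_congr_left fun _ => ?_
  constructor
  · intro hh; rw [← hh]; exact List.take_prefix _ _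
  · intro hh
    obtain ⟨r, hr⟩ := hh
    rw [← hr]; simp

theorem Fst_comp (h : Computable₂ Φ) : ComputablePred (fun z : ℕ × ℕ => Fst Φ z.1 z.2) := by
  have e1 : Cop (fun (z : (ℕ × ℕ) × ℕ) (_ : ℕ → ℕ) => Q Φ z.1.1 z.2) :=
    (Cop.of_computable (Q_comp h)).comp
      (Computable.pair (Computable.fst.comp Computable.fst) Computable.snd)
  exact comp_of_cop ((Cop.of_computable (Q_comp h)).and
    (Cop.ball (P := fun (z : ℕ × ℕ) u' (_ : ℕ → ℕ) => ¬ Q Φ z.1 u') e1.not Computable.snd))

/-- The class. -/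
def B (Φ : ℕ → List ℕ → List ℕ) : Set (ℕ → ℕ) :=
  {f | ∀ z : ℕ × ℕ, f z.1 < 2 ∧
    (Fst Φ z.1 z.2 → ¬ (Φ (pr z.1).1 (str z.2))[z.1]? = some (f z.1))}

theorem B_closed (h : Computable₂ Φ) : ClosedC (B Φ) := by
  have lt2 : ComputablePred (fun n : ℕ => n < 2) :=
    PrimrecPred.computablePred (PrimrecRel.comp Primrec.nat_lt Primrec.id (Primrec.const 2))
  have hat : RecF (fun (z : Unit × (ℕ × ℕ)) (F : ℕ → ℕ) => F z.2.1) :=
    RecF.at (Computable.fst.comp Computable.snd)
  have e1 : Cop (fun (z : Unit × (ℕ × ℕ)) (F : ℕ → ℕ) => F z.2.1 < 2) := Cop.of_recF hat lt2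
  have e2 : Cop (fun (z : Unit × (ℕ × ℕ)) (_ : ℕ → ℕ) => Fst Φ z.2.1 z.2.2) :=
    (Cop.of_computable (Fst_comp h)).comp Computable.snd
  have e3 : Cop (fun (z : Unit × (ℕ × ℕ)) (F : ℕ → ℕ) =>
      (Φ (pr z.2.1).1 (str z.2.2))[z.2.1]? = some (F z.2.1)) := by
    refine Cop.of_recF (φ := fun (z : Unit × (ℕ × ℕ)) (F : ℕ → ℕ) =>
      ((Φ (pr z.2.1).1 (str z.2.2))[z.2.1]?, some (F z.2.1))) ?_
      (p := fun p : Option ℕ × Option ℕ => p.1 = p.2)
      (PrimrecPred.computablePred (PrimrecRel.comp Primrec.eq Primrec.fst Primrec.snd))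
    refine (RecF.of_computable ?_).pair (hat.comp Computable.option_some)
    exact Computable.list_getElem?.comp ((val_comp h).comp Computable.snd)
      (Computable.fst.comp Computable.snd)
  exact Clo.all (P := fun (_ : Unit) (z : ℕ × ℕ) (F : ℕ → ℕ) => F z.1 < 2 ∧
    (Fst Φ z.1 z.2 → ¬ (Φ (pr z.1).1 (str z.2))[z.1]? = some (F z.1)))
    (Clo.of_cop (e1.and (e2.imp e3.not)))

theorem B_nonempty : (B Φ).Nonempty := by
  classical
  refine ⟨fun p => if ∃ u, Fst Φ p u ∧ (Φ (pr p).1 (str u))[p]? = some 0 then 1 else 0, ?_⟩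
  rintro ⟨p, u⟩
  simp only
  constructor
  · split_ifs <;> omega
  · intro hu hv
    split_ifs at hv with h
    · obtain ⟨u', hu', hv'⟩ := h
      have : u = u' := by
        rcases lt_trichotomy u u' with h | h | h
        · exact absurd hu.1 (hu'.2 u h)
        · exact h
        · exact absurd hu'.1 (hu.2 u' h)
      subst this
      rw [hv'] at hv
      simp at hv
    · exact h ⟨u, hu, hv⟩

theorem pre_prefix (G : ℕ → ℕ) {k k' : ℕ} (h : k ≤ k') : pre G k <+: pre G k' := by
  rw [← min_eq_left h, ← MP_8c048d_lc.pre_take]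
  exact List.take_prefix _ _

theorem not_mem (hΦ : IsEnum Φ) {G : ℕ → ℕ} (hG : IsGeneric G) : G ∉ Up (B Φ) := by
  rintro ⟨f, hf, hr⟩
  obtain ⟨i, hi1, hi2⟩ := (hΦ.spec f G).1 hr
  have hW : REPred (fun t : List ℕ => ∃ s : List ℕ,
      Fst Φ (Encodable.encode (i, s)) (Encodable.encode t)) := by
    refine MP_f26228_lc.re_exists (p := fun (t s : List ℕ) =>
      Fst Φ (Encodable.encode (i, s)) (Encodable.encode t)) ?_
    refine ComputablePred.to_re ?_
    exact comp_of_cop ((Cop.of_computable (Fst_comp hΦ.comp)).comp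
      (f := fun x : List ℕ × List ℕ => (Encodable.encode (i, x.2), Encodable.encode x.1))
      (Computable.pair (Computable.encode.comp (Computable.pair (Computable.const i)
        Computable.snd)) (Computable.encode.comp Computable.fst)))
  obtain ⟨k, hk⟩ := hG _ hW
  have es : ∀ t : List ℕ, str (Encodable.encode t) = t := fun t => Denumerable.ofNat_encode t
  have ep : ∀ s : List ℕ, pr (Encodable.encode (i, s)) = (i, s) := fun s =>
    Denumerable.ofNat_encode _
  rcases hk with ⟨s, hs⟩ | hk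
  · have h1 := (hf (Encodable.encode (i, s), Encodable.encode (pre G k))).2 hs
    have h2 := hs.1.2
    simp only [es, ep] at h1 h2
    apply h1
    rw [hi1 k, MP_8c048d_lc.pre_getElem?, if_pos]
    rw [hi1 k, MP_8c048d_lc.length_pre] at h2
    exact h2
  · classical
    set s := pre G k with hs
    set p := Encodable.encode (i, s) with hp
    obtain ⟨k', hk'⟩ := hi2 (p + 1)
    have hQ : Q Φ p (Encodable.encode (pre G (max k k'))) := by
      refine ⟨?_, ?_⟩
      · rw [ep, es]; exact pre_prefix G (le_max_left _ _)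
      · rw [ep, es]
        have := (hΦ.mono i _ _ (pre_prefix G (le_max_right k k'))).length_le
        simp only
        omega
    have hex : ∃ u, Q Φ p u := ⟨_, hQ⟩
    have h0 : Fst Φ p (Nat.find hex) := ⟨Nat.find_spec hex, fun u' hu' => Nat.find_min hex hu'⟩
    have h1 : (i, s).2 <+: str (Nat.find hex) := by
      have := h0.1.1
      rwa [ep] at this
    refine hk (str (Nat.find hex)) h1 ⟨s, ?_⟩
    have e : Encodable.encode (str (Nat.find hex)) = Nat.find hex := Denumerable.encode_ofNat _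
    rw [e]
    exact h0

end B0

theorem b0 (h : EnumStatement) : B0Statement := by
  obtain ⟨Φ, hΦ⟩ := h
  exact ⟨B0.B Φ, B0.B_nonempty, B0.B_closed hΦ.comp, fun f hf n => (hf (n, 0)).1,
    fun G hG => B0.not_mem hΦ hG⟩

end Pool.Agent.Lib.MP_d48993_lc
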