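import Pool.Agent.Lib.MP_d48993_lc.Interfaces

/-!
# Module COND (helper58): decidability of `Ext`, `SafeF`; `Safe` is clopen

Reusable: `Cop.optAll`, `Cop.ballL`, `Cop.bexL` (quantifiers over computable lists),
`Cop.toCP` (clopen without function argument = computable predicate), `cp_eq`, `cp_prefix`.
-/

set_option autoImplicit false

namespace Pool.Agent.Lib.MP_d48993_lc

open MP_8c048d_lc (pre join RecF Sig Clo Cop)

section calculus

variable {α β γ : Type} [Primcodable α] [Primcodable β] [Primcodable γ]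

theorem recF_optElim {f : α → Option β} (hf : Computable f) {d : α × β → (ℕ → ℕ) → γ}
    (hd : RecF d) (c : γ) : RecF (fun a F => (f a).elim c fun b => d (a, b) F) := by
  obtain ⟨q, hq, h1, h2⟩ := hd
  refine ⟨fun p => Option.casesOn (f p.1) (some c) (fun b => q ((p.1, b), p.2)), ?_, ?_, ?_⟩
  · refine Computable.option_casesOn (hf.comp Computable.fst) (Computable.const _) ?_
    exact hq.comp (Computable.pair (Computable.pair (Computable.fst.comp Computable.fst)
      Computable.snd) (Computable.snd.comp Computable.fst))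
  · intro a F k x hx
    simp only at hx ⊢
    cases h : f a with
    | none => rw [h] at hx; simpa using hx
    | some b => rw [h] at hx; exact h1 _ _ _ _ hx
  · intro a F
    simp only
    cases h : f a with
    | none => exact ⟨0, rfl⟩
    | some b => exact h2 (a, b) F

theorem Cop.optAll {f : α → Option β} (hf : Computable f) {P : α → β → (ℕ → ℕ) → Prop}
    (h : Cop (fun (p : α × β) F => P p.1 p.2 F)) :
    Cop (fun a F => ∀ b, f a = some b → P a b F) := by
  obtain ⟨d, hd, h1⟩ := h
  refine ⟨_, recF_optElim hf hd true, fun a F => ?_⟩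
  show (∀ b, f a = some b → P a b F) ↔ ((f a).elim true fun b => d (a, b) F) = true
  cases h : f a with
  | none => simp
  | some b =>
    simp only [Option.some.injEq, forall_eq', Option.elim_some]
    exact h1 (a, b) F

theorem Cop.optEx {f : α → Option β} (hf : Computable f) {P : α → β → (ℕ → ℕ) → Prop}
    (h : Cop (fun (p : α × β) F => P p.1 p.2 F)) :
    Cop (fun a F => ∃ b, f a = some b ∧ P a b F) :=
  (Cop.optAll (P := fun a b F => ¬ P a b F) hf h.not).not.congr fun a F => by
    push Not
    rfl

/-- Quantification over the elements of a computable list. -/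
theorem Cop.ballL {P : α → β → (ℕ → ℕ) → Prop} (h : Cop (fun (p : α × β) F => P p.1 p.2 F))
    {l : α → List β} (hl : Computable l) : Cop (fun a F => ∀ b ∈ l a, P a b F) := by
  have h1 : Cop (fun (p : α × ℕ) F => ∀ b, (l p.1)[p.2]? = some b → P p.1 b F) := by
    refine Cop.optAll (f := fun p : α × ℕ => (l p.1)[p.2]?)
      (Computable.list_getElem?.comp (hl.comp Computable.fst) Computable.snd) ?_
    exact h.comp (f := fun p : (α × ℕ) × β => (p.1.1, p.2))
      (Computable.pair (Computable.fst.comp Computable.fst) Computable.snd)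
  refine (MP_8c048d_lc.Cop.ball (P := fun a i F => ∀ b, (l a)[i]? = some b → P a b F) h1
    (Computable.list_length.comp hl)).congr fun a F => ?_
  constructor
  · intro h b hb
    obtain ⟨i, hi⟩ := List.mem_iff_getElem?.1 hb
    have : i < (l a).length := by
      by_contra h2
      rw [List.getElem?_eq_none (by omega)] at hi
      simp at hi
    exact h i this b hi
  · intro h i _ b hb
    exact h b (List.mem_of_getElem? hb)

theorem Cop.bexL {P : α → β → (ℕ → ℕ) → Prop} (h : Cop (fun (p : α × β) F => P p.1 p.2 F))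
    {l : α → List β} (hl : Computable l) : Cop (fun a F => ∃ b ∈ l a, P a b F) :=
  (Cop.ballL (P := fun a b F => ¬ P a b F) h.not hl).not.congr fun a F => by
    push Not
    rfl

/-- A clopen relation without function argument is computable. -/
theorem Cop.toCP {P : α → Prop} (h : Cop (fun a (_ : ℕ → ℕ) => P a)) : ComputablePred P := by
  obtain ⟨d, hd, h1⟩ := h
  obtain ⟨q, hq, h2, h3⟩ := hd
  have hpre : Computable (fun k : ℕ => pre (fun _ => 0) k) := by
    have : Primrec (fun k : ℕ => (List.range k).map (fun _ => 0)) :=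
      Primrec.list_map Primrec.list_range (Primrec.const 0).to₂
    exact this.to_comp
  have hp : Partrec (fun a => Nat.rfindOpt (fun k => q (a, pre (fun _ => 0) k))) :=
    Partrec.rfindOpt (f := fun a k => q (a, pre (fun _ => 0) k))
      (hq.comp (Computable.pair Computable.fst (hpre.comp Computable.snd)))
  have hc : Computable (fun a => d a (fun _ => 0)) := by
    refine Partrec.of_eq hp fun a => ?_
    have hdom : (Nat.rfindOpt (fun k => q (a, pre (fun _ => 0) k))).Dom := by
      rw [Nat.rfindOpt_dom]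
      obtain ⟨k, hk⟩ := h3 a (fun _ => 0)
      exact ⟨k, _, hk⟩
    obtain ⟨b, hb⟩ := Part.dom_iff_mem.1 hdom
    obtain ⟨k, hk⟩ := Nat.rfindOpt_spec hb
    have := h2 a _ k b hk
    rw [Part.eq_some_iff.2 hb, ← this]
    rfl
  refine ⟨fun a => decidable_of_iff _ (h1 a (fun _ => 0)).symm, ?_⟩
  refine hc.of_eq fun a => ?_
  by_cases h4 : P a
  · simp only [h4, decide_true]
    exact (h1 a _).1 h4
  · simp only [h4, decide_false]
    have := (not_congr (h1 a (fun _ => 0))).1 h4
    simpa using this

theorem cp_eq : ComputablePred (fun p : α × α => p.1 = p.2) := by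
  classical
  have h : PrimrecRel (fun a b : α => a = b) := Primrec.eq
  exact PrimrecPred.computablePred (PrimrecRel.comp h Primrec.fst Primrec.snd)

theorem Cop.eq {f g : α → β} (hf : Computable f) (hg : Computable g) :
    Cop (fun a (_ : ℕ → ℕ) => f a = g a) :=
  (MP_8c048d_lc.Cop.of_computable (cp_eq (α := β))).comp (f := fun a => (f a, g a)) (hf.pair hg)

theorem Cop.mem {f : α → β} {l : α → List β} (hf : Computable f) (hl : Computable l) :
    Cop (fun a (_ : ℕ → ℕ) => f a ∈ l a) := by
  refine (Cop.bexL (P := fun a b (_ : ℕ → ℕ) => f a = b)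
    (Cop.eq (hf.comp Computable.fst) Computable.snd) hl).congr fun a F => ?_
  simp

theorem Cop.lt {f g : α → ℕ} (hf : Computable f) (hg : Computable g) :
    Cop (fun a (_ : ℕ → ℕ) => f a < g a) := by
  have h : ComputablePred (fun p : ℕ × ℕ => p.1 < p.2) :=
    PrimrecPred.computablePred (PrimrecRel.comp Primrec.nat_lt Primrec.fst Primrec.snd)
  exact (MP_8c048d_lc.Cop.of_computable h).comp (f := fun a => (f a, g a)) (hf.pair hg)

theorem comp_take {f : α → ℕ} {l : α → List β} (hf : Computable f) (hl : Computable l) :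
    Computable (fun a => (l a).take (f a)) :=
  (Primrec.list_take (α := β)).to_comp.comp hf hl

theorem comp_drop {f : α → ℕ} {l : α → List β} (hf : Computable f) (hl : Computable l) :
    Computable (fun a => (l a).drop (f a)) :=
  (Primrec.list_drop (α := β)).to_comp.comp hf hl

theorem Cop.isPre {f g : α → List β} (hf : Computable f) (hg : Computable g) :
    Cop (fun a (_ : ℕ → ℕ) => f a <+: g a) := by
  refine (Cop.eq (comp_take (Computable.list_length.comp hf) hg) hf).congr fun a F => ?_
  rw [List.prefix_iff_eq_take]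
  exact eq_comm

theorem comp_dropLast {l : α → List β} (hl : Computable l) :
    Computable (fun a => (l a).dropLast) := by
  have h1 : Computable (fun a => (l a).length - 1) :=
    (Primrec.nat_sub.to_comp).comp (Computable.list_length.comp hl) (Computable.const 1)
  exact (comp_take h1 hl).of_eq fun a => (List.dropLast_eq_take).symm

end calculus

/-- The type of the points of a map. -/
abbrev PT : Type := List ℕ × List ℕ

private theorem pp {α : Type} [Primcodable α] {P : α → Prop}
    (h : Cop (fun a (_ : ℕ → ℕ) => P a)) : Cop (fun a (_ : ℕ → ℕ) => P a) := h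

theorem valid_cop (T : List ℕ → Prop) (hT : ComputablePred T) :
    Cop (fun (q : List PT) (_ : ℕ → ℕ) => Valid T q) := by
  have f1 : ∀ {α : Type} [Primcodable α], Computable (fun p : α × PT => p.2.1) :=
    Computable.fst.comp Computable.snd
  have f2 : ∀ {α : Type} [Primcodable α], Computable (fun p : α × PT => p.2.2) :=
    Computable.snd.comp Computable.snd
  -- root
  have h1 : Cop (fun (q : List PT) (_ : ℕ → ℕ) => (([] : List ℕ), ([] : List ℕ)) ∈ q) :=
    Cop.mem (Computable.const _) Computable.id
  -- mem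
  have h2 : Cop (fun (q : List PT) (_ : ℕ → ℕ) => ∀ p ∈ q, T p.1 ∧ ∀ n ∈ p.2, n < 4) := by
    refine Cop.ballL (P := fun (q : List PT) (p : PT) (_ : ℕ → ℕ) => T p.1 ∧ ∀ n ∈ p.2, n < 4)
      ?_ Computable.id
    refine MP_8c048d_lc.Cop.and ((MP_8c048d_lc.Cop.of_computable hT).comp f1) ?_
    refine Cop.ballL (P := fun (q : List PT × PT) (n : ℕ) (_ : ℕ → ℕ) => n < 4) ?_ f2
    exact Cop.lt Computable.snd (Computable.const 4)
  -- emb
  have g1 : Computable (fun p : (List PT × PT) × PT => p.1.2.1) :=
    Computable.fst.comp (Computable.snd.comp Computable.fst)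
  have g2 : Computable (fun p : (List PT × PT) × PT => p.1.2.2) :=
    Computable.snd.comp (Computable.snd.comp Computable.fst)
  have h3 : Cop (fun (q : List PT) (_ : ℕ → ℕ) =>
      ∀ p ∈ q, ∀ p' ∈ q, (p.2 <+: p'.2 ↔ p.1 <+: p'.1)) := by
    refine Cop.ballL (P := fun (q : List PT) (p : PT) (_ : ℕ → ℕ) =>
      ∀ p' ∈ q, (p.2 <+: p'.2 ↔ p.1 <+: p'.1)) ?_ Computable.id
    refine Cop.ballL (P := fun (q : List PT × PT) (p' : PT) (_ : ℕ → ℕ) =>
      (q.2.2 <+: p'.2 ↔ q.2.1 <+: p'.1)) ?_ Computable.fst
    exact MP_8c048d_lc.Cop.iff (Cop.isPre g2 f2) (Cop.isPre g1 f1)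
  have h4 : Cop (fun (q : List PT) (_ : ℕ → ℕ) =>
      ∀ p ∈ q, ∀ p' ∈ q, p.2.length = p'.2.length → p.1 = p'.1) := by
    refine Cop.ballL (P := fun (q : List PT) (p : PT) (_ : ℕ → ℕ) =>
      ∀ p' ∈ q, p.2.length = p'.2.length → p.1 = p'.1) ?_ Computable.id
    refine Cop.ballL (P := fun (q : List PT × PT) (p' : PT) (_ : ℕ → ℕ) =>
      q.2.2.length = p'.2.length → q.2.1 = p'.1) ?_ Computable.fst
    exact MP_8c048d_lc.Cop.imp (Cop.eq (Computable.list_length.comp g2)
      (Computable.list_length.comp f2)) (Cop.eq g1 f1)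
  have h5 : Cop (fun (q : List PT) (_ : ℕ → ℕ) =>
      ∀ p ∈ q, p.1 ≠ [] → ∃ p' ∈ q, p'.1 = p.1.dropLast) := by
    refine Cop.ballL (P := fun (q : List PT) (p : PT) (_ : ℕ → ℕ) =>
      p.1 ≠ [] → ∃ p' ∈ q, p'.1 = p.1.dropLast) ?_ Computable.id
    refine MP_8c048d_lc.Cop.imp (MP_8c048d_lc.Cop.not (Cop.eq f1 (Computable.const []))) ?_
    refine Cop.bexL (P := fun (q : List PT × PT) (p' : PT) (_ : ℕ → ℕ) =>
      p'.1 = q.2.1.dropLast) ?_ Computable.fst
    exact Cop.eq f1 (comp_dropLast g1)
  refine (h1.and (h2.and (h3.and (h4.and h5)))).congr fun q F => ?_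
  constructor
  · rintro ⟨a, b, c, d, e⟩
    exact ⟨a, b, c, d, e⟩
  · rintro ⟨a, b, c, d, e⟩
    exact ⟨a, b, c, d, e⟩

theorem extComp : ExtCompStatement := by
  intro T hT
  apply Cop.toCP
  -- p = (F, c, c')
  let A : Type := List (List ℕ) × Cnd × Cnd
  have aF : Computable (fun p : A => p.1) := Computable.fst
  have ac1 : Computable (fun p : A => p.2.1.1) :=
    Computable.fst.comp (Computable.fst.comp Computable.snd)
  have ac2 : Computable (fun p : A => p.2.1.2) :=
    Computable.snd.comp (Computable.fst.comp Computable.snd)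
  have ad1 : Computable (fun p : A => p.2.2.1) :=
    Computable.fst.comp (Computable.snd.comp Computable.snd)
  have ad2 : Computable (fun p : A => p.2.2.2) :=
    Computable.snd.comp (Computable.snd.comp Computable.snd)
  have h1 : Cop (fun (p : A) (_ : ℕ → ℕ) => Valid T p.2.2.2) := (valid_cop T hT).comp ad2
  have h2 : Cop (fun (p : A) (_ : ℕ → ℕ) => p.2.1.1 <+: p.2.2.1) := Cop.isPre ac1 ad1
  have h3 : Cop (fun (p : A) (_ : ℕ → ℕ) => ∀ x ∈ p.2.1.2, x ∈ p.2.2.2) := by
    refine Cop.ballL (P := fun (p : A) (x : PT) (_ : ℕ → ℕ) => x ∈ p.2.2.2) ?_ ac2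
    exact Cop.mem Computable.snd (ad2.comp Computable.fst)
  have h4 : Cop (fun (p : A) (_ : ℕ → ℕ) => ∀ x ∈ p.2.2.2, x ∉ p.2.1.2 → ∀ x' ∈ p.2.2.2,
      x'.1 = x.1.dropLast → ∀ π ∈ p.1, π <+: x.2 → π <+: x'.2) := by
    refine Cop.ballL (P := fun (p : A) (x : PT) (_ : ℕ → ℕ) => x ∉ p.2.1.2 → ∀ x' ∈ p.2.2.2,
      x'.1 = x.1.dropLast → ∀ π ∈ p.1, π <+: x.2 → π <+: x'.2) ?_ ad2
    refine MP_8c048d_lc.Cop.imp (MP_8c048d_lc.Cop.not
      (Cop.mem Computable.snd (ac2.comp Computable.fst))) ?_
    refine Cop.ballL (P := fun (y : A × PT) (x' : PT) (_ : ℕ → ℕ) =>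
      x'.1 = y.2.1.dropLast → ∀ π ∈ y.1.1, π <+: y.2.2 → π <+: x'.2) ?_
      (ad2.comp Computable.fst)
    have b1 : Computable (fun z : (A × PT) × PT => z.1.2) := Computable.snd.comp Computable.fst
    have b2 : Computable (fun z : (A × PT) × PT => z.2) := Computable.snd
    refine MP_8c048d_lc.Cop.imp (Cop.eq (Computable.fst.comp b2)
      (comp_dropLast (Computable.fst.comp b1))) ?_
    refine Cop.ballL (P := fun (z : (A × PT) × PT) (π : List ℕ) (_ : ℕ → ℕ) =>
      π <+: z.1.2.2 → π <+: z.2.2) ?_ (aF.comp (Computable.fst.comp Computable.fst))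
    exact MP_8c048d_lc.Cop.imp
      (Cop.isPre Computable.snd (Computable.snd.comp (b1.comp Computable.fst)))
      (Cop.isPre Computable.snd (Computable.snd.comp (b2.comp Computable.fst)))
  have h5 : Cop (fun (p : A) (_ : ℕ → ℕ) => ∀ n ∈ p.2.2.1.drop p.2.1.1.length,
      ∀ x : PT, (Encodable.decode n : Option PT) = some x →
        n = Encodable.encode x → T x.1 → x ∈ p.2.2.2) := by
    refine Cop.ballL (P := fun (p : A) (n : ℕ) (_ : ℕ → ℕ) =>
      ∀ x : PT, (Encodable.decode n : Option PT) = some x →
        n = Encodable.encode x → T x.1 → x ∈ p.2.2.2) ?_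
      (comp_drop (Computable.list_length.comp ac1) ad1)
    refine Cop.optAll (f := fun y : A × ℕ => (Encodable.decode y.2 : Option PT))
      (P := fun (y : A × ℕ) (x : PT) (_ : ℕ → ℕ) =>
        y.2 = Encodable.encode x → T x.1 → x ∈ y.1.2.2.2)
      (Computable.decode.comp Computable.snd) ?_
    refine MP_8c048d_lc.Cop.imp (Cop.eq (Computable.snd.comp Computable.fst)
      (Computable.encode.comp Computable.snd)) ?_
    refine MP_8c048d_lc.Cop.imp ((MP_8c048d_lc.Cop.of_computable hT).comp
      (Computable.fst.comp Computable.snd)) ?_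
    exact Cop.mem Computable.snd (ad2.comp (Computable.fst.comp Computable.fst))
  refine (h1.and (h2.and (h3.and (h4.and h5)))).congr fun q F => ?_
  constructor
  · rintro ⟨a, b, c, d, e⟩
    refine ⟨a, b, c, d, ?_⟩
    intro n hn s ρ hf hs
    refine e n hn (s, ρ) ?_ hf hs
    rw [hf]
    exact Encodable.encodek (s, ρ)
  · rintro ⟨a, b, c, d, e⟩
    refine ⟨a, b, c, d, ?_⟩
    intro n hn x _ hx hT'
    exact e n hn x.1 x.2 hx hT'

theorem safeComp : SafeCompStatement := by
  refine ⟨?_, ?_, ?_⟩
  · apply Cop.toCP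
    let A : Type := List ℕ × Cnd
    have aG : Computable (fun p : A => p.1) := Computable.fst
    have ac2 : Computable (fun p : A => p.2.2) := Computable.snd.comp Computable.snd
    have h1 : Cop (fun (p : A) (_ : ℕ → ℕ) => ∀ x ∈ p.2.2, (∀ n ∈ x.2, n < 4) ∧
        ∀ m < x.2.length, ∃ v, p.1[Encodable.encode (x.2.take m)]? = some v ∧
          ¬ x.2[m]? = some (v % 4)) := by
      refine Cop.ballL (P := fun (p : A) (x : PT) (_ : ℕ → ℕ) => (∀ n ∈ x.2, n < 4) ∧
        ∀ m < x.2.length, ∃ v, p.1[Encodable.encode (x.2.take m)]? = some v ∧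
          ¬ x.2[m]? = some (v % 4)) ?_ ac2
      have b2 : Computable (fun y : A × PT => y.2.2) := Computable.snd.comp Computable.snd
      refine MP_8c048d_lc.Cop.and ?_ ?_
      · refine Cop.ballL (P := fun (y : A × PT) (n : ℕ) (_ : ℕ → ℕ) => n < 4) ?_ b2
        exact Cop.lt Computable.snd (Computable.const 4)
      · refine MP_8c048d_lc.Cop.ball (P := fun (y : A × PT) (m : ℕ) (_ : ℕ → ℕ) =>
          ∃ v, y.1.1[Encodable.encode (y.2.2.take m)]? = some v ∧
          ¬ y.2.2[m]? = some (v % 4)) ?_ (Computable.list_length.comp b2)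
        have d1 : Computable (fun z : (A × PT) × ℕ => Encodable.encode (z.1.2.2.take z.2)) :=
          Computable.encode.comp (comp_take Computable.snd (b2.comp Computable.fst))
        refine Cop.optEx (f := fun z : (A × PT) × ℕ =>
          z.1.1.1[Encodable.encode (z.1.2.2.take z.2)]?)
          (P := fun (z : (A × PT) × ℕ) (v : ℕ) (_ : ℕ → ℕ) => ¬ z.1.2.2[z.2]? = some (v % 4))
          (Computable.list_getElem?.comp (aG.comp (Computable.fst.comp Computable.fst)) d1) ?_
        refine MP_8c048d_lc.Cop.not (Cop.eq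
          (Computable.list_getElem?.comp (b2.comp (Computable.fst.comp Computable.fst))
            (Computable.snd.comp Computable.fst))
          (Computable.option_some.comp ((Primrec.nat_mod.to_comp).comp Computable.snd
            (Computable.const 4))))
    refine h1.congr fun p F => ?_
    unfold SafeF
    refine forall_congr' fun x => forall_congr' fun _ => and_congr Iff.rfl ?_
    refine forall_congr' fun m => forall_congr' fun hm => ?_
    refine exists_congr fun v => and_congr Iff.rfl ?_
    rw [List.getElem?_eq_getElem hm]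
    simp
  · -- Safe
    let A : Type := Cnd
    have ac2 : Computable (fun p : A => p.2) := Computable.snd
    have h1 : Cop (fun (p : A) G => ∀ x ∈ p.2, (∀ n ∈ x.2, n < 4) ∧
        ∀ m < x.2.length, ¬ x.2[m]? = some (G (Encodable.encode (x.2.take m)) % 4)) := by
      refine Cop.ballL (P := fun (p : A) (x : PT) G => (∀ n ∈ x.2, n < 4) ∧
        ∀ m < x.2.length, ¬ x.2[m]? = some (G (Encodable.encode (x.2.take m)) % 4)) ?_ ac2
      have b2 : Computable (fun y : A × PT => y.2.2) := Computable.snd.comp Computable.snd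
      refine MP_8c048d_lc.Cop.and ?_ ?_
      · refine Cop.ballL (P := fun (y : A × PT) (n : ℕ) (_ : ℕ → ℕ) => n < 4) ?_ b2
        exact Cop.lt Computable.snd (Computable.const 4)
      · refine MP_8c048d_lc.Cop.ball (P := fun (y : A × PT) (m : ℕ) G =>
          ¬ y.2.2[m]? = some (G (Encodable.encode (y.2.2.take m)) % 4)) ?_
          (Computable.list_length.comp b2)
        have d1 : Computable (fun z : (A × PT) × ℕ => Encodable.encode (z.1.2.2.take z.2)) :=
          Computable.encode.comp (comp_take Computable.snd (b2.comp Computable.fst))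
        have d2 : Computable (fun z : (A × PT) × ℕ => z.1.2.2[z.2]?) :=
          Computable.list_getElem?.comp (b2.comp Computable.fst) Computable.snd
        have d3 : RecF (fun (z : (A × PT) × ℕ) G =>
            (z.1.2.2[z.2]?, G (Encodable.encode (z.1.2.2.take z.2)))) :=
          (RecF.of_computable d2).pair (RecF.at d1)
        refine MP_8c048d_lc.Cop.not (MP_8c048d_lc.Cop.of_recF d3
          (p := fun w : Option ℕ × ℕ => w.1 = some (w.2 % 4)) ?_)
        apply Cop.toCP
        exact Cop.eq Computable.fst (Computable.option_some.comp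
          ((Primrec.nat_mod.to_comp).comp Computable.snd (Computable.const 4)))
    refine h1.congr fun p G => ?_
    unfold Safe TPsi psi
    refine forall_congr' fun x => forall_congr' fun _ => and_congr Iff.rfl ?_
    refine forall_congr' fun m => forall_congr' fun hm => ?_
    rw [List.getElem?_eq_getElem hm]
    simp
  · intro G k c h p hp
    obtain ⟨h1, h2⟩ := h p hp
    refine ⟨h1, fun m hm => ?_⟩
    obtain ⟨v, hv, hne⟩ := h2 m hm
    rw [MP_8c048d_lc.pre_getElem?] at hv
    split_ifs at hv with h3
    simp only [Option.some.injEq] at hv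
    unfold psi
    rw [hv]
    exact hne

end Pool.Agent.Lib.MP_d48993_lc
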