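import Pool.Agent.Lib.MP_d48993_lc.Interfaces
import Pool.Agent.Lib.MP_f7c71a_lc.Oracle

/-!
# Module ENUM: an enumeration of the Turing functionals by monotone maps on strings
-/

set_option autoImplicit false

namespace Pool.Agent.Lib.MP_d48993_lc

open MP_8c048d_lc (pre join RecF Sig Clo Cop)
open Nat.Partrec (Code)
open Nat.Partrec.Code Encodable Denumerable
open Pool.Agent.Lib.MP_f26228_lc (seg seg_length seg_getElem? seg_prefix seg_take
  val val_primrec val_mono)
open Pool.Agent.Lib.MP_f7c71a_lc (search_rec mem_rfindOpt oracle_code)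

/-- The output after `t` steps. -/
def outS (c : Code) (σ : List ℕ) (t : ℕ) : List ℕ :=
  t.rec [] fun s acc => acc ++ (val c (σ.take (s + 1)) acc.length).toList

theorem outS_zero (c : Code) (σ : List ℕ) : outS c σ 0 = [] := rfl

theorem outS_succ (c : Code) (σ : List ℕ) (t : ℕ) : outS c σ (t + 1) =
    outS c σ t ++ (val c (σ.take (t + 1)) (outS c σ t).length).toList := rfl

/-- The `i`-th functional. -/
def phiE (i : ℕ) (σ : List ℕ) : List ℕ := outS (ofNat Code i) σ σ.length

theorem prim_toList {α : Type} [Primcodable α] : Primrec (fun o : Option α => o.toList) := by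
  have h : Primrec (fun o : Option α => Option.casesOn (motive := fun _ => List α) o []
      (fun a => [a])) :=
    Primrec.option_casesOn Primrec.id (Primrec.const [])
      (Primrec.list_cons.comp Primrec.snd (Primrec.const [])).to₂
  refine h.of_eq fun o => ?_
  cases o <;> rfl

theorem phiE_primrec : Primrec₂ phiE := by
  unfold phiE outS
  refine Primrec.nat_rec' (f := fun z : ℕ × List ℕ => z.2.length)
    (g := fun _ => ([] : List ℕ))
    (h := fun z (y : ℕ × List ℕ) =>
      y.2 ++ (val (ofNat Code z.1) (z.2.take (y.1 + 1)) y.2.length).toList)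
    (Primrec.list_length.comp Primrec.snd) (Primrec.const _) ?_
  refine Primrec.list_append.comp (Primrec.snd.comp Primrec.snd) ?_
  refine prim_toList.comp ?_
  refine val_primrec.comp
    (g := fun w : (ℕ × List ℕ) × ℕ × List ℕ =>
      ((ofNat Code w.1.1, w.1.2.take (w.2.1 + 1)), w.2.2.length)) ?_
  refine Primrec.pair (Primrec.pair ?_ ?_) ?_
  · exact (Primrec.ofNat Code).comp (Primrec.fst.comp Primrec.fst)
  · exact Primrec.list_take.comp
      (Primrec.succ.comp (Primrec.fst.comp Primrec.snd))
      (Primrec.snd.comp Primrec.fst)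
  · exact Primrec.list_length.comp (Primrec.snd.comp Primrec.snd)

theorem outS_congr {c : Code} {σ τ : List ℕ} (h : σ <+: τ) (t : ℕ) (ht : t ≤ σ.length) :
    outS c σ t = outS c τ t := by
  induction t with
  | zero => rfl
  | succ t ih =>
    rw [outS_succ, outS_succ, ih (by omega)]
    obtain ⟨r, rfl⟩ := h
    rw [List.take_append_of_le_length ht]

theorem outS_mono {c : Code} {σ : List ℕ} {t t' : ℕ} (h : t ≤ t') :
    outS c σ t <+: outS c σ t' := by
  induction t', h using Nat.le_induction with
  | base => exact List.prefix_refl _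
  | succ k _ ih => rw [outS_succ]; exact ih.trans (List.prefix_append _ _)

theorem phiE_mono (i : ℕ) (σ τ : List ℕ) (h : σ <+: τ) : phiE i σ <+: phiE i τ := by
  unfold phiE
  rw [outS_congr h _ le_rfl]
  exact outS_mono h.length_le

theorem pre_eq_seg (g : ℕ → ℕ) (k : ℕ) : pre g k = seg g k := rfl

theorem phiE_succ (i : ℕ) (g : ℕ → ℕ) (k : ℕ) : phiE i (pre g (k + 1)) =
    phiE i (pre g k) ++ (val (ofNat Code i) (pre g (k + 1)) (phiE i (pre g k)).length).toList := by
  have h1 : (pre g k) <+: (pre g (k + 1)) := seg_prefix g (Nat.le_succ k)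
  have hl : ∀ k, (pre g k).length = k := fun k => seg_length g k
  unfold phiE
  rw [hl, hl, outS_succ, outS_congr h1 k (by rw [hl])]
  have h2 : (pre g (k + 1)).take (k + 1) = pre g (k + 1) := by
    apply List.take_of_length_le; rw [hl]
  rw [h2]

/-- Module ENUM. -/
theorem enum : EnumStatement := by
  refine ⟨phiE, phiE_primrec.to_comp, phiE_mono, fun f g => ⟨fun h => ?_, ?_⟩⟩
  · have h1 : RecursiveIn {fun n => Part.some (g n)} (fun n => Part.some (f n)) :=
      h
    obtain ⟨c, hc⟩ := oracle_code g h1
    have hc' : ∀ n v, f n = v ↔ ∃ t, val c (pre g t) n = some v := by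
      intro n v
      have := hc n v
      simp only [Part.mem_some_iff, encode_nat, exists_eq_left] at this
      exact this
    refine ⟨encode c, ?_⟩
    have e : ofNat Code (encode c) = c := ofNat_encode c
    have key : ∀ k, phiE (encode c) (pre g k) = pre f (phiE (encode c) (pre g k)).length := by
      intro k
      induction k with
      | zero => rfl
      | succ k ih =>
        rw [phiE_succ, e]
        cases hv : val c (pre g (k + 1)) (phiE (encode c) (pre g k)).length with
        | none => simpa using ih
        | some v =>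
          have hfv := (hc' _ v).2 ⟨_, hv⟩
          rw [Option.toList_some, List.length_append, List.length_singleton,
            MP_8c048d_lc.pre_succ, ← ih, hfv]
    refine ⟨key, fun n => ?_⟩
    induction n with
    | zero => exact ⟨0, Nat.zero_le _⟩
    | succ n ih =>
      obtain ⟨k, hk⟩ := ih
      obtain ⟨t, ht⟩ := (hc' n (f n)).1 rfl
      set k' := max k t with hk'
      have h1 : n ≤ (phiE (encode c) (pre g k')).length :=
        hk.trans (phiE_mono _ _ _ (seg_prefix g (le_max_left k t))).length_le
      rcases h1.lt_or_eq with h1 | h1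
      · exact ⟨k', h1⟩
      · refine ⟨k' + 1, ?_⟩
        rw [phiE_succ, e, ← h1]
        have h2 : val c (pre g (k' + 1)) n = some (f n) :=
          val_mono (seg_prefix g ((le_max_right k t).trans (Nat.le_succ _))) ht
        rw [h2, List.length_append, ← h1]
        simp
  · rintro ⟨i, hi, hu⟩
    have hΘ : Primrec₂ (fun (ρ : List ℕ) (a : ℕ) => (phiE i ρ)[a]?) := by
      have h0 : Primrec₂ (fun (l : List ℕ) (a : ℕ) => l[a]?) := Primrec.list_getElem?
      exact h0.comp (phiE_primrec.comp (Primrec.const i) Primrec.fst) Primrec.snd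
    have hs := search_rec g hΘ
    have hv : ∀ t a v, (phiE i (seg g t))[a]? = some v → v = f a := by
      intro t a v h
      have h3 := hi t
      rw [pre_eq_seg] at h3
      rw [h3] at h
      rw [MP_8c048d_lc.pre_getElem?] at h
      split_ifs at h
      exact (Option.some.inj h).symm
    have hm : ∀ a, ∃ t, (phiE i (seg g t))[a]? = some (f a) := by
      intro a
      obtain ⟨t, ht⟩ := hu (a + 1)
      refine ⟨t, ?_⟩
      have h3 := hi t
      rw [← pre_eq_seg, h3, MP_8c048d_lc.pre_getElem?, if_pos (by omega)]
    have heq : (fun a => Nat.rfindOpt (fun t => (phiE i (seg g t))[a]?)) =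
        fun a => Part.some (f a) := by
      funext a
      apply Part.ext
      intro v
      rw [Part.mem_some_iff]
      constructor
      · intro h
        obtain ⟨t, ht⟩ := Nat.rfindOpt_spec h
        exact hv t a v ht
      · rintro rfl
        rw [mem_rfindOpt]
        · exact hm a
        · intro s t v hst h
          have := phiE_mono i _ _ (seg_prefix g hst)
          rw [← h]
          obtain ⟨r, hr⟩ := this
          rw [← hr, List.getElem?_append_left]
          exact (List.getElem?_eq_some_iff.1 h).1
    rw [heq] at hs
    exact hs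

end Pool.Agent.Lib.MP_d48993_lc
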