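import Pool.Agent.Lib.MP_d48993_lc.Interfaces

/-!
# Module GEN (helper58): a limit computable `1`-generic function
-/

set_option autoImplicit false

namespace Pool.Agent.Lib.MP_d48993_lc

open MP_8c048d_lc (pre join RecF Sig Clo Cop)
open Nat.Partrec (Code)
open Nat.Partrec.Code (eval evaln evaln_complete evaln_sound evaln_mono)

namespace GEN

/-- The string with number `p.unpair.1`. -/
def strg (p : ℕ) : List ℕ := (Encodable.decode (α := List ℕ) p.unpair.1).getD []

/-- The code with number `e`. -/
def cod (e : ℕ) : Code := (Encodable.decode (α := Code) e).getD Code.zero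

/-- `p` is a witness for an extension of `σ` in `W_e`. -/
def good (e : ℕ) (σ : List ℕ) (p : ℕ) : Bool :=
  (decide ((strg p).take σ.length = σ)) &&
    (evaln p.unpair.2 (cod e) (Encodable.encode (strg p))).isSome

/-- The first witness below `s`. -/
def fnd (s e : ℕ) (σ : List ℕ) : ℕ := (List.range s).findIdx (good e σ)

/-- The next string, before the entry `0` is added. -/
def nxt (s e : ℕ) (σ : List ℕ) : List ℕ := if fnd s e σ < s then strg (fnd s e σ) else σ

/-- The stages. -/
def st (s e : ℕ) : List ℕ := Nat.rec (motive := fun _ => List ℕ) [] (fun k r => nxt s k r ++ [0]) e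

theorem st_succ (s e : ℕ) : st s (e + 1) = nxt s e (st s e) ++ [0] := rfl

theorem strg_prim : Primrec strg :=
  Primrec.option_getD.comp (Primrec.decode.comp (Primrec.fst.comp Primrec.unpair))
    (Primrec.const [])

theorem cod_prim : Primrec cod :=
  Primrec.option_getD.comp Primrec.decode (Primrec.const Code.zero)

theorem good_prim : Primrec (fun x : (ℕ × List ℕ) × ℕ => good x.1.1 x.1.2 x.2) := by
  have h1 : Primrec (fun x : (ℕ × List ℕ) × ℕ => (strg x.2).take x.1.2.length) :=
    Primrec.list_take.comp (Primrec.list_length.comp (Primrec.snd.comp Primrec.fst))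
      (strg_prim.comp Primrec.snd)
  have h2 : PrimrecPred (fun x : (ℕ × List ℕ) × ℕ => (strg x.2).take x.1.2.length = x.1.2) :=
    PrimrecRel.comp Primrec.eq h1 (Primrec.snd.comp Primrec.fst)
  have h3 : Primrec (fun x : (ℕ × List ℕ) × ℕ =>
      (evaln x.2.unpair.2 (cod x.1.1) (Encodable.encode (strg x.2))).isSome) := by
    refine Primrec.option_isSome.comp ?_
    have := Nat.Partrec.Code.primrec_evaln.comp (Primrec.pair (Primrec.pair
      ((Primrec.snd.comp Primrec.unpair).comp (Primrec.snd (α := ℕ × List ℕ) (β := ℕ)))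
      (cod_prim.comp ((Primrec.fst (α := ℕ) (β := List ℕ)).comp
        (Primrec.fst (α := ℕ × List ℕ) (β := ℕ)))))
      (Primrec.encode.comp (strg_prim.comp (Primrec.snd (α := ℕ × List ℕ) (β := ℕ)))))
    exact this
  have h4 : Primrec (fun x : (ℕ × List ℕ) × ℕ =>
      decide ((strg x.2).take x.1.2.length = x.1.2)) := by
    obtain ⟨_, h⟩ := h2
    exact Primrec.of_eq h fun x => by congr
  exact Primrec.and.comp h4 h3

theorem fnd_prim : Primrec (fun x : (ℕ × ℕ) × List ℕ => fnd x.1.1 x.1.2 x.2) := by
  refine Primrec.list_findIdx (Primrec.list_range.comp (Primrec.fst.comp Primrec.fst)) ?_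
  exact good_prim.comp (Primrec.pair (Primrec.pair (Primrec.snd.comp (Primrec.fst.comp Primrec.fst))
    (Primrec.snd.comp Primrec.fst)) Primrec.snd)

theorem nxt_prim : Primrec (fun x : (ℕ × ℕ) × List ℕ => nxt x.1.1 x.1.2 x.2) := by
  have h : PrimrecPred (fun x : (ℕ × ℕ) × List ℕ => fnd x.1.1 x.1.2 x.2 < x.1.1) :=
    PrimrecRel.comp Primrec.nat_lt fnd_prim (Primrec.fst.comp Primrec.fst)
  exact Primrec.ite h (strg_prim.comp fnd_prim) Primrec.snd

theorem st_prim : Primrec₂ st := by
  have h : Primrec₂ (fun (s : ℕ) (x : ℕ × List ℕ) => nxt s x.1 x.2 ++ [0]) :=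
    Primrec.list_concat.comp (nxt_prim.comp (Primrec.pair (Primrec.pair Primrec.fst
      (Primrec.fst.comp Primrec.snd)) (Primrec.snd.comp Primrec.snd))) (Primrec.const 0)
  exact Primrec.nat_rec (Primrec.const []) h

/-! ### Behaviour of `nxt` -/

theorem good_iff (e : ℕ) (σ : List ℕ) (p : ℕ) : good e σ p = true ↔ σ <+: strg p ∧
    (evaln p.unpair.2 (cod e) (Encodable.encode (strg p))).isSome = true := by
  unfold good
  rw [Bool.and_eq_true, decide_eq_true_iff, List.prefix_iff_eq_take, eq_comm (a := σ)]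

theorem fnd_good {s e : ℕ} {σ : List ℕ} (h : fnd s e σ < s) : good e σ (fnd s e σ) = true := by
  have h1 : fnd s e σ < (List.range s).length := by simpa using h
  have h2 : good e σ ((List.range s)[fnd s e σ]'h1) = true := List.findIdx_getElem (w := h1)
  rwa [List.getElem_range] at h2

theorem nxt_prefix (s e : ℕ) (σ : List ℕ) : σ <+: nxt s e σ := by
  unfold nxt
  split_ifs with h
  · exact ((good_iff _ _ _).1 (fnd_good h)).1
  · exact List.prefix_rfl

/-- The limit of `nxt`. -/
theorem nxt_lim (e : ℕ) (σ : List ℕ) : ∃ τ : List ℕ, (∃ s0, ∀ s ≥ s0, nxt s e σ = τ) ∧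
    ((∃ t, (evaln t (cod e) (Encodable.encode τ)).isSome = true) ∨
      (τ = σ ∧ ∀ ρ, σ <+: ρ → ∀ t, (evaln t (cod e) (Encodable.encode ρ)).isSome = false)) := by
  classical
  by_cases h : ∃ p, good e σ p = true
  · refine ⟨strg (Nat.find h), ⟨Nat.find h + 1, fun s hs => ?_⟩, Or.inl ?_⟩
    · have h1 : fnd s e σ = Nat.find h := by
        unfold fnd
        have h2 : Nat.find h < (List.range s).length := by rw [List.length_range]; omega
        rw [List.findIdx_eq h2]
        refine ⟨?_, fun j hj => ?_⟩
        · rw [List.getElem_range]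
          exact Nat.find_spec h
        · rw [List.getElem_range]
          have := Nat.find_min h hj
          simpa using this
      unfold nxt
      rw [h1, if_pos (by omega)]
    · exact ⟨_, ((good_iff _ _ _).1 (Nat.find_spec h)).2⟩
  · refine ⟨σ, ⟨0, fun s _ => ?_⟩, Or.inr ⟨rfl, ?_⟩⟩
    · unfold nxt
      split_ifs with h1
      · exact absurd ⟨_, fnd_good h1⟩ h
      · rfl
    · intro ρ hρ t
      by_contra h2
      rw [Bool.not_eq_false] at h2
      apply h
      refine ⟨Nat.pair (Encodable.encode ρ) t, (good_iff _ _ _).2 ?_⟩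
      have h3 : strg (Nat.pair (Encodable.encode ρ) t) = ρ := by
        unfold strg
        simp
      rw [h3]
      simp only [Nat.unpair_pair]
      exact ⟨hρ, h2⟩

/-- The limit of the stages. -/
theorem st_lim (e : ℕ) : ∃ σ : List ℕ, ∃ s0, ∀ s ≥ s0, st s e = σ := by
  induction e with
  | zero => exact ⟨[], 0, fun s _ => rfl⟩
  | succ e ih =>
    obtain ⟨σ, s0, h0⟩ := ih
    obtain ⟨τ, ⟨s1, h1⟩, -⟩ := nxt_lim e σ
    refine ⟨τ ++ [0], max s0 s1, fun s hs => ?_⟩
    rw [st_succ, h0 s (le_trans (le_max_left _ _) hs), h1 s (le_trans (le_max_right _ _) hs)]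

/-- The `e`-th string. -/
noncomputable def sg (e : ℕ) : List ℕ := (st_lim e).choose

theorem sg_spec (e : ℕ) : ∃ s0, ∀ s ≥ s0, st s e = sg e := (st_lim e).choose_spec

theorem sg_succ (e : ℕ) : ∃ τ, sg (e + 1) = τ ++ [0] ∧ sg e <+: τ ∧
    ((∃ t, (evaln t (cod e) (Encodable.encode τ)).isSome = true) ∨
      (τ = sg e ∧ ∀ ρ, sg e <+: ρ → ∀ t,
        (evaln t (cod e) (Encodable.encode ρ)).isSome = false)) := by
  obtain ⟨s0, h0⟩ := sg_spec e
  obtain ⟨s2, h2⟩ := sg_spec (e + 1)
  obtain ⟨τ, ⟨s1, h1⟩, h3⟩ := nxt_lim e (sg e)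
  have e1 := h0 (max s0 (max s1 s2)) (le_max_left _ _)
  have e2 := h1 (max s0 (max s1 s2)) (le_trans (le_max_left _ _) (le_max_right _ _))
  have e3 := h2 (max s0 (max s1 s2)) (le_trans (le_max_right _ _) (le_max_right _ _))
  refine ⟨τ, ?_, ?_, h3⟩
  · rw [← e3, st_succ, e1, e2]
  · rw [← e2]
    exact nxt_prefix _ _ _

theorem st_mono (s : ℕ) {e e' : ℕ} (h : e ≤ e') : st s e <+: st s e' := by
  induction h with
  | refl => exact List.prefix_rfl
  | step _ ih =>
    rename_i m _
    rw [st_succ]
    exact ih.trans ((nxt_prefix _ _ _).trans (List.prefix_append _ _))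

theorem st_len (s e : ℕ) : e ≤ (st s e).length := by
  induction e with
  | zero => exact Nat.zero_le _
  | succ e ih =>
    rw [st_succ, List.length_append, List.length_singleton]
    have := (nxt_prefix s e (st s e)).length_le
    omega

theorem sg_mono {e e' : ℕ} (h : e ≤ e') : sg e <+: sg e' := by
  obtain ⟨s0, h0⟩ := sg_spec e
  obtain ⟨s1, h1⟩ := sg_spec e'
  rw [← h0 (max s0 s1) (le_max_left _ _), ← h1 (max s0 s1) (le_max_right _ _)]
  exact st_mono _ h

theorem sg_len (e : ℕ) : e ≤ (sg e).length := by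
  obtain ⟨s0, h0⟩ := sg_spec e
  rw [← h0 s0 le_rfl]
  exact st_len _ _

/-- The approximation. -/
def ga (s n : ℕ) : ℕ := (st s (n + 1)).getD n 0

/-- The generic function. -/
noncomputable def gen (n : ℕ) : ℕ := (sg (n + 1)).getD n 0

theorem gen_eq {e n : ℕ} (h : n < (sg e).length) : gen n = (sg e)[n] := by
  unfold gen
  have h1 : n < (sg (n + 1)).length := sg_len (n + 1)
  rw [List.getD_eq_getElem _ _ h1]
  rcases le_total e (n + 1) with h2 | h2
  · exact ((sg_mono h2).getElem h).symm
  · exact (sg_mono h2).getElem h1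

theorem pre_gen (e : ℕ) : pre gen (sg e).length = sg e := by
  apply List.ext_getElem
  · exact MP_8c048d_lc.length_pre _ _
  · intro n h1 h2
    have h3 := MP_8c048d_lc.pre_getElem? gen (sg e).length n
    rw [List.getElem?_eq_getElem h1, if_pos h2] at h3
    rw [Option.some.inj h3]
    exact gen_eq h2

end GEN

open GEN in
/-- GEN. -/
theorem gen : GenericStatement := by
  refine ⟨GEN.gen, ?_, ga, ?_, ?_⟩
  · intro W hW
    -- a code of `W`
    have h1 : Nat.Partrec (fun n => Part.bind (Encodable.decode (α := List ℕ) n)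
      fun a => (Part.assert (W a) fun _ => Part.some ()).map Encodable.encode) := hW
    obtain ⟨c, hc⟩ := Nat.Partrec.Code.exists_code.1 h1
    have hdom : ∀ τ, W τ ↔ ∃ t, (evaln t c (Encodable.encode τ)).isSome = true := by
      intro τ
      have h2 : eval c (Encodable.encode τ) =
          (Part.assert (W τ) fun _ => Part.some ()).map Encodable.encode := by
        rw [hc]
        simp
      constructor
      · intro h
        have h3 : Encodable.encode () ∈ eval c (Encodable.encode τ) := by
          rw [h2, Part.assert_pos h]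
          simp
        obtain ⟨t, ht⟩ := evaln_complete.1 h3
        exact ⟨t, Option.isSome_iff_exists.2 ⟨_, ht⟩⟩
      · rintro ⟨t, ht⟩
        obtain ⟨x, hx⟩ := Option.isSome_iff_exists.1 ht
        have h3 : x ∈ eval c (Encodable.encode τ) := evaln_sound hx
        rw [h2] at h3
        by_contra h4
        rw [Part.assert_neg h4] at h3
        simp at h3
    have hcod : cod (Encodable.encode c) = c := by
      unfold cod
      rw [Encodable.encodek]
      rfl
    obtain ⟨τ, h2, h3, h4⟩ := sg_succ (Encodable.encode c)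
    rw [hcod] at h4
    have h5 : pre GEN.gen τ.length = τ := by
      have h6 := pre_gen (Encodable.encode c + 1)
      rw [h2] at h6
      have h7 := congrArg (List.take τ.length) h6
      rw [MP_8c048d_lc.pre_take, List.length_append, min_eq_left (by omega),
        List.take_left' rfl] at h7
      exact h7
    refine ⟨τ.length, ?_⟩
    rw [h5]
    rcases h4 with h4 | ⟨h4, h6⟩
    · exact Or.inl ((hdom τ).2 h4)
    · right
      intro ρ hρ hW'
      obtain ⟨t, ht⟩ := (hdom ρ).1 hW'
      rw [h4] at hρ
      rw [h6 ρ hρ t] at ht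
      exact absurd ht (by simp)
  · have h1 : Primrec₂ ga := by
      refine (Primrec.list_getD 0).comp (st_prim.comp Primrec.fst (Primrec.succ.comp Primrec.snd))
        Primrec.snd
    exact h1.to_comp
  · intro n
    obtain ⟨s0, h0⟩ := sg_spec (n + 1)
    refine ⟨s0, fun s hs => ?_⟩
    unfold ga GEN.gen
    rw [h0 s hs]

end Pool.Agent.Lib.MP_d48993_lc
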