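import Pool.Agent.Lib.MP_d48993_lc.Interfaces

/-!
# CUT: module HX
-/

set_option autoImplicit false

namespace Pool.Agent.Lib.MP_d48993_lc

open MP_8c048d_lc (pre join RecF Sig Clo Cop)

namespace Hx

theorem cp_comp {α β : Type} [Primcodable α] [Primcodable β] {P : β → Prop}
    (h : ComputablePred P) {f : α → β} (hf : Computable f) : ComputablePred (fun a => P (f a)) := by
  obtain ⟨_, h'⟩ := h
  exact ⟨fun a => inferInstance, h'.comp hf⟩

theorem eqPair : ComputablePred (fun p : ℕ × ℕ => p.1 = p.2) := by
  have h : PrimrecRel (fun a b : ℕ => a = b) := Primrec.eq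
  exact PrimrecPred.computablePred (PrimrecRel.comp h Primrec.fst Primrec.snd)

theorem lePair : ComputablePred (fun p : ℕ × ℕ => p.1 ≤ p.2) :=
  PrimrecPred.computablePred (PrimrecRel.comp Primrec.nat_le Primrec.fst Primrec.snd)

/-- The string with code `n`. -/
def S (n : ℕ) : List ℕ := (Encodable.decode (α := List ℕ) n).getD []

/-- The second component of the pair with code `x`. -/
def rr (x : ℕ) : List ℕ := ((Encodable.decode (α := List ℕ × List ℕ) x).getD ([], [])).2

theorem S_comp : Computable S :=
  Computable.option_getD (Computable.decode (α := List ℕ)) (Computable.const [])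

theorem rr_comp : Computable rr :=
  Computable.snd.comp (Computable.option_getD (Computable.decode (α := List ℕ × List ℕ))
    (Computable.const ([], [])))

theorem S_encode (s : List ℕ) : S (Encodable.encode s) = s := by
  simp [S]

theorem rr_encode (s ρ : List ℕ) : rr (Encodable.encode (s, ρ)) = ρ := by
  unfold rr
  rw [Encodable.encodek]
  rfl

/-- The relation of the search. -/
def P (Tr : ℕ → List ℕ → Prop) (e m n i : ℕ) (F : ℕ → ℕ) : Prop :=
  Tr e (S n) → m ≤ i ∧ F i = Encodable.encode (e :: S n, rr (F i))

theorem P_cop (Tr : ℕ → List ℕ → Prop) (e m : ℕ) (hTr : IsTreeEnum Tr) :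
    Cop (fun (p : ℕ × ℕ) F => P Tr e m p.1 p.2 F) := by
  refine Cop.imp (Cop.of_computable ?_) (Cop.and (Cop.of_computable ?_) ?_)
  · exact cp_comp hTr.comp (Computable.pair (Computable.const e) (S_comp.comp Computable.fst))
  · exact cp_comp lePair (Computable.pair (Computable.const m) Computable.snd)
  · have h1 : RecF (fun (p : ℕ × ℕ) F => (p.1, F p.2)) :=
      (RecF.of_computable Computable.fst).pair (RecF.at Computable.snd)
    refine Cop.of_recF h1 (p := fun p : ℕ × ℕ => p.2 = Encodable.encode (e :: S p.1, rr p.2)) ?_
    refine cp_comp eqPair (Computable.pair Computable.snd (Computable.encode.comp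
      (Computable.pair ?_ (rr_comp.comp Computable.snd))))
    exact Computable.list_cons.comp (Computable.const e) (S_comp.comp Computable.fst)

end Hx

open Hx in
open Classical in
theorem hx (h1 : Red1Statement) (hmu : RedMuStatement) (hj : JoinStatement) : HxStatement := by
  intro Tr G X e m q hTr hex hfact hq hmono
  obtain ⟨f, hf, hP⟩ := hmu (P Tr e m) (P_cop Tr e m hTr) X (by
    intro n
    by_cases hn : Tr e (S n)
    · obtain ⟨i, hi, ρ, -, hρ⟩ := hex (S n) hn
      refine ⟨i, fun _ => ⟨hi, ?_⟩⟩
      have h2 : X i = Encodable.encode (e :: S n, ρ) := hρ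
      rw [h2, rr_encode]
    · exact ⟨0, fun h => absurd h hn⟩)
  -- the map
  let H : List ℕ → List ℕ := fun s => if Tr e s then rr (X (f (Encodable.encode s))) else []
  have hH : ∀ s, Tr e s → q s (H s) := by
    intro s hs
    have h2 := hP (Encodable.encode s)
    unfold P at h2
    rw [S_encode] at h2
    obtain ⟨h3, h4⟩ := h2 hs
    have h5 : H s = rr (X (f (Encodable.encode s))) := if_pos hs
    rw [h5]
    exact hfact _ h3 s _ hs h4
  refine ⟨H, ?_, ?_⟩
  · -- computability
    have hJ : Red (join X f) X := hj.2.2 X f X Red.rfl hf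
    obtain ⟨dec, hdec⟩ : ComputablePred (fun s => Tr e s) :=
      cp_comp hTr.comp (Computable.pair (Computable.const e) Computable.id)
    have hc1 : Computable (fun n : ℕ => 2 * Encodable.encode (S n) + 1) :=
      Primrec.nat_add.to_comp.comp (Primrec.nat_mul.to_comp.comp (Computable.const 2)
        (Computable.encode.comp S_comp)) (Computable.const 1)
    have hc2 : Computable (fun n : ℕ => 2 * n) :=
      Primrec.nat_mul.to_comp.comp (Computable.const 2) Computable.id
    have hrec : RecF (fun (n : ℕ) F => bif decide (Tr e (S n)) then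
        Encodable.encode (rr (F (2 * F (2 * Encodable.encode (S n) + 1))))
        else Encodable.encode ([] : List ℕ)) := by
      refine RecF.cond (RecF.of_computable (hdec.comp S_comp)) ?_
        (RecF.of_computable (Computable.const _))
      exact (RecF.app ((RecF.at hc1).comp hc2)).comp (g := fun x => Encodable.encode (rr x))
        (Computable.encode.comp rr_comp)
    have h2 := (h1 _ hrec (join X f)).trans hJ
    have h3 : (fun n => Encodable.encode (H ((Encodable.decode (α := List ℕ) n).getD []))) =
        (fun n => bif decide (Tr e (S n)) then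
        Encodable.encode (rr (join X f (2 * join X f (2 * Encodable.encode (S n) + 1))))
        else Encodable.encode ([] : List ℕ)) := by
      funext n
      rw [MP_8c048d_lc.join_odd, MP_8c048d_lc.join_even]
      show Encodable.encode (H (S n)) = _
      by_cases hn : Tr e (S n)
      · have h5 : H (S n) = rr (X (f (Encodable.encode (S n)))) := if_pos hn
        rw [h5, decide_eq_true hn]
        rfl
      · have h5 : H (S n) = [] := if_neg hn
        rw [h5, decide_eq_false hn]
        rfl
    rw [h3]
    exact h2
  · intro s hs
    refine ⟨(hq s _ (hH s hs)).1, (hq s _ (hH s hs)).2, ?_⟩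
    intro s' hs'
    exact hmono s' s _ _ hs' (hH s' (hTr.tree e s' s hs' hs)) (hH s hs)

end Pool.Agent.Lib.MP_d48993_lc
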