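import Pool.Agent.Lib.MP_d48993_lc.Interfaces

/-!
# Module OPS: joins and meets of `Π⁰₁` classes
-/

set_option autoImplicit false

namespace Pool.Agent.Lib.MP_d48993_lc

open MP_8c048d_lc (pre join RecF Sig Clo Cop)

/-- Closed relations are closed under disjunction. -/
theorem clo_or {α : Type} [Primcodable α] {P Q : α → (ℕ → ℕ) → Prop} (h : Clo P) (h' : Clo Q) :
    Clo (fun a F => P a F ∨ Q a F) := by
  obtain ⟨d, hd, h1⟩ := h
  obtain ⟨d', hd', h1'⟩ := h'
  have cu1 : Computable (fun m : ℕ => m.unpair.1) := (Primrec.fst.comp Primrec.unpair).to_comp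
  have cu2 : Computable (fun m : ℕ => m.unpair.2) := (Primrec.snd.comp Primrec.unpair).to_comp
  have e1 : Cop (fun (p : α × ℕ) F => d (p.1, p.2.unpair.1) F = true) :=
    Cop.comp (P := fun (p : α × ℕ) F => d p F = true) ⟨d, hd, fun _ _ => Iff.rfl⟩
      (f := fun p : α × ℕ => (p.1, p.2.unpair.1))
      (Computable.pair Computable.fst (cu1.comp Computable.snd))
  have e2 : Cop (fun (p : α × ℕ) F => d' (p.1, p.2.unpair.2) F = true) :=
    Cop.comp (P := fun (p : α × ℕ) F => d' p F = true) ⟨d', hd', fun _ _ => Iff.rfl⟩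
      (f := fun p : α × ℕ => (p.1, p.2.unpair.2))
      (Computable.pair Computable.fst (cu2.comp Computable.snd))
  refine (Clo.iInter (P := fun a m F => d (a, m.unpair.1) F = true ∨ d' (a, m.unpair.2) F = true)
    (e1.or e2)).congr ?_
  intro a F
  rw [h1, h1']
  constructor
  · intro h
    by_contra hcon
    rw [not_or, not_forall, not_forall] at hcon
    obtain ⟨⟨m, hm⟩, ⟨n, hn⟩⟩ := hcon
    have := h (Nat.pair m n)
    rw [Nat.unpair_pair] at this
    exact this.elim hm hn
  · rintro (h | h) m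
    · exact Or.inl (h _)
    · exact Or.inr (h _)

/-- Substitution of a reindexing in a closed class. -/
theorem closedC_reindex {P : Set (ℕ → ℕ)} (h : ClosedC P) {g : ℕ → ℕ} (hg : Computable g) :
    ClosedC {F | (fun i => F (g i)) ∈ P} := by
  obtain ⟨d, hd, h1⟩ := h
  refine ⟨fun a E => d a (fun i => E (g i)), ?_, fun a F => h1 a (fun i => F (g i))⟩
  exact hd.reindex (f := fun a : Unit × ℕ => a) Computable.id
    (g := fun p : (Unit × ℕ) × ℕ => g p.2) (hg.comp Computable.snd)

theorem closedC_inter {P Q : Set (ℕ → ℕ)} (h : ClosedC P) (h' : ClosedC Q) :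
    ClosedC (P ∩ Q) := Clo.and h h'

theorem closedC_union {P Q : Set (ℕ → ℕ)} (h : ClosedC P) (h' : ClosedC Q) :
    ClosedC (P ∪ Q) := clo_or h h'

/-- Module OPS. -/
theorem ops (hj : JoinStatement) : OpsStatement := by
  intro P Q hP hQ
  refine ⟨⟨P ∪ Q, closedC_union hP hQ, ?_⟩, ?_⟩
  · ext W
    constructor
    · rintro ⟨f, hf | hf, hr⟩
      · exact Or.inl ⟨f, hf, hr⟩
      · exact Or.inr ⟨f, hf, hr⟩
    · rintro (⟨f, hf, hr⟩ | ⟨f, hf, hr⟩)
      · exact ⟨f, Or.inl hf, hr⟩
      · exact ⟨f, Or.inr hf, hr⟩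
  · have c1 : Computable (fun i : ℕ => 2 * i) :=
      (Primrec.nat_mul.comp (Primrec.const 2) Primrec.id).to_comp
    have c2 : Computable (fun i : ℕ => 2 * i + 1) :=
      (Primrec.succ.comp (Primrec.nat_mul.comp (Primrec.const 2) Primrec.id)).to_comp
    refine ⟨{F | (fun i => F (2 * i)) ∈ P} ∩ {F | (fun i => F (2 * i + 1)) ∈ Q},
      closedC_inter (closedC_reindex hP c1) (closedC_reindex hQ c2), ?_⟩
    ext W
    constructor
    · rintro ⟨F, ⟨h1, h2⟩, hr⟩
      have e : join (fun i => F (2 * i)) (fun i => F (2 * i + 1)) = F := MP_8c048d_lc.join_eta F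
      have r1 : Red (fun i => F (2 * i)) F := by
        have := hj.1 (fun i => F (2 * i)) (fun i => F (2 * i + 1))
        rwa [e] at this
      have r2 : Red (fun i => F (2 * i + 1)) F := by
        have := hj.2.1 (fun i => F (2 * i)) (fun i => F (2 * i + 1))
        rwa [e] at this
      exact ⟨⟨_, h1, r1.trans hr⟩, ⟨_, h2, r2.trans hr⟩⟩
    · rintro ⟨⟨f, hf, hfr⟩, ⟨g, hg, hgr⟩⟩
      refine ⟨join f g, ⟨?_, ?_⟩, hj.2.2 f g W hfr hgr⟩
      · show (fun i => join f g (2 * i)) ∈ P
        have : (fun i => join f g (2 * i)) = f := by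
          funext i; exact MP_8c048d_lc.join_even f g i
        rw [this]; exact hf
      · show (fun i => join f g (2 * i + 1)) ∈ Q
        have : (fun i => join f g (2 * i + 1)) = g := by
          funext i; exact MP_8c048d_lc.join_odd f g i
        rw [this]; exact hg

end Pool.Agent.Lib.MP_d48993_lc
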