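import Pool.Agent.Lib.MP_d48993_lc.Interfaces

/-!
# Project CUT, module PI2 (helper23)

`Π⁰₂` classes up to `≡_w`, and the class `C_ψ` of a limit computable function.
-/

set_option autoImplicit false

namespace Pool.Agent.Lib.MP_d48993_lc

open MP_8c048d_lc (pre join RecF Sig Clo Cop)
open MP_8c048d_lc

namespace PI2

theorem c_dbl {α : Type} [Primcodable α] {f : α → ℕ} (hf : Computable f) :
    Computable (fun a => 2 * f a) :=
  Primrec.nat_mul.to_comp.comp (Computable.const 2) hf

theorem c_dbl1 {α : Type} [Primcodable α] {f : α → ℕ} (hf : Computable f) :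
    Computable (fun a => 2 * f a + 1) :=
  Primrec.nat_add.to_comp.comp (c_dbl hf) (Computable.const 1)

theorem even_join (F g : ℕ → ℕ) : (fun i => join F g (2 * i)) = F := by
  funext i; exact join_even F g i

/-- The closed class of a `Π⁰₂` class. -/
def SCl (d : ℕ × ℕ → (ℕ → ℕ) → Bool) : Set (ℕ → ℕ) :=
  {E | ∀ n, d (n, E (2 * n + 1)) (fun i => E (2 * i)) = true}

theorem closed_SCl {d : ℕ × ℕ → (ℕ → ℕ) → Bool} (hd : RecF d) : ClosedC (SCl d) := by
  have h1 : RecF (fun (p : Unit × ℕ) (E : ℕ → ℕ) => (p.2, E (2 * p.2 + 1))) :=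
    (RecF.of_computable Computable.snd).pair (RecF.at (c_dbl1 Computable.snd))
  have h2 : RecF (fun (p : Unit × ℕ) (E : ℕ → ℕ) =>
      d (p.2, E (2 * p.2 + 1)) (fun i => E (2 * i))) :=
    hd.subst h1 (Ψ := fun (_ : Unit × ℕ) E i => E (2 * i)) (RecF.at (c_dbl Computable.snd))
  exact Clo.iInter (P := fun (_ : Unit) m E => d (m, E (2 * m + 1)) (fun i => E (2 * i)) = true)
    ⟨_, h2, fun _ _ => Iff.rfl⟩

end PI2

open PI2 in
/-- Module PI2, first statement. -/
theorem pi2 (hmu : RedMuStatement) (hj : JoinStatement) : Pi2Statement := by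
  intro d hd
  refine ⟨SCl d, closed_SCl hd, ?_⟩
  ext W
  constructor
  · rintro ⟨E, hE, hEW⟩
    refine ⟨fun i => E (2 * i), fun n => ⟨E (2 * n + 1), hE n⟩, ?_⟩
    have h := hj.1 (fun i => E (2 * i)) (fun i => E (2 * i + 1))
    rw [join_eta] at h
    exact h.trans hEW
  · rintro ⟨F, hF, hFW⟩
    obtain ⟨f, hf, hf'⟩ := hmu (fun n m F => d (n, m) F = true) ⟨d, hd, fun _ _ => Iff.rfl⟩ F hF
    refine ⟨join F f, ?_, (hj.2.2 F f F Red.rfl hf).trans hFW⟩
    intro n
    show d (n, join F f (2 * n + 1)) (fun i => join F f (2 * i)) = true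
    rw [even_join, join_odd]
    exact hf' n

namespace PI2

theorem mem_CPsi {G y : ℕ → ℕ} : y ∈ CPsi G ↔
    ∀ m, y m < 4 ∧ y m ≠ G (Encodable.encode (pre y m)) % 4 := by
  constructor
  · intro h m
    have h1 := h (m + 1)
    rw [pre_succ] at h1
    refine ⟨h1.1 (y m) (by simp), ?_⟩
    have hl : m < (pre y m ++ [y m]).length := by simp [length_pre]
    have h2 := h1.2 m hl
    have e1 : (pre y m ++ [y m])[m] = y m := by
      rw [List.getElem_append_right (by rw [length_pre])]
      simp [length_pre]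
    have e2 : (pre y m ++ [y m]).take m = pre y m := by
      rw [List.take_append_of_le_length (by rw [length_pre])]
      rw [List.take_of_length_le (by rw [length_pre])]
    rw [e1, e2] at h2
    exact h2
  · intro h k
    constructor
    · intro n hn
      simp only [pre, List.mem_map] at hn
      obtain ⟨i, -, rfl⟩ := hn
      exact (h i).1
    · intro m hm
      have hm' : m < k := by rw [length_pre] at hm; exact hm
      have e1 : (pre y k)[m] = y m := by simp [pre]
      have e2 : (pre y k).take m = pre y m := by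
        rw [pre_take, min_eq_left hm'.le]
      rw [e1, e2]
      exact (h m).2

theorem c_unpair1 {α : Type} [Primcodable α] {f : α → ℕ} (hf : Computable f) :
    Computable (fun a => (f a).unpair.1) :=
  ((Primrec.fst.comp Primrec.unpair).to_comp (α := ℕ)).comp hf

theorem c_unpair2 {α : Type} [Primcodable α] {f : α → ℕ} (hf : Computable f) :
    Computable (fun a => (f a).unpair.2) :=
  ((Primrec.snd.comp Primrec.unpair).to_comp (α := ℕ)).comp hf

theorem recF_dec {α β : Type} [Primcodable α] [Primcodable β] {φ : α → (ℕ → ℕ) → β}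
    (hφ : RecF φ) {p : β → Prop} [DecidablePred p] (hp : ComputablePred p) :
    RecF (fun a F => decide (p (φ a F))) := by
  obtain ⟨_, h⟩ := hp
  refine (hφ.comp h).congr ?_
  intro a F
  congr

end PI2

open PI2 in
/-- Module PI2, second statement. -/
theorem gclass (h1 : Red1Statement) (hpi : Pi2Statement) : GClassStatement := by
  rintro G ⟨g, hg, hlim⟩
  have cle : ComputablePred (fun p : ℕ × ℕ => p.1 ≤ p.2) :=
    PrimrecPred.computablePred (PrimrecRel.comp Primrec.nat_le Primrec.fst Primrec.snd)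
  have clt : ComputablePred (fun p : ℕ × ℕ => p.1 < p.2) :=
    PrimrecPred.computablePred (PrimrecRel.comp Primrec.nat_lt Primrec.fst Primrec.snd)
  have ceq : ComputablePred (fun p : ℕ × ℕ => p.1 = p.2) :=
    PrimrecPred.computablePred (PrimrecRel.comp Primrec.eq Primrec.fst Primrec.snd)
  refine ⟨?_, ?_, ?_⟩
  · -- the singleton
    have c1 : Cop (fun (x : ℕ × ℕ) (_ : ℕ → ℕ) => x.1.unpair.2 ≤ x.2) :=
      Cop.of_recF (φ := fun (x : ℕ × ℕ) (_ : ℕ → ℕ) => (x.1.unpair.2, x.2))
        (RecF.of_computable (Computable.pair (c_unpair2 Computable.fst) Computable.snd)) cle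
    have c2 : Cop (fun (x : ℕ × ℕ) (F : ℕ → ℕ) => g x.2 x.1.unpair.1 = F x.1.unpair.1) :=
      Cop.of_recF (φ := fun (x : ℕ × ℕ) (F : ℕ → ℕ) => (g x.2 x.1.unpair.1, F x.1.unpair.1))
        ((RecF.of_computable (hg.comp Computable.snd (c_unpair1 Computable.fst))).pair
          (RecF.at (c_unpair1 Computable.fst))) ceq
    obtain ⟨d, hd, hd'⟩ := c1.and c2
    obtain ⟨S, hS, hS'⟩ := hpi d hd
    refine ⟨S, hS, hS'.trans ?_⟩
    congr 1
    ext F
    simp only [Set.mem_ofPred_eq, Set.mem_singleton_iff]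
    constructor
    · intro h
      funext n
      obtain ⟨s0, hs0⟩ := hlim n
      obtain ⟨s, hs⟩ := h (Nat.pair n s0)
      rw [← hd'] at hs
      simp only [Nat.unpair_pair] at hs
      rw [← hs.2, hs0 s hs.1]
    · rintro rfl n
      obtain ⟨s0, hs0⟩ := hlim n.unpair.1
      refine ⟨max s0 n.unpair.2, ?_⟩
      rw [← hd']
      exact ⟨le_max_right _ _, hs0 _ (le_max_left _ _)⟩
  · -- the class `C_ψ`
    have cpre : RecF (fun (x : ℕ × ℕ) (F : ℕ → ℕ) => pre F x.1.unpair.1) :=
      RecF.pre.comp₁ (c_unpair1 Computable.fst)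
    have cpreE : RecF (fun (x : ℕ × ℕ) (F : ℕ → ℕ) => Encodable.encode (pre F x.1.unpair.1)) :=
      cpre.comp Computable.encode
    have cmod : Computable (fun p : ℕ × ℕ => g p.1 p.2 % 4) :=
      Primrec.nat_mod.to_comp.comp (hg.comp Computable.fst Computable.snd) (Computable.const 4)
    have cval : RecF (fun (x : ℕ × ℕ) (F : ℕ → ℕ) =>
        g x.2 (Encodable.encode (pre F x.1.unpair.1)) % 4) :=
      RecF.comp (g := fun p : ℕ × ℕ => g p.1 p.2 % 4) cmod
        (φ := fun (x : ℕ × ℕ) (F : ℕ → ℕ) => (x.2, Encodable.encode (pre F x.1.unpair.1)))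
        ((RecF.of_computable Computable.snd).pair cpreE)
    have c1 : Cop (fun (x : ℕ × ℕ) (_ : ℕ → ℕ) => x.1.unpair.2 ≤ x.2) :=
      Cop.of_recF (φ := fun (x : ℕ × ℕ) (_ : ℕ → ℕ) => (x.1.unpair.2, x.2))
        (RecF.of_computable (Computable.pair (c_unpair2 Computable.fst) Computable.snd)) cle
    have c2 : Cop (fun (x : ℕ × ℕ) (F : ℕ → ℕ) => F x.1.unpair.1 < 4) :=
      Cop.of_recF (φ := fun (x : ℕ × ℕ) (F : ℕ → ℕ) => (F x.1.unpair.1, 4))
        ((RecF.at (c_unpair1 Computable.fst)).pair
          (RecF.of_computable (Computable.const 4))) clt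
    have c3 : Cop (fun (x : ℕ × ℕ) (F : ℕ → ℕ) => F x.1.unpair.1 =
        g x.2 (Encodable.encode (pre F x.1.unpair.1)) % 4) :=
      Cop.of_recF (φ := fun (x : ℕ × ℕ) (F : ℕ → ℕ) => (F x.1.unpair.1,
        g x.2 (Encodable.encode (pre F x.1.unpair.1)) % 4))
        ((RecF.at (c_unpair1 Computable.fst)).pair cval) ceq
    obtain ⟨d, hd, hd'⟩ := c1.and (c2.and c3.not)
    obtain ⟨S, hS, hS'⟩ := hpi d hd
    refine ⟨S, hS, hS'.trans ?_⟩
    congr 1
    ext y
    rw [mem_CPsi]
    simp only [Set.mem_ofPred_eq]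
    constructor
    · intro h m
      obtain ⟨s0, hs0⟩ := hlim (Encodable.encode (pre y m))
      obtain ⟨s, hs⟩ := h (Nat.pair m s0)
      rw [← hd'] at hs
      simp only [Nat.unpair_pair] at hs
      refine ⟨hs.2.1, ?_⟩
      rw [← hs0 s hs.1]
      exact hs.2.2
    · intro h n
      obtain ⟨s0, hs0⟩ := hlim (Encodable.encode (pre y n.unpair.1))
      refine ⟨max s0 n.unpair.2, ?_⟩
      rw [← hd']
      refine ⟨le_max_right _ _, (h _).1, ?_⟩
      rw [hs0 _ (le_max_left _ _)]
      exact (h _).2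
  · -- a member computed by `G`
    have cb : Computable (fun n : ℕ => if n % 4 = 0 then 1 else 0) := by
      have : Primrec (fun n : ℕ => if n % 4 = 0 then 1 else 0) :=
        Primrec.ite (PrimrecRel.comp Primrec.eq (Primrec.nat_mod.comp Primrec.id
          (Primrec.const 4)) (Primrec.const 0)) (Primrec.const 1) (Primrec.const 0)
      exact this.to_comp
    have hstep : RecF (fun (x : Unit × ℕ × List ℕ) (F : ℕ → ℕ) =>
        x.2.2 ++ [if F (Encodable.encode x.2.2) % 4 = 0 then 1 else 0]) := by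
      have e1 : RecF (fun (x : Unit × ℕ × List ℕ) (F : ℕ → ℕ) =>
          if F (Encodable.encode x.2.2) % 4 = 0 then 1 else 0) :=
        RecF.comp cb (RecF.at (Computable.encode.comp (Computable.snd.comp Computable.snd)))
      exact ((RecF.of_computable (Computable.snd.comp Computable.snd)).pair e1).comp
        (g := fun x : List ℕ × ℕ => x.1 ++ [x.2])
        (Computable.list_concat.comp Computable.fst Computable.snd)
    have hrec := RecF.natRec (RecF.of_computable (Computable.const ([] : List ℕ)) : RecF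
      (fun (_ : Unit) (_ : ℕ → ℕ) => ([] : List ℕ))) hstep
    let φ : ℕ → (ℕ → ℕ) → List ℕ := fun n F => Nat.rec (motive := fun _ => List ℕ) []
      (fun _ r => r ++ [if F (Encodable.encode r) % 4 = 0 then 1 else 0]) n
    have hφ0 : ∀ F, φ 0 F = [] := fun _ => rfl
    have hφs : ∀ n F, φ (n + 1) F =
        φ n F ++ [if F (Encodable.encode (φ n F)) % 4 = 0 then 1 else 0] := fun _ _ => rfl
    have hout : RecF (fun (n : ℕ) (F : ℕ → ℕ) => (φ (n + 1) F).getD n 0) := by
      have e1 : RecF (fun (n : ℕ) (F : ℕ → ℕ) => φ (n + 1) F) :=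
        hrec.comp₁ (f := fun n : ℕ => ((), n + 1))
          (Computable.pair (Computable.const ()) Computable.succ)
      have e2 : Computable (fun x : List ℕ × ℕ => x.1.getD x.2 0) :=
        (Primrec.list_getD 0).to_comp.comp Computable.fst Computable.snd
      exact (e1.pair (RecF.of_computable Computable.id)).comp (g := fun x : List ℕ × ℕ =>
        x.1.getD x.2 0) e2
    let y : ℕ → ℕ := fun n => (φ (n + 1) G).getD n 0
    have hlen : ∀ n, (φ n G).length = n := by
      intro n
      induction n with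
      | zero => rfl
      | succ n ih => rw [hφs]; simp [ih]
    have hy : ∀ n, y n = if G (Encodable.encode (φ n G)) % 4 = 0 then 1 else 0 := by
      intro n
      show (φ (n + 1) G).getD n 0 = _
      rw [hφs, List.getD_append_right _ _ _ _ (by rw [hlen]), hlen]
      simp
    have hpre : ∀ n, pre y n = φ n G := by
      intro n
      induction n with
      | zero => rfl
      | succ n ih => rw [pre_succ, hφs, ih, hy]
    refine ⟨y, ?_, h1 _ hout G⟩
    rw [mem_CPsi]
    intro m
    rw [hpre, hy]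
    split_ifs with h
    · rw [h]; decide
    · exact ⟨by decide, fun e => h e.symm⟩

end Pool.Agent.Lib.MP_d48993_lc
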