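import Pool.Agent.Lib.MP_d48993_lc.Interfaces
import Pool.Agent.Lib.MP_f7c71a_lc.Oracle

/-!
# Project CUT, module RED: recursive functionals and searches are Turing reductions
-/

set_option autoImplicit false

namespace Pool.Agent.Lib.MP_d48993_lc

open MP_8c048d_lc (pre join RecF Sig Clo Cop)
open Pool.Agent.Lib.MP_f7c71a_lc (nrec_comp nrec_pair nrec_prim seg_rec)
open Encodable

theorem red_iff (f g : ℕ → ℕ) :
    Red f g ↔ Nat.RecursiveIn {fun n => Part.some (g n)} (fun n => Part.some (f n)) :=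
  RecursiveIn.iff_nat

theorem nrec_cmp {O : Set (ℕ →. ℕ)} {f : ℕ → ℕ} (hf : Computable f) :
    Nat.RecursiveIn O (fun n => Part.some (f n)) :=
  Nat.Partrec.recursiveIn (Partrec.nat_iff.1 hf)

/-- Minimization of a total function. -/
theorem red_rfind {F : ℕ → ℕ} {g : ℕ → ℕ} (hg : Red g F) (h : ∀ n, ∃ m, g (Nat.pair n m) = 0) :
    ∃ f : ℕ → ℕ, Red f F ∧ (∀ n, g (Nat.pair n (f n)) = 0) ∧
      ∀ n m, m < f n → g (Nat.pair n m) ≠ 0 := by
  classical
  refine ⟨fun n => Nat.find (h n), ?_, fun n => Nat.find_spec (h n), fun n m hm =>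
    Nat.find_min (h n) hm⟩
  rw [red_iff] at hg ⊢
  refine (Nat.RecursiveIn.rfind hg).of_eq fun n => ?_
  apply Part.eq_some_iff.2
  refine Nat.mem_rfind.2 ?_
  constructor
  · simpa using Nat.find_spec (h n)
  · intro m hm
    have := Nat.find_min (h n) hm
    simpa using this

theorem red_core {q : ℕ × List ℕ → Option ℕ} (hq : Computable q) {F f : ℕ → ℕ}
    (h1 : ∀ n k b, q (n, pre F k) = some b → b = f n)
    (h2 : ∀ n, ∃ k b, q (n, pre F k) = some b) : Red f F := by
  -- the value at a pair `⟨n, code⟩`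
  let Q : ℕ → Option ℕ := fun p => q (p.unpair.1, (decode (α := List ℕ) p.unpair.2).getD [])
  have hQ : Computable Q := by
    refine hq.comp (Computable.pair (Primrec.fst.comp Primrec.unpair).to_comp ?_)
    exact (Primrec.option_getD.comp (Primrec.decode.comp (Primrec.snd.comp Primrec.unpair))
      (Primrec.const [])).to_comp
  let T : ℕ → ℕ := fun p => ((Q p).map fun _ => 0).getD 1
  have hT : Computable T := Primrec.option_getD.to_comp.comp
    (Computable.option_map hQ (Computable.const 0).to₂) (Computable.const 1)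
  let V : ℕ → ℕ := fun p => (Q p).getD 0
  have hV : Computable V := Primrec.option_getD.to_comp.comp hQ (Computable.const 0)
  have hs : Nat.RecursiveIn {fun n => Part.some (F n)}
      (fun p => Part.some (Nat.pair p.unpair.1 (encode (pre F p.unpair.2)))) := by
    refine nrec_pair (nrec_prim (Primrec.fst.comp Primrec.unpair)) ?_
    exact nrec_comp (g := fun p => p.unpair.2) (seg_rec F)
      (nrec_prim (Primrec.snd.comp Primrec.unpair))
  have hg : Red (fun p => T (Nat.pair p.unpair.1 (encode (pre F p.unpair.2)))) F := by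
    rw [red_iff]
    exact nrec_comp (f := fun n => Part.some (T n))
      (g := fun p => Nat.pair p.unpair.1 (encode (pre F p.unpair.2))) (nrec_cmp hT) hs
  obtain ⟨k, hk, hk1, -⟩ := red_rfind hg (by
    intro n
    obtain ⟨k, b, hb⟩ := h2 n
    refine ⟨k, ?_⟩
    simp only [Nat.unpair_pair, T, Q, encodek, Option.getD_some]
    rw [hb]
    rfl)
  have hk2 : ∀ n, Q (Nat.pair n (encode (pre F (k n)))) = some (f n) := by
    intro n
    have := hk1 n
    simp only [Nat.unpair_pair, T] at this
    cases hx : Q (Nat.pair n (encode (pre F (k n)))) with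
    | none => rw [hx] at this; simp at this
    | some b =>
      have hx' := hx
      simp only [Q, Nat.unpair_pair, encodek, Option.getD_some] at hx'
      rw [h1 n _ b hx']
  rw [red_iff] at hk ⊢
  have h5 : Nat.RecursiveIn {fun n => Part.some (F n)}
      (fun n => Part.some (V (Nat.pair n (encode (pre F (k n)))))) := by
    refine nrec_comp (f := fun n => Part.some (V n))
      (g := fun n => Nat.pair n (encode (pre F (k n)))) (nrec_cmp hV) ?_
    exact nrec_pair (nrec_prim Primrec.id) (nrec_comp (g := k) (seg_rec F) hk)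
  refine h5.of_eq fun n => ?_
  simp only [V, hk2 n, Option.getD_some]

theorem red1 : Red1Statement := by
  intro φ hφ F
  obtain ⟨q, hq, h1, h2⟩ := hφ
  exact red_core hq (fun n k b hb => (h1 n F k b hb).symm)
    (fun n => by
      obtain ⟨k, hk⟩ := h2 n F
      exact ⟨k, _, hk⟩)

theorem redMu_min : ∀ P : ℕ → ℕ → (ℕ → ℕ) → Prop, Cop (fun (p : ℕ × ℕ) F => P p.1 p.2 F) →
    ∀ F : ℕ → ℕ, (∀ n, ∃ m, P n m F) →
    ∃ f : ℕ → ℕ, Red f F ∧ (∀ n, P n (f n) F) ∧ ∀ n m, m < f n → ¬ P n m F := by
  intro P hP F h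
  obtain ⟨d, hd, hd2⟩ := hP
  have h1 : RecF (fun (p : ℕ) F => bif d (p.unpair.1, p.unpair.2) F then 0 else 1) := by
    refine RecF.comp (g := fun b : Bool => bif b then 0 else 1)
      (Primrec.dom_finite _).to_comp (φ := fun (p : ℕ) F => d (p.unpair.1, p.unpair.2) F) ?_
    exact hd.comp₁ (f := fun p : ℕ => (p.unpair.1, p.unpair.2)) Primrec.unpair.to_comp
  obtain ⟨f, hf, hf1, hf2⟩ := red_rfind (red1 _ h1 F) (by
    intro n
    obtain ⟨m, hm⟩ := h n
    refine ⟨m, ?_⟩
    have := (hd2 (n, m) F).1 hm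
    simp [this])
  refine ⟨f, hf, fun n => ?_, fun n m hm hP => ?_⟩
  · refine (hd2 (n, f n) F).2 ?_
    have := hf1 n
    simp only [Nat.unpair_pair] at this
    cases hx : d (n, f n) F with
    | false => rw [hx] at this; simp at this
    | true => rfl
  · apply hf2 n m hm
    have := (hd2 (n, m) F).1 hP
    simp [this]

theorem redMu : RedMuStatement := by
  intro P hP F h
  obtain ⟨f, h1, h2, -⟩ := redMu_min P hP F h
  exact ⟨f, h1, h2⟩

theorem red_left (F G : ℕ → ℕ) : Red F (join F G) := by
  have h : RecF (fun (n : ℕ) (H : ℕ → ℕ) => H (2 * n)) :=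
    RecF.at (f := fun n : ℕ => 2 * n) (Primrec.nat_mul.comp (Primrec.const 2) Primrec.id).to_comp
  have := red1 _ h (join F G)
  simp only [MP_8c048d_lc.join_even] at this
  exact this

theorem red_right (F G : ℕ → ℕ) : Red G (join F G) := by
  have h : RecF (fun (n : ℕ) (H : ℕ → ℕ) => H (2 * n + 1)) :=
    RecF.at (f := fun n : ℕ => 2 * n + 1)
      (Primrec.succ.comp (Primrec.nat_mul.comp (Primrec.const 2) Primrec.id)).to_comp
  have := red1 _ h (join F G)
  simp only [MP_8c048d_lc.join_odd] at this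
  exact this

theorem red_join {F G H : ℕ → ℕ} (h1 : Red F H) (h2 : Red G H) : Red (join F G) H := by
  rw [red_iff] at h1 h2 ⊢
  have c2 : Primrec (fun n : ℕ => n / 2) := Primrec.nat_div.comp Primrec.id (Primrec.const 2)
  have e1 := nrec_comp (g := fun n => n / 2) h1 (nrec_prim c2)
  have e2 := nrec_comp (g := fun n => n / 2) h2 (nrec_prim c2)
  have e3 := nrec_pair (nrec_prim Primrec.id) (nrec_pair e1 e2)
  let S : ℕ → ℕ := fun p => if p.unpair.1 % 2 = 0 then p.unpair.2.unpair.1 else p.unpair.2.unpair.2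
  have hS : Primrec S := by
    refine Primrec.ite ?_ ?_ ?_
    · exact Primrec.eq.comp (Primrec.nat_mod.comp (Primrec.fst.comp Primrec.unpair)
        (Primrec.const 2)) (Primrec.const 0)
    · exact Primrec.fst.comp (Primrec.unpair.comp (Primrec.snd.comp Primrec.unpair))
    · exact Primrec.snd.comp (Primrec.unpair.comp (Primrec.snd.comp Primrec.unpair))
  refine (nrec_comp (f := fun n => Part.some (S n)) (nrec_prim hS) e3).of_eq fun n => ?_
  simp only [S, id, Nat.unpair_pair]
  rfl

theorem joinS : JoinStatement := ⟨red_left, red_right, fun _ _ _ => red_join⟩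

/-- A function computed by a recursive functional from a function below `G`. -/
theorem red1_trans {φ : ℕ → (ℕ → ℕ) → ℕ} (h : RecF φ) {F G : ℕ → ℕ} (hF : Red F G) :
    Red (fun n => φ n F) G := (red1 φ h F).trans hF

/-- Two inputs. -/
theorem red1_join {φ : ℕ → (ℕ → ℕ) → ℕ} (h : RecF φ) {F F' G : ℕ → ℕ} (hF : Red F G)
    (hF' : Red F' G) : Red (fun n => φ n (join F F')) G :=
  (red1 φ h _).trans (red_join hF hF')

end Pool.Agent.Lib.MP_d48993_lc
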