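import Pool.Agent.Lib.MP_d48993_lc.Interfaces

/-!
# CUT: module RES (the restraint functional of the hiding lemma)
-/

set_option autoImplicit false

namespace Pool.Agent.Lib.MP_d48993_lc

open MP_8c048d_lc (pre join RecF Sig Clo Cop)

namespace ResM

theorem cp_comp {α β : Type} [Primcodable α] [Primcodable β] {P : β → Prop}
    (h : ComputablePred P) {f : α → β} (hf : Computable f) : ComputablePred (fun a => P (f a)) := by
  obtain ⟨_, h'⟩ := h
  exact ⟨fun a => inferInstance, h'.comp hf⟩

theorem eqPair : ComputablePred (fun p : ℕ × ℕ => p.1 = p.2) := by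
  have h : PrimrecRel (fun a b : ℕ => a = b) := Primrec.eq
  exact PrimrecPred.computablePred (PrimrecRel.comp h Primrec.fst Primrec.snd)

theorem lePair : ComputablePred (fun p : ℕ × ℕ => p.1 ≤ p.2) :=
  PrimrecPred.computablePred (PrimrecRel.comp Primrec.nat_le Primrec.fst Primrec.snd)

theorem ltPair : ComputablePred (fun p : ℕ × ℕ => p.1 < p.2) :=
  PrimrecPred.computablePred (PrimrecRel.comp Primrec.nat_lt Primrec.fst Primrec.snd)

theorem prefPair : ComputablePred (fun p : List ℕ × List ℕ => p.1 <+: p.2) := by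
  have h : PrimrecPred (fun p : List ℕ × List ℕ => p.1 = p.2.take p.1.length) :=
    PrimrecRel.comp (R := fun a b : List ℕ => a = b) Primrec.eq Primrec.fst
      ((Primrec.list_take (α := ℕ)).comp (Primrec.list_length.comp Primrec.fst) Primrec.snd)
  exact (PrimrecPred.computablePred h).of_eq fun p => List.prefix_iff_eq_take.symm

/-- The string `τ` as a function. -/
def ex (τ : List ℕ) (i : ℕ) : ℕ := (τ[i]?).getD 0

/-- The join of `Y` with the string `τ`. -/
def jn (Y : ℕ → ℕ) (τ : List ℕ) : List ℕ := pre (join Y (ex τ)) (2 * τ.length)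

theorem jn_length (Y : ℕ → ℕ) (τ : List ℕ) : (jn Y τ).length = 2 * τ.length := by
  unfold jn
  rw [MP_8c048d_lc.length_pre]

theorem pre_prefix (F : ℕ → ℕ) {j k : ℕ} (h : j ≤ k) : pre F j <+: pre F k := by
  rw [List.prefix_iff_eq_take, MP_8c048d_lc.length_pre, MP_8c048d_lc.pre_take, min_eq_left h]

theorem jn_pre (Y Z : ℕ → ℕ) (k : ℕ) : jn Y (pre Z k) = pre (join Y Z) (2 * k) := by
  unfold jn
  rw [MP_8c048d_lc.length_pre]
  apply MP_8c048d_lc.pre_congr
  intro i hi
  unfold join
  split_ifs with h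
  · rfl
  · unfold ex
    rw [MP_8c048d_lc.pre_getElem?, if_pos (by omega)]
    rfl

theorem ex_pre (τ : List ℕ) : pre (ex τ) τ.length = τ := by
  refine List.ext_getElem? fun i => ?_
  rw [MP_8c048d_lc.pre_getElem?]
  unfold ex
  by_cases h : i < τ.length
  · rw [if_pos h, List.getElem?_eq_getElem h]
    rfl
  · rw [if_neg h, eq_comm, List.getElem?_eq_none_iff]
    omega

theorem jn_mono (Y : ℕ → ℕ) {τ τ' : List ℕ} (h : τ <+: τ') : jn Y τ <+: jn Y τ' := by
  have h1 : τ = pre (ex τ') τ.length := by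
    have h2 : τ = τ'.take τ.length := List.prefix_iff_eq_take.1 h
    conv_lhs => rw [h2, ← ex_pre τ']
    rw [MP_8c048d_lc.pre_take, min_eq_left h.length_le]
  have e1 : jn Y τ = pre (join Y (ex τ')) (2 * τ.length) := by
    conv_lhs => rw [h1]
    exact jn_pre Y _ _
  have e2 : jn Y τ' = pre (join Y (ex τ')) (2 * τ'.length) := rfl
  rw [e1, e2]
  exact pre_prefix _ (Nat.mul_le_mul_left 2 h.length_le)

theorem jn_recF : RecF (fun (τ : List ℕ) Y => jn Y τ) := by
  have h1 : RecF (fun (p : List ℕ × ℕ) (F : ℕ → ℕ) => F p.2) := RecF.at Computable.snd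
  have h2 : RecF (fun (p : List ℕ × ℕ) (_ : ℕ → ℕ) => ex p.1 p.2) := by
    refine RecF.of_computable ?_
    exact Computable.option_getD (Computable.list_getElem?.comp Computable.fst Computable.snd)
      (Computable.const 0)
  have h3 := RecF.joinF (Ψ := fun (_ : List ℕ) F => F) (Φ := fun (τ : List ℕ) _ => ex τ) h1 h2
  have h4 := RecF.pre' (Ψ := fun (τ : List ℕ) F => join F (ex τ)) h3
  exact h4.comp₁ (f := fun τ : List ℕ => (τ, 2 * τ.length))
    (Computable.pair Computable.id ((Primrec.nat_mul.comp (Primrec.const 2)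
      Primrec.list_length).to_comp))

theorem phi_recF {Φ : ℕ → List ℕ → List ℕ} (h : Computable₂ Φ) :
    RecF (fun (p : ℕ × List ℕ) Y => Φ p.1 (jn Y p.2)) := by
  have h1 : RecF (fun (p : ℕ × List ℕ) (_ : ℕ → ℕ) => p.1) := RecF.of_computable Computable.fst
  have h2 : RecF (fun (p : ℕ × List ℕ) Y => jn Y p.2) := jn_recF.comp₁ Computable.snd
  exact (h1.pair h2).comp (g := fun x : ℕ × List ℕ => Φ x.1 x.2) h

/-- The candidate `j` passes the test `t`. -/
def V (Φ : ℕ → List ℕ → List ℕ) (T : List ℕ → Prop) (p : ℕ × List ℕ) (j t : ℕ) (Y : ℕ → ℕ) :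
    Prop :=
  p.2 <+: (Denumerable.ofNat (List ℕ × ℕ) j).1 ∧
    (((Denumerable.ofNat (List ℕ × ℕ) j).2 = 0 ∧
        ¬ T (Φ p.1 (jn Y (Denumerable.ofNat (List ℕ × ℕ) j).1))) ∨
      ((Denumerable.ofNat (List ℕ × ℕ) j).2 ≠ 0 ∧
        ((Denumerable.ofNat (List ℕ × ℕ) j).1 <+: Denumerable.ofNat (List ℕ) t →
          (Φ p.1 (jn Y (Denumerable.ofNat (List ℕ) t))).length <
            (Denumerable.ofNat (List ℕ × ℕ) j).2)))

theorem V_cop {Φ : ℕ → List ℕ → List ℕ} (h : Computable₂ Φ) {T : List ℕ → Prop}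
    (hT : ComputablePred T) :
    Cop (fun (p : ((ℕ × List ℕ) × ℕ) × ℕ) Y => V Φ T p.1.1 p.1.2 p.2 Y) := by
  have cj : Computable (fun p : ((ℕ × List ℕ) × ℕ) × ℕ =>
      Denumerable.ofNat (List ℕ × ℕ) p.1.2) :=
    (Primrec.ofNat (List ℕ × ℕ)).to_comp.comp (Computable.snd.comp Computable.fst)
  have ct : Computable (fun p : ((ℕ × List ℕ) × ℕ) × ℕ =>
      Denumerable.ofNat (List ℕ) p.2) :=
    (Primrec.ofNat (List ℕ)).to_comp.comp Computable.snd
  have c1 : Computable (fun p : ((ℕ × List ℕ) × ℕ) × ℕ => p.1.1.1) :=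
    Computable.fst.comp (Computable.fst.comp Computable.fst)
  have c2 : Computable (fun p : ((ℕ × List ℕ) × ℕ) × ℕ => p.1.1.2) :=
    Computable.snd.comp (Computable.fst.comp Computable.fst)
  have cj1 : Computable (fun p : ((ℕ × List ℕ) × ℕ) × ℕ =>
      (Denumerable.ofNat (List ℕ × ℕ) p.1.2).1) := Computable.fst.comp cj
  have cj2 : Computable (fun p : ((ℕ × List ℕ) × ℕ) × ℕ =>
      (Denumerable.ofNat (List ℕ × ℕ) p.1.2).2) := Computable.snd.comp cj
  have z0 : Cop (fun (p : ((ℕ × List ℕ) × ℕ) × ℕ) (_ : ℕ → ℕ) =>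
      (Denumerable.ofNat (List ℕ × ℕ) p.1.2).2 = 0) :=
    Cop.of_computable (cp_comp eqPair (Computable.pair cj2 (Computable.const 0)))
  have f1 : RecF (fun (p : ((ℕ × List ℕ) × ℕ) × ℕ) Y =>
      Φ p.1.1.1 (jn Y (Denumerable.ofNat (List ℕ × ℕ) p.1.2).1)) :=
    (phi_recF h).comp₁ (Computable.pair c1 cj1)
  have f2 : RecF (fun (p : ((ℕ × List ℕ) × ℕ) × ℕ) Y =>
      Φ p.1.1.1 (jn Y (Denumerable.ofNat (List ℕ) p.2))) :=
    (phi_recF h).comp₁ (Computable.pair c1 ct)
  refine Cop.and (Cop.of_computable (cp_comp prefPair (Computable.pair c2 cj1)))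
    (Cop.or (z0.and (Cop.of_recF f1 hT).not) (z0.not.and (Cop.imp ?_ ?_)))
  · exact Cop.of_computable (cp_comp prefPair (Computable.pair cj1 ct))
  · exact Cop.of_recF ((f2.comp Computable.list_length).pair (RecF.of_computable cj2)) ltPair

/-- The first `j < n` with `b j`. -/
def firstB (b : ℕ → Bool) (n : ℕ) : Option ℕ :=
  Nat.rec (motive := fun _ => Option ℕ) none
    (fun k r => bif r.isSome then r else bif b k then some k else none) n

theorem firstB_none {b : ℕ → Bool} {n : ℕ} (h : ∀ j < n, b j = false) : firstB b n = none := by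
  induction n with
  | zero => rfl
  | succ n ih =>
    have h1 : firstB b (n + 1) =
      (bif (firstB b n).isSome then firstB b n else bif b n then some n else none) := rfl
    rw [h1, ih (fun j hj => h j (by omega)), h n (by omega)]
    rfl

theorem firstB_some {b : ℕ → Bool} {n j : ℕ} (hj : j < n) (hb : b j = true)
    (h : ∀ i < j, b i = false) : firstB b n = some j := by
  induction n with
  | zero => omega
  | succ n ih =>
    have h1 : firstB b (n + 1) =
      (bif (firstB b n).isSome then firstB b n else bif b n then some n else none) := rfl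
    rw [h1]
    by_cases hjn : j < n
    · rw [ih hjn]; rfl
    · have : j = n := by omega
      subst this
      rw [firstB_none h, hb]
      rfl

theorem firstB_sound {b : ℕ → Bool} {n j : ℕ} (h : firstB b n = some j) : b j = true := by
  induction n with
  | zero => exact absurd h (by simp [firstB])
  | succ n ih =>
    have h1 : firstB b (n + 1) =
      (bif (firstB b n).isSome then firstB b n else bif b n then some n else none) := rfl
    rw [h1] at h
    cases hf : firstB b n with
    | some i =>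
      rw [hf] at h
      exact ih (by rw [hf]; exact h)
    | none =>
      rw [hf] at h
      cases hb : b n with
      | true =>
        rw [hb] at h
        have : n = j := by simpa using h
        rw [← this]; exact hb
      | false =>
        rw [hb] at h
        simp at h

theorem firstB_recF {α : Type} [Primcodable α] {d : α × ℕ → (ℕ → ℕ) → Bool} (hd : RecF d) :
    RecF (fun (p : α × ℕ) F => firstB (fun j => d (p.1, j) F) p.2) := by
  have e1 : RecF (fun (x : α × ℕ × Option ℕ) (_ : ℕ → ℕ) => x.2.2.isSome) :=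
    RecF.of_computable ((Primrec.option_isSome.to_comp).comp (Computable.snd.comp Computable.snd))
  have e2 : RecF (fun (x : α × ℕ × Option ℕ) (_ : ℕ → ℕ) => x.2.2) :=
    RecF.of_computable (Computable.snd.comp Computable.snd)
  have e3 : RecF (fun (x : α × ℕ × Option ℕ) F => d (x.1, x.2.1) F) :=
    hd.comp₁ (f := fun x : α × ℕ × Option ℕ => (x.1, x.2.1))
      (Computable.pair Computable.fst (Computable.fst.comp Computable.snd))
  have e4 : RecF (fun (x : α × ℕ × Option ℕ) (_ : ℕ → ℕ) => some x.2.1) :=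
    RecF.of_computable (Computable.option_some.comp (Computable.fst.comp Computable.snd))
  have e5 : RecF (fun (_ : α × ℕ × Option ℕ) (_ : ℕ → ℕ) => (none : Option ℕ)) :=
    RecF.of_computable (Computable.const none)
  have e6 := RecF.cond e1 e2 (RecF.cond e3 e4 e5)
  exact RecF.natRec (g := fun (_ : α) (_ : ℕ → ℕ) => (none : Option ℕ))
    (RecF.of_computable (Computable.const none)) e6

end ResM

open ResM in
theorem res (hS : SearchStatement) (hC : ClsStatement) : ResStatement := by
  intro Φ U hΦ hU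
  by_cases hne : U.Nonempty
  swap
  · -- no members: nothing to do
    refine ⟨fun p _ => p.2.2, RecF.of_computable (Computable.snd.comp Computable.snd),
      fun t n σ Y => List.prefix_rfl, fun Y _ => ⟨fun _ σ => σ, fun n σ => ⟨0, fun _ _ => rfl⟩,
      fun n σ Z _ f hf => absurd ⟨f, hf⟩ hne⟩⟩
  obtain ⟨-, T, ⟨hT, hTpc⟩, hUT⟩ := (hC.1 U).2 ⟨hne, hU⟩
  have hUT' : ∀ f, f ∈ U ↔ ∀ k, T (pre f k) := by
    intro f
    rw [hUT]
    rfl
  -- the tests up to `t`
  have hG : Cop (fun (p : ((ℕ × List ℕ) × ℕ) × ℕ) Y => ∀ i < p.1.2 + 1,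
      V Φ T p.1.1 p.2 i Y) := by
    refine Cop.ball (P := fun (p : ((ℕ × List ℕ) × ℕ) × ℕ) i Y => V Φ T p.1.1 p.2 i Y) ?_
      (f := fun p : ((ℕ × List ℕ) × ℕ) × ℕ => p.1.2 + 1) ?_
    · exact (V_cop hΦ.comp hT).comp
        (f := fun p : (((ℕ × List ℕ) × ℕ) × ℕ) × ℕ => ((p.1.1.1, p.1.2), p.2))
        (Computable.pair (Computable.pair
          (Computable.fst.comp (Computable.fst.comp Computable.fst))
          (Computable.snd.comp Computable.fst)) Computable.snd)
    · exact Computable.succ.comp (Computable.snd.comp Computable.fst)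
  obtain ⟨d, hd, hdG⟩ := hG
  have hfirst := firstB_recF hd
  -- the functional
  let rs : ℕ × ℕ × List ℕ → (ℕ → ℕ) → List ℕ := fun p Y =>
    ((firstB (fun j => d (((p.2.1, p.2.2), p.1), j) Y) (p.1 + 1)).map
      (fun j => (Denumerable.ofNat (List ℕ × ℕ) j).1)).getD p.2.2
  have hrs : RecF rs := by
    have a1 : RecF (fun (p : ℕ × ℕ × List ℕ) Y =>
        firstB (fun j => d (((p.2.1, p.2.2), p.1), j) Y) (p.1 + 1)) :=
      hfirst.comp₁ (f := fun p : ℕ × ℕ × List ℕ => (((p.2.1, p.2.2), p.1), p.1 + 1))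
        (Computable.pair (Computable.pair (Computable.pair
          (Computable.fst.comp Computable.snd) (Computable.snd.comp Computable.snd))
          Computable.fst) (Computable.succ.comp Computable.fst))
    have a2 : RecF (fun (p : ℕ × ℕ × List ℕ) (_ : ℕ → ℕ) => p.2.2) :=
      RecF.of_computable (Computable.snd.comp Computable.snd)
    refine (a1.pair a2).comp (g := fun x : Option ℕ × List ℕ =>
      (x.1.map (fun j => (Denumerable.ofNat (List ℕ × ℕ) j).1)).getD x.2) ?_
    exact Computable.option_getD (Computable.option_map Computable.fst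
      (Computable.fst.comp ((Primrec.ofNat (List ℕ × ℕ)).to_comp.comp Computable.snd)))
      Computable.snd
  refine ⟨rs, hrs, ?_, ?_⟩
  · intro t n σ Y
    show σ <+: ((firstB (fun j => d (((n, σ), t), j) Y) (t + 1)).map
      (fun j => (Denumerable.ofNat (List ℕ × ℕ) j).1)).getD σ
    cases hf : firstB (fun j => d (((n, σ), t), j) Y) (t + 1) with
    | none => exact List.prefix_rfl
    | some j =>
      have h1 := (hdG (((n, σ), t), j) Y).2 (firstB_sound hf) 0 (Nat.succ_pos _)
      exact h1.1
  intro Y hY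
  -- a valid candidate exists
  have hex : ∀ (n : ℕ) (σ : List ℕ), ∃ j, ∀ t, V Φ T (n, σ) j t Y := by
    intro n σ
    by_contra hno
    push_neg at hno
    have k0 : ∀ τ, σ <+: τ → T (Φ n (jn Y τ)) := by
      intro τ hτ
      by_contra hT'
      obtain ⟨t, ht⟩ := hno (Encodable.encode (τ, 0))
      apply ht
      unfold V
      rw [Denumerable.ofNat_encode]
      exact ⟨hτ, Or.inl ⟨rfl, hT'⟩⟩
    have k1 : ∀ τ, σ <+: τ → ∀ m, ∃ ρ, τ <+: ρ ∧ m + 1 ≤ (Φ n (jn Y ρ)).length := by
      intro τ hτ m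
      by_contra hm
      push_neg at hm
      obtain ⟨t, ht⟩ := hno (Encodable.encode (τ, m + 1))
      apply ht
      unfold V
      rw [Denumerable.ofNat_encode]
      exact ⟨hτ, Or.inr ⟨Nat.succ_ne_zero _, fun h => hm _ h⟩⟩
    have hR : Cop (fun (p : (ℕ × List ℕ) × (ℕ × List ℕ)) F =>
        p.2.1 = p.1.1 + 1 ∧ p.1.2 <+: p.2.2 ∧ p.1.1 + 1 ≤ (Φ n (jn F p.2.2)).length) := by
      refine Cop.and (Cop.of_computable (cp_comp eqPair (Computable.pair
          (Computable.fst.comp Computable.snd)
          (Computable.succ.comp (Computable.fst.comp Computable.fst)))))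
        (Cop.and (Cop.of_computable (cp_comp prefPair (Computable.pair
          (Computable.snd.comp Computable.fst) (Computable.snd.comp Computable.snd)))) ?_)
      have b1 : RecF (fun (p : (ℕ × List ℕ) × (ℕ × List ℕ)) F => Φ n (jn F p.2.2)) :=
        (phi_recF hΦ.comp).comp₁ (f := fun p : (ℕ × List ℕ) × (ℕ × List ℕ) => (n, p.2.2))
          (Computable.pair (Computable.const n) (Computable.snd.comp Computable.snd))
      exact Cop.of_recF ((RecF.of_computable (Computable.succ.comp
        (Computable.fst.comp Computable.fst))).pair (b1.comp Computable.list_length)) lePair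
    obtain ⟨A, hA0, hA1, hA2⟩ := hS (ℕ × List ℕ)
      (fun a a' F => a'.1 = a.1 + 1 ∧ a.2 <+: a'.2 ∧ a.1 + 1 ≤ (Φ n (jn F a'.2)).length) hR Y
      (fun a => σ <+: a.2) (0, σ) List.prefix_rfl
      (by
        rintro ⟨j, τ⟩ hτ
        obtain ⟨ρ, h1, h2⟩ := k1 τ hτ j
        exact ⟨(j + 1, ρ), rfl, h1, h2⟩)
      (by
        rintro ⟨j, τ⟩ ⟨j', τ'⟩ h1 ⟨-, h2, -⟩
        exact h1.trans h2)
    have hfst : ∀ j, (A j).1 = j := by
      intro j
      induction j with
      | zero => rw [hA0]
      | succ j ih => rw [(hA1 j).1, ih]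
    have hinv : ∀ j, σ <+: (A j).2 := by
      intro j
      induction j with
      | zero => rw [hA0]
      | succ j ih => exact ih.trans (hA1 j).2.1
    have hchain : ∀ i j, i ≤ j → (A i).2 <+: (A j).2 := by
      intro i j hij
      induction j, hij using Nat.le_induction with
      | base => exact List.prefix_rfl
      | succ j _ ih => exact ih.trans (hA1 j).2.1
    have hlen : ∀ j, j + 1 ≤ (Φ n (jn Y (A (j + 1)).2)).length := by
      intro j
      have h := (hA1 j).2.2
      rw [hfst j] at h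
      exact h
    have hout : RecF (fun (q : ℕ × (ℕ × List ℕ)) F => ((Φ n (jn F q.2.2))[q.1]?).getD 0) := by
      have b1 : RecF (fun (q : ℕ × (ℕ × List ℕ)) F => Φ n (jn F q.2.2)) :=
        (phi_recF hΦ.comp).comp₁ (f := fun q : ℕ × (ℕ × List ℕ) => (n, q.2.2))
          (Computable.pair (Computable.const n) (Computable.snd.comp Computable.snd))
      have b2 : RecF (fun (q : ℕ × (ℕ × List ℕ)) (_ : ℕ → ℕ) => q.1) :=
        RecF.of_computable Computable.fst
      exact (b1.pair b2).comp (g := fun x : List ℕ × ℕ => (x.1[x.2]?).getD 0)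
        (Computable.option_getD (Computable.list_getElem?.comp Computable.fst Computable.snd)
          (Computable.const 0))
    apply hY
    refine ⟨fun j => ((Φ n (jn Y (A (j + 1)).2))[j]?).getD 0, ?_, hA2 _ hout⟩
    rw [hUT']
    intro k
    have hpre : pre (fun j => ((Φ n (jn Y (A (j + 1)).2))[j]?).getD 0) k <+:
        Φ n (jn Y (A k).2) := by
      rw [List.prefix_iff_eq_take, MP_8c048d_lc.length_pre]
      refine List.ext_getElem? fun i => ?_
      rw [MP_8c048d_lc.pre_getElem?, List.getElem?_take]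
      by_cases hi : i < k
      · rw [if_pos hi, if_pos hi]
        have h1 : Φ n (jn Y (A (i + 1)).2) <+: Φ n (jn Y (A k).2) :=
          hΦ.mono n _ _ (jn_mono Y (hchain (i + 1) k hi))
        have h2 : i < (Φ n (jn Y (A (i + 1)).2)).length := hlen i
        obtain ⟨t, ht⟩ := h1
        rw [← ht, List.getElem?_append_left h2, List.getElem?_eq_getElem h2]
        rfl
      · rw [if_neg hi, if_neg hi]
    exact hTpc _ _ hpre (k0 _ (hinv k))
  -- the least valid candidate
  classical
  let jm : ℕ → List ℕ → ℕ := fun n σ => Nat.find (hex n σ)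
  have hjm : ∀ n σ t, V Φ T (n, σ) (jm n σ) t Y := fun n σ => Nat.find_spec (hex n σ)
  have hjm' : ∀ n σ, ∀ j < jm n σ, ∃ t, ¬ V Φ T (n, σ) j t Y := by
    intro n σ j hj
    have := Nat.find_min (hex n σ) hj
    push_neg at this
    exact this
  refine ⟨fun n σ => (Denumerable.ofNat (List ℕ × ℕ) (jm n σ)).1, ?_, ?_⟩
  · intro n σ
    have hb : ∃ t₁, ∀ j < jm n σ, ∃ t ≤ t₁, ¬ V Φ T (n, σ) j t Y := by
      have : ∀ N ≤ jm n σ, ∃ t₁, ∀ j < N, ∃ t ≤ t₁, ¬ V Φ T (n, σ) j t Y := by
        intro N
        induction N with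
        | zero => exact fun _ => ⟨0, fun j hj => absurd hj (by omega)⟩
        | succ N ih =>
          intro hN
          obtain ⟨t₁, ht₁⟩ := ih (by omega)
          obtain ⟨t₂, ht₂⟩ := hjm' n σ N (by omega)
          refine ⟨max t₁ t₂, fun j hj => ?_⟩
          by_cases hjN : j < N
          · obtain ⟨t, ht, hV⟩ := ht₁ j hjN
            exact ⟨t, le_trans ht (le_max_left _ _), hV⟩
          · have : j = N := by omega
            subst this
            exact ⟨t₂, le_max_right _ _, ht₂⟩
      exact this _ le_rfl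
    obtain ⟨t₁, ht₁⟩ := hb
    refine ⟨max t₁ (jm n σ), fun t ht => ?_⟩
    show ((firstB (fun j => d (((n, σ), t), j) Y) (t + 1)).map
      (fun j => (Denumerable.ofNat (List ℕ × ℕ) j).1)).getD σ = _
    have h1 : firstB (fun j => d (((n, σ), t), j) Y) (t + 1) = some (jm n σ) := by
      apply firstB_some
      · have := le_trans (le_max_right _ _) ht
        omega
      · exact (hdG (((n, σ), t), jm n σ) Y).1 fun i _ => hjm n σ i
      · intro i hi
        obtain ⟨s, hs, hV⟩ := ht₁ i hi
        cases hdi : d (((n, σ), t), i) Y with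
        | false => rfl
        | true =>
          exact absurd ((hdG (((n, σ), t), i) Y).2 hdi s
            (by have := le_trans (le_max_left _ _) ht; show s < t + 1; omega)) hV
    rw [h1]
    rfl
  · rintro n σ Z ⟨k, hk⟩ f hf ⟨hc1, hc2⟩
    have hfT := (hUT' f).1 hf
    simp only at hk
    have hmono : ∀ a b, a ≤ b → Φ n (pre (join Y Z) a) <+: Φ n (pre (join Y Z) b) :=
      fun a b hab => hΦ.mono n _ _ (pre_prefix _ hab)
    rcases (hjm n σ 0).2 with ⟨-, h2⟩ | ⟨h1, -⟩
    · apply h2
      simp only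
      rw [hk, jn_pre, hc1]
      exact hfT _
    · obtain ⟨K, hK⟩ := hc2 (Denumerable.ofNat (List ℕ × ℕ) (jm n σ)).2
      have h3 := (hjm n σ (Encodable.encode (pre Z (k + K)))).2
      rcases h3 with ⟨h0, -⟩ | ⟨-, h4⟩
      · exact h1 h0
      · rw [Denumerable.ofNat_encode] at h4
        have h5 := h4 (by rw [hk]; exact pre_prefix _ (by omega))
        simp only at h5
        rw [jn_pre] at h5
        have h6 := (hmono K (2 * (k + K)) (by omega)).length_le
        omega

end Pool.Agent.Lib.MP_d48993_lc
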