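import Pool.Agent.Lib.MP_d48993_lc.Interfaces

/-!
# CUT, module SEARCH (helper24)
-/

set_option autoImplicit false

namespace Pool.Agent.Lib.MP_d48993_lc

open MP_8c048d_lc (pre join RecF Sig Clo Cop)

namespace Search

variable {α : Type} [Primcodable α]

/-- one test -/
def test (dR : α × α → (ℕ → ℕ) → Bool) (p : α × ℕ) (F : ℕ → ℕ) : Option α :=
  (Encodable.decode p.2 : Option α).elim none
    fun b => bif dR (p.1, b) F then some b else none

theorem test_rec {dR : α × α → (ℕ → ℕ) → Bool} (h : RecF dR) : RecF (test dR) := by
  have h1 : RecF (fun (p : α × α) F => bif dR (p.1, p.2) F then some p.2 else (none : Option α)) :=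
    RecF.cond (φ := fun (p : α × α) (_ : ℕ → ℕ) => some p.2)
      (ψ := fun (_ : α × α) (_ : ℕ → ℕ) => (none : Option α)) h
      (RecF.of_computable (Computable.option_some.comp Computable.snd))
      (RecF.of_computable (Computable.const none))
  exact RecF.decode h1 none

/-- bounded search: the first `b < t` that passes the test -/
def inner (dR : α × α → (ℕ → ℕ) → Bool) (p : α × ℕ) (F : ℕ → ℕ) : Option α :=
  Nat.rec (motive := fun _ => Option α) none
    (fun k r => bif r.isSome then r else test dR (p.1, k) F) p.2

theorem inner_rec {dR : α × α → (ℕ → ℕ) → Bool} (h : RecF dR) : RecF (inner dR) := by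
  have h1 : RecF (fun (x : α × ℕ × Option α) F =>
      bif x.2.2.isSome then x.2.2 else test dR (x.1, x.2.1) F) :=
    RecF.cond (c := fun (x : α × ℕ × Option α) (_ : ℕ → ℕ) => x.2.2.isSome)
      (φ := fun (x : α × ℕ × Option α) (_ : ℕ → ℕ) => x.2.2)
      (RecF.of_computable (Primrec.option_isSome.to_comp.comp
        (Computable.snd.comp Computable.snd)))
      (RecF.of_computable (Computable.snd.comp Computable.snd))
      ((test_rec h).comp₁ (f := fun x : α × ℕ × Option α => (x.1, x.2.1))
        (Computable.pair Computable.fst (Computable.fst.comp Computable.snd)))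
  exact RecF.natRec (g := fun (_ : α) (_ : ℕ → ℕ) => (none : Option α))
    (RecF.of_computable (Computable.const none)) h1

/-- the bounded iteration -/
def iter (dR : α × α → (ℕ → ℕ) → Bool) (a₀ : α) (p : ℕ × ℕ) (F : ℕ → ℕ) : Option α :=
  Nat.rec (motive := fun _ => Option α) (some a₀)
    (fun _ r => bif r.isSome then inner dR (r.getD a₀, p.1) F else none) p.2

theorem iter_rec {dR : α × α → (ℕ → ℕ) → Bool} (h : RecF dR) (a₀ : α) :
    RecF (iter dR a₀) := by
  have h1 : RecF (fun (x : ℕ × ℕ × Option α) F =>
      bif x.2.2.isSome then inner dR (x.2.2.getD a₀, x.1) F else (none : Option α)) :=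
    RecF.cond (c := fun (x : ℕ × ℕ × Option α) (_ : ℕ → ℕ) => x.2.2.isSome)
      (ψ := fun (_ : ℕ × ℕ × Option α) (_ : ℕ → ℕ) => (none : Option α))
      (RecF.of_computable (Primrec.option_isSome.to_comp.comp
        (Computable.snd.comp Computable.snd)))
      ((inner_rec h).comp₁ (f := fun x : ℕ × ℕ × Option α => (x.2.2.getD a₀, x.1))
        (Computable.pair (Primrec.option_getD.to_comp.comp (Computable.snd.comp Computable.snd)
          (Computable.const a₀)) Computable.fst))
      (RecF.of_computable (Computable.const none))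
  exact RecF.natRec (g := fun (_ : ℕ) (_ : ℕ → ℕ) => some a₀)
    (RecF.of_computable (Computable.const (some a₀))) h1

section fixed

variable (dR : α × α → (ℕ → ℕ) → Bool) (G : ℕ → ℕ) (a₀ : α)

theorem test_eq {a : α} {b : ℕ} {x : α} : test dR (a, b) G = some x ↔
    Encodable.decode b = some x ∧ dR (a, x) G = true := by
  unfold test
  cases h : (Encodable.decode b : Option α) with
  | none => simp
  | some y =>
    cases h' : dR (a, y) G with
    | false =>
      simp only [Option.elim, h', cond_false, Option.some.injEq]
      constructor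
      · intro hh; simp at hh
      · rintro ⟨rfl, h2⟩
        rw [h'] at h2
        simp at h2
    | true =>
      simp only [Option.elim, h', cond_true, Option.some.injEq]
      constructor
      · rintro rfl
        exact ⟨rfl, h'⟩
      · exact fun h2 => h2.1

theorem inner_succ (a : α) (t : ℕ) : inner dR (a, t + 1) G =
    bif (inner dR (a, t) G).isSome then inner dR (a, t) G else test dR (a, t) G := rfl

theorem inner_none {a : α} {t : ℕ} (h : ∀ b < t, test dR (a, b) G = none) :
    inner dR (a, t) G = none := by
  induction t with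
  | zero => rfl
  | succ t ih =>
    rw [inner_succ, ih (fun b hb => h b (by omega))]
    exact h t (by omega)

open Classical in
/-- the next element: the one with the least code -/
noncomputable def next (a : α) : α :=
  if h : ∃ b, (test dR (a, b) G).isSome then (test dR (a, Nat.find h) G).getD a₀ else a₀

theorem inner_some {a : α} {t : ℕ} {x : α} (h : inner dR (a, t) G = some x) :
    x = next dR G a₀ a ∧ dR (a, x) G = true := by
  classical
  by_cases hex : ∃ b, (test dR (a, b) G).isSome
  · have hmin : ∀ b < Nat.find hex, test dR (a, b) G = none := by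
      intro b hb
      have := Nat.find_min hex hb
      rwa [Option.not_isSome_iff_eq_none] at this
    have hspec := Nat.find_spec hex
    obtain ⟨y, hy⟩ := Option.isSome_iff_exists.1 hspec
    have hnext : next dR G a₀ a = y := by
      unfold next
      rw [dif_pos hex, hy]
      rfl
    have key : ∀ t, t ≤ Nat.find hex ∨ inner dR (a, t) G = some y := by
      intro t
      induction t with
      | zero => exact Or.inl (Nat.zero_le _)
      | succ t ih =>
        rcases ih with h1 | h1
        · rcases Nat.lt_or_ge t (Nat.find hex) with h2 | h2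
          · exact Or.inl h2
          · right
            have h3 : t = Nat.find hex := le_antisymm h1 h2
            rw [inner_succ, inner_none dR G (fun b hb => hmin b (by omega)), h3]
            exact hy
        · right
          rw [inner_succ, h1]
          rfl
    rcases key t with h1 | h1
    · rw [inner_none dR G (fun b hb => hmin b (by omega))] at h
      simp at h
    · rw [h1] at h
      have hxy : y = x := by simpa using h
      subst hxy
      exact ⟨hnext.symm, ((test_eq dR G).1 hy).2⟩
  · exfalso
    push Not at hex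
    rw [inner_none dR G (fun b _ => by
      have := hex b
      simpa using this)] at h
    simp at h

theorem inner_ex {a a' : α} (h : dR (a, a') G = true) :
    ∃ t₀, ∀ t, t₀ ≤ t → inner dR (a, t) G = some (next dR G a₀ a) := by
  have h1 : test dR (a, Encodable.encode a') G = some a' :=
    (test_eq dR G).2 ⟨Encodable.encodek a', h⟩
  have key : ∀ t, Encodable.encode a' + 1 ≤ t → (inner dR (a, t) G).isSome := by
    intro t ht
    induction t, ht using Nat.le_induction with
    | base =>
      rw [inner_succ, h1]
      cases hh : (inner dR (a, Encodable.encode a') G).isSome with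
      | true => exact hh
      | false => rfl
    | succ t _ ih =>
      rw [inner_succ, ih]
      exact ih
  refine ⟨Encodable.encode a' + 1, fun t ht => ?_⟩
  obtain ⟨x, hx⟩ := Option.isSome_iff_exists.1 (key t ht)
  rw [hx, (inner_some dR G a₀ hx).1]

/-- the sequence -/
noncomputable def seq : ℕ → α
  | 0 => a₀
  | j + 1 => next dR G a₀ (seq j)

theorem iter_succ (t n : ℕ) : iter dR a₀ (t, n + 1) G =
    bif (iter dR a₀ (t, n) G).isSome then inner dR ((iter dR a₀ (t, n) G).getD a₀, t) G
    else none := rfl

theorem iter_some {t n : ℕ} {x : α} (h : iter dR a₀ (t, n) G = some x) : x = seq dR G a₀ n := by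
  induction n generalizing x with
  | zero =>
    have h1 : iter dR a₀ (t, 0) G = some a₀ := rfl
    rw [h1] at h
    have : a₀ = x := by simpa using h
    rw [← this]
    rfl
  | succ n ih =>
    rw [iter_succ] at h
    cases h' : iter dR a₀ (t, n) G with
    | none => rw [h'] at h; simp at h
    | some y =>
      rw [h'] at h
      simp only [Option.isSome_some, cond_true, Option.getD_some] at h
      have h1 := ih h'
      subst h1
      exact (inner_some dR G a₀ h).1

theorem iter_ex (hs : ∀ n, ∃ a', dR (seq dR G a₀ n, a') G = true) (n : ℕ) :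
    ∃ t₀, ∀ t, t₀ ≤ t → iter dR a₀ (t, n) G = some (seq dR G a₀ n) := by
  induction n with
  | zero => exact ⟨0, fun t _ => rfl⟩
  | succ n ih =>
    obtain ⟨t₀, h0⟩ := ih
    obtain ⟨a', ha'⟩ := hs n
    obtain ⟨t₁, h1⟩ := inner_ex dR G a₀ ha'
    refine ⟨max t₀ t₁, fun t ht => ?_⟩
    rw [iter_succ, h0 t ((le_max_left _ _).trans ht)]
    exact h1 t ((le_max_right _ _).trans ht)

end fixed

end Search

open Search in
/-- Module SEARCH (from RED). -/
theorem search (hred : Red1Statement) (hmu : RedMuStatement) : SearchStatement := by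
  intro α _ R hR G I a₀ h0 hex hI
  obtain ⟨dR, hdR, hRd⟩ := hR
  have hRd' : ∀ a a', R a a' G ↔ dR (a, a') G = true := fun a a' => hRd (a, a') G
  -- the invariant holds along the sequence
  have hstep : ∀ a, I a → R a (next dR G a₀ a) G := by
    intro a ha
    obtain ⟨a', ha'⟩ := hex a ha
    obtain ⟨t₀, ht⟩ := inner_ex dR G a₀ ((hRd' a a').1 ha')
    exact (hRd' _ _).2 (inner_some dR G a₀ (ht t₀ le_rfl)).2
  have hinv : ∀ n, I (seq dR G a₀ n) := by
    intro n
    induction n with
    | zero => exact h0
    | succ n ih => exact hI _ _ ih (hstep _ ih)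
  have hs : ∀ n, ∃ a', dR (seq dR G a₀ n, a') G = true := fun n =>
    ⟨_, (hRd' _ _).1 (hstep _ (hinv n))⟩
  refine ⟨seq dR G a₀, rfl, fun j => hstep _ (hinv j), ?_⟩
  intro out hout
  -- the predicate: `m` codes a bound and the output
  have hit : RecF (fun (p : ℕ × ℕ) F => iter dR a₀ (p.2.unpair.1, p.1 + 1) F) :=
    (iter_rec hdR a₀).comp₁ (f := fun p : ℕ × ℕ => (p.2.unpair.1, p.1 + 1))
      (Computable.pair (Computable.fst.comp (Computable.unpair.comp Computable.snd))
        (Computable.succ.comp Computable.fst))
  have hgd : RecF (fun (p : ℕ × ℕ) F => (p.1, (iter dR a₀ (p.2.unpair.1, p.1 + 1) F).getD a₀)) :=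
    (RecF.of_computable Computable.fst).pair
      (hit.comp (g := fun o : Option α => o.getD a₀)
        (Primrec.option_getD.to_comp.comp Computable.id (Computable.const a₀)))
  have hval : RecF (fun (p : ℕ × ℕ) F =>
      out (p.1, (iter dR a₀ (p.2.unpair.1, p.1 + 1) F).getD a₀) F) := hout.bind hgd
  have hc1 : Cop (fun (p : ℕ × ℕ) F => (iter dR a₀ (p.2.unpair.1, p.1 + 1) F).isSome = true) :=
    ⟨_, hit.comp (g := fun o : Option α => o.isSome) Primrec.option_isSome.to_comp,
      fun _ _ => Iff.rfl⟩
  have heq : ComputablePred (fun p : ℕ × ℕ => p.1 = p.2) := by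
    have h : PrimrecRel (fun a b : ℕ => a = b) := Primrec.eq
    exact PrimrecPred.computablePred (PrimrecRel.comp h Primrec.fst Primrec.snd)
  have hc2 : Cop (fun (p : ℕ × ℕ) F =>
      out (p.1, (iter dR a₀ (p.2.unpair.1, p.1 + 1) F).getD a₀) F = p.2.unpair.2) :=
    Cop.of_recF (hval.pair (RecF.of_computable (f := fun p : ℕ × ℕ => p.2.unpair.2)
      (Computable.snd.comp (Computable.unpair.comp Computable.snd)))) heq
  obtain ⟨f, hf, hP⟩ := hmu (fun j m F => (iter dR a₀ (m.unpair.1, j + 1) F).isSome = true ∧
    out (j, (iter dR a₀ (m.unpair.1, j + 1) F).getD a₀) F = m.unpair.2) (hc1.and hc2) G (by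
      intro j
      obtain ⟨t₀, ht⟩ := iter_ex dR G a₀ hs (j + 1)
      refine ⟨Nat.pair t₀ (out (j, seq dR G a₀ (j + 1)) G), ?_⟩
      simp only [Nat.unpair_pair, ht t₀ le_rfl]
      exact ⟨rfl, rfl⟩)
  have hfval : ∀ j, (f j).unpair.2 = out (j, seq dR G a₀ (j + 1)) G := by
    intro j
    obtain ⟨h1, h2⟩ := hP j
    obtain ⟨x, hx⟩ := Option.isSome_iff_exists.1 h1
    rw [hx, iter_some dR G a₀ hx] at h2
    exact h2.symm
  have hr := hred (fun n F => (F n).unpair.2) (RecF.comp (g := fun n : ℕ => n.unpair.2)
    (Computable.snd.comp Computable.unpair) (RecF.at Computable.id)) f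
  have e : (fun j => out (j, seq dR G a₀ (j + 1)) G) = fun n => (f n).unpair.2 := by
    funext j
    exact (hfval j).symm
  rw [e]
  exact hr.trans hf

end Pool.Agent.Lib.MP_d48993_lc
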