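import Pool.Agent.Lib.MP_d48993_lc.Interfaces

/-!
# Project CUT: module STEP2A
-/

set_option autoImplicit false

namespace Pool.Agent.Lib.MP_d48993_lc

open MP_8c048d_lc (pre join RecF Sig Clo Cop)

/-- the domain of a condition is closed under initial segments -/
theorem Valid.dom_prefix {T : List ℕ → Prop} {q : List (List ℕ × List ℕ)} (h : Valid T q) :
    ∀ (N : ℕ) (t σ t' : List ℕ), t.length ≤ N → (t, σ) ∈ q → t' <+: t → ∃ ρ, (t', ρ) ∈ q := by
  intro N
  induction N with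
  | zero =>
    intro t σ t' hN hq ht'
    have h1 : t = [] := List.length_eq_zero_iff.1 (Nat.le_zero.1 hN)
    subst h1
    have h2 : t' = [] := List.prefix_nil.1 ht'
    subst h2
    exact ⟨σ, hq⟩
  | succ N ih =>
    intro t σ t' hN hq ht'
    by_cases h1 : t' = t
    · subst h1
      exact ⟨σ, hq⟩
    have hne : t ≠ [] := by
      intro h0
      subst h0
      exact h1 (List.prefix_nil.1 ht')
    obtain ⟨p', hp', hp'1⟩ := h.parent (t, σ) hq hne
    have h2 : t' <+: t.dropLast := by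
      have h3 : t'.length < t.length := by
        rcases Nat.lt_or_ge t'.length t.length with h4 | h4
        · exact h4
        · exact absurd (List.IsPrefix.eq_of_length ht'
            (le_antisymm ht'.length_le h4)) h1
      rw [List.dropLast_eq_take, List.prefix_take_iff]
      exact ⟨ht', by omega⟩
    have h5 : (t.dropLast, p'.2) ∈ q := by
      have h6 : (p'.1, p'.2) ∈ q := hp'
      rw [hp'1] at h6
      exact h6
    refine ih t.dropLast p'.2 t' ?_ h5 h2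
    rw [List.length_dropLast]
    omega

/-- images are unique -/
theorem Valid.unique {T : List ℕ → Prop} {q : List (List ℕ × List ℕ)} (h : Valid T q)
    {t σ σ' : List ℕ} (h1 : (t, σ) ∈ q) (h2 : (t, σ') ∈ q) : σ = σ' := by
  have h3 : σ <+: σ' := (h.emb _ h1 _ h2).2 (List.prefix_refl t)
  have h4 : σ' <+: σ := (h.emb _ h2 _ h1).2 (List.prefix_refl t)
  exact List.IsPrefix.eq_of_length h3 (le_antisymm h3.length_le h4.length_le)

theorem step2a (hG1 : G1Statement) (hTr : ExtTransStatement) : Step2aStatement := by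
  intro G T φ F₀ c₀ hG hT hφ hmon hF₀ hfail c hc hcs s ρ hsρ hρ
  obtain ⟨-, htrans⟩ := hTr
  by_contra hcon
  push Not at hcon
  -- the first extension
  obtain ⟨n, hn1, hn2⟩ : ∃ n, ρ.length < n ∧ ∀ π ∈ F₀, π.length < n := by
    refine ⟨ρ.length + (F₀.map List.length).sum + 1, by omega, fun π hπ => ?_⟩
    have h1 : π.length ≤ (F₀.map List.length).sum :=
      List.single_le_sum (by simp) _ (List.mem_map.2 ⟨π, hπ, rfl⟩)
    omega
  obtain ⟨c₁, hc₁, hs₁, hl₁⟩ := (hfail F₀ c (List.Subset.refl _) hF₀ hc hcs).2 n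
  set π := (φ c₁.1).take n with hπ
  have hπl : π.length = n := by
    rw [hπ, List.length_take]
    omega
  have hρφ₁ : ρ <+: φ c₁.1 := hρ.trans (hmon _ _ hc₁.px)
  have hρπ : ρ <+: π := by
    rw [hπ, List.prefix_take_iff]
    exact ⟨hρφ₁, hn1.le⟩
  have hπφ₁ : π <+: φ c₁.1 := List.take_prefix _ _
  have hF₁ : FOk (π :: F₀) := by
    intro a ha b hb hab
    rcases List.mem_cons.1 ha with ha | ha <;> rcases List.mem_cons.1 hb with hb | hb
    · rw [ha, hb]
    · exfalso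
      have := hn2 b hb
      rw [ha, hπl] at hab
      omega
    · exfalso
      have := hn2 a ha
      rw [hb, hπl] at hab
      omega
    · exact hF₀ a ha b hb hab
  have hsub : F₀ ⊆ π :: F₀ := fun a ha => List.mem_cons_of_mem _ ha
  have hc₀₁ : Ext T F₀ c₀ c₁ := htrans T F₀ F₀ c₀ c c₁ (List.Subset.refl _) hc hc₁
  -- the second extension
  obtain ⟨n', hn'1, hn'2⟩ : ∃ n', n ≤ n' ∧ ∀ p ∈ c₁.2, p.2.length < n' := by
    refine ⟨n + (c₁.2.map fun p => p.2.length).sum + 1, by omega, fun p hp => ?_⟩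
    have h1 : p.2.length ≤ (c₁.2.map fun p => p.2.length).sum :=
      List.single_le_sum (by simp) _ (List.mem_map.2 ⟨p, hp, rfl⟩)
    omega
  obtain ⟨c₂, hc₂, hs₂, hl₂⟩ := (hfail (π :: F₀) c₁ hsub hF₁ hc₀₁ hs₁).2 n'
  set π' := (φ c₂.1).take n' with hπ'
  have hπ'l : π'.length = n' := by
    rw [hπ', List.length_take]
    omega
  have hπ'φ₂ : π' <+: φ c₂.1 := List.take_prefix _ _
  have hππ' : π <+: π' := by
    rw [hπ', List.prefix_take_iff]
    exact ⟨hπφ₁.trans (hmon _ _ hc₂.px), by omega⟩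
  have hcc₂ : Ext T F₀ c c₂ := htrans T F₀ (π :: F₀) c c₁ c₂ hsub hc₁ hc₂
  have hc₀₂ : Ext T F₀ c₀ c₂ := htrans T F₀ (π :: F₀) c₀ c₁ c₂ hsub hc₀₁ hc₂
  -- the claim
  have hblocked : Blocked T (π :: F₀) c₂ π' := by
    intro c₃ hc₃ p hp hπp
    have hc₁₃ : Ext T (π :: F₀) c₁ c₃ :=
      htrans T (π :: F₀) (π :: F₀) c₁ c₂ c₃ (List.Subset.refl _) hc₂ hc₃
    -- the shortest prefix of `p.1` with image above `π`
    have hex : ∃ m, ∃ p₀ ∈ c₃.2, p₀.1 <+: p.1 ∧ π <+: p₀.2 ∧ p₀.1.length = m :=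
      ⟨p.1.length, p, hp, List.prefix_refl _, hππ'.trans hπp, rfl⟩
    classical
    obtain ⟨p₀, hp₀, hp₀p, hπp₀, hp₀m⟩ := Nat.find_spec hex
    have hmin : ∀ p₁ ∈ c₃.2, p₁.1 <+: p.1 → π <+: p₁.2 → Nat.find hex ≤ p₁.1.length :=
      fun p₁ h1 h2 h3 => Nat.find_min' hex ⟨p₁, h1, h2, h3, rfl⟩
    have hv₃ := hc₁₃.valid
    have hne : p₀.1 ≠ [] := by
      intro h0
      have h1 : (([] : List ℕ), p₀.2) ∈ c₃.2 := by
        have h2 : (p₀.1, p₀.2) ∈ c₃.2 := hp₀
        rwa [h0] at h2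
      have h3 := hv₃.unique h1 hv₃.root
      rw [h3] at hπp₀
      have h4 := hπp₀.length_le
      rw [hπl, List.length_nil] at h4
      omega
    have hmem₁ : p₀ ∈ c₁.2 := by
      by_contra hnot
      obtain ⟨p', hp', hp'1⟩ := hv₃.parent p₀ hp₀ hne
      have h1 := hc₁₃.frozen p₀ hp₀ hnot p' hp' hp'1 π (List.mem_cons_self) hπp₀
      have h2 : p'.1 <+: p₀.1 := by
        rw [hp'1]
        exact List.dropLast_prefix _
      have h3 := hmin p' hp' (h2.trans hp₀p) h1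
      rw [← hp₀m, hp'1, List.length_dropLast] at h3
      have h4 : 0 < p₀.1.length := List.length_pos_iff.2 hne
      omega
    have hlt : p₀.2.length < n' := hn'2 p₀ hmem₁
    have hp₀2 : p₀.2 <+: p.2 := (hv₃.emb _ hp₀ _ hp).2 hp₀p
    have hp₀π' : p₀.2 <+: π' := List.prefix_of_prefix_length_le hp₀2 hπp (by omega)
    have hv₁ := hc₁.valid
    have hsρ₁ : (s, ρ) ∈ c₁.2 := hc₁.sub _ hsρ
    have hsp₀ : s <+: p₀.1 := (hv₁.emb _ hsρ₁ _ hmem₁).1 (hρπ.trans hπp₀)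
    have hsne : s ≠ p₀.1 := by
      intro h0
      have h1 : (s, p₀.2) ∈ c₁.2 := by
        rw [h0]
        exact hmem₁
      have h2 := hv₁.unique hsρ₁ h1
      have h3 := hπp₀.length_le
      rw [← h2, hπl] at h3
      omega
    obtain ⟨r, hr⟩ := hsp₀
    cases r with
    | nil => exact hsne (by rw [← hr, List.append_nil])
    | cons k r =>
      have h1 : s ++ [k] <+: p₀.1 := ⟨r, by rw [← hr, List.append_assoc, List.singleton_append]⟩
      obtain ⟨ρ₁, hρ₁⟩ := hv₁.dom_prefix p₀.1.length p₀.1 p₀.2 (s ++ [k]) le_rfl hmem₁ h1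
      have h2 : ρ₁ <+: p₀.2 := (hv₁.emb _ hρ₁ _ hmem₁).2 h1
      exact hcon c₂ k ρ₁ hcc₂ hs₂ (hc₂.sub _ hρ₁) (h2.trans (hp₀π'.trans hπ'φ₂))
  -- the contradiction
  rcases hG1 G T φ (π :: F₀) c₂ π' hG hT hφ hmon hblocked with ⟨c', h1, h2, h3⟩ | ⟨L, hL⟩
  · exact h3 (hfail F₀ c' (List.Subset.refl _) hF₀
      (htrans T F₀ (π :: F₀) c₀ c₂ c' hsub hc₀₂ h1) h2).1
  · obtain ⟨c', h1, h2, h3⟩ := (hfail (π :: F₀) c₂ hsub hF₁ hc₀₂ hs₂).2 (L + 1)
    have h4 := hL c' h1 h2 (hπ'φ₂.trans (hmon _ _ h1.px))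
    omega

end Pool.Agent.Lib.MP_d48993_lc
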