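import Pool.Agent.Lib.MP_d48993_lc.Step2c

/-!
# Project CUT: module STEP2B
-/

set_option autoImplicit false

namespace Pool.Agent.Lib.MP_d48993_lc

open MP_8c048d_lc (pre join RecF Sig Clo Cop)

namespace Step2b

open Step2c (cp_comp eqPair lePair)

theorem eqPair' {α : Type} [Primcodable α] [DecidableEq α] :
    ComputablePred (fun p : α × α => p.1 = p.2) := by
  have h : PrimrecRel (fun a b : α => a = b) := Primrec.eq
  exact PrimrecPred.computablePred (PrimrecRel.comp h Primrec.fst Primrec.snd)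

theorem memPair {α : Type} [Primcodable α] [DecidableEq α] :
    ComputablePred (fun p : α × List α => p.1 ∈ p.2) := by
  have h := PrimrecRel.exists_mem_list (R := fun a b : α => a = b) Primrec.eq
  have h2 : PrimrecPred (fun p : α × List α => p.1 ∈ p.2) := by
    refine PrimrecPred.of_eq (PrimrecRel.comp h Primrec.snd Primrec.fst) fun p => ?_
    constructor
    · rintro ⟨a, ha, he⟩
      rw [← he]
      exact ha
    · intro ha
      exact ⟨_, ha, rfl⟩
  exact PrimrecPred.computablePred h2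

theorem prefixPair : ComputablePred (fun p : List ℕ × List ℕ => p.1 <+: p.2) := by
  have h := cp_comp (eqPair' (α := List ℕ)) (f := fun p : List ℕ × List ℕ =>
    (p.1, p.2.take p.1.length)) (Computable.pair Computable.fst
      ((Primrec.list_take (α := ℕ)).to_comp.comp (Computable.list_length.comp Computable.fst)
        Computable.snd))
  have h2 : (fun p : List ℕ × List ℕ => p.1 <+: p.2) =
      fun p : List ℕ × List ℕ => p.1 = p.2.take p.1.length := by
    funext p
    exact propext List.prefix_iff_eq_take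
  rw [h2]
  exact h

/-- The relation of the search. -/
def R (T : List ℕ → Prop) (φ : List ℕ → List ℕ) (F₀ : List (List ℕ))
    (a a' : Cnd × List ℕ × List ℕ) (F : ℕ → ℕ) : Prop :=
  Ext T F₀ a.1 a'.1 ∧ Safe F a'.1 ∧ a'.2.1.length = a.2.1.length + 1 ∧ a.2.1 <+: a'.2.1 ∧
    a'.2 ∈ a'.1.2 ∧ a'.2.2 <+: φ a'.1.1

theorem R_cop (hE : ExtCompStatement) (hSf : SafeCompStatement) (T : List ℕ → Prop)
    (φ : List ℕ → List ℕ) (F₀ : List (List ℕ)) (hT : ComputablePred T) (hφ : Computable φ) :
    Cop (fun (p : (Cnd × List ℕ × List ℕ) × (Cnd × List ℕ × List ℕ)) F =>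
      R T φ F₀ p.1 p.2 F) := by
  have f1 : Computable fun p : (Cnd × List ℕ × List ℕ) × (Cnd × List ℕ × List ℕ) => p.1.1 :=
    Computable.fst.comp Computable.fst
  have f2 : Computable fun p : (Cnd × List ℕ × List ℕ) × (Cnd × List ℕ × List ℕ) => p.2.1 :=
    Computable.fst.comp Computable.snd
  have f3 : Computable fun p : (Cnd × List ℕ × List ℕ) × (Cnd × List ℕ × List ℕ) => p.1.2.1 :=
    Computable.fst.comp (Computable.snd.comp Computable.fst)
  have f4 : Computable fun p : (Cnd × List ℕ × List ℕ) × (Cnd × List ℕ × List ℕ) => p.2.2 :=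
    Computable.snd.comp Computable.snd
  refine Cop.and (Cop.of_computable ?_) (Cop.and ?_ (Cop.and (Cop.of_computable ?_)
    (Cop.and (Cop.of_computable ?_) (Cop.and (Cop.of_computable ?_) (Cop.of_computable ?_)))))
  · exact cp_comp (hE T hT) (Computable.pair (Computable.const F₀) (Computable.pair f1 f2))
  · exact hSf.2.1.comp f2
  · exact cp_comp eqPair (Computable.pair (Computable.list_length.comp (Computable.fst.comp f4))
      (Computable.succ.comp (Computable.list_length.comp f3)))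
  · exact cp_comp prefixPair (Computable.pair f3 (Computable.fst.comp f4))
  · exact cp_comp (memPair (α := List ℕ × List ℕ))
      (Computable.pair f4 (Computable.snd.comp f2))
  · exact cp_comp prefixPair (Computable.pair (Computable.snd.comp f4)
      (hφ.comp (Computable.fst.comp f2)))

end Step2b

open Step2b in
theorem step2b (h2a : Step2aStatement) (hS : SearchStatement) (hE : ExtCompStatement)
    (hSf : SafeCompStatement) (hTr : ExtTransStatement) : Step2bStatement := by
  intro G T φ F₀ c₀ hG hT hPC hφ hmon hF₀ hval hsafe hfail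
  have hstep : ∀ a a' : Cnd × List ℕ × List ℕ,
      (Ext T F₀ c₀ a.1 ∧ Safe G a.1 ∧ a.2 ∈ a.1.2 ∧ a.2.2 <+: φ a.1.1) → R T φ F₀ a a' G →
      (Ext T F₀ c₀ a'.1 ∧ Safe G a'.1 ∧ a'.2 ∈ a'.1.2 ∧ a'.2.2 <+: φ a'.1.1) := by
    rintro a a' ⟨h1, -, -, -⟩ ⟨h3, h4, -, -, h7, h8⟩
    exact ⟨hTr.2 T F₀ F₀ c₀ _ _ (List.Subset.refl _) h1 h3, h4, h7, h8⟩
  have hI₀ : Ext T F₀ c₀ c₀ ∧ Safe G c₀ ∧ (([] : List ℕ), ([] : List ℕ)) ∈ c₀.2 ∧
      ([] : List ℕ) <+: φ c₀.1 :=
    ⟨hTr.1 T F₀ c₀ hval, hsafe, hval.root, List.nil_prefix⟩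
  obtain ⟨A, hA0, hA1, hA2⟩ := hS (Cnd × List ℕ × List ℕ) (R T φ F₀)
    (R_cop hE hSf T φ F₀ hT hφ) G
    (fun a => Ext T F₀ c₀ a.1 ∧ Safe G a.1 ∧ a.2 ∈ a.1.2 ∧ a.2.2 <+: φ a.1.1)
    (c₀, [], []) hI₀
    (by
      rintro ⟨c, s, ρ⟩ ⟨h1, h2, h3, h4⟩
      obtain ⟨c', k, ρ', h5, h6, h7, h8⟩ :=
        h2a G T φ F₀ c₀ hG hT hφ hmon hF₀ hfail c h1 h2 s ρ h3 h4
      exact ⟨(c', s ++ [k], ρ'), h5, h6, by simp, List.prefix_append _ _, h7, h8⟩)
    hstep
  have hinv : ∀ j, Ext T F₀ c₀ (A j).1 ∧ Safe G (A j).1 ∧ (A j).2 ∈ (A j).1.2 ∧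
      (A j).2.2 <+: φ (A j).1.1 := by
    intro j
    induction j with
    | zero =>
      rw [hA0]
      exact hI₀
    | succ j ih => exact hstep _ _ ih (hA1 j)
  have hlen : ∀ j, (A j).2.1.length = j := by
    intro j
    induction j with
    | zero => rw [hA0]; rfl
    | succ j ih => rw [(hA1 j).2.2.1, ih]
  have hchain : ∀ i j, i ≤ j → (A i).2.1 <+: (A j).2.1 := by
    intro i j hij
    induction j, hij using Nat.le_induction with
    | base => exact List.prefix_rfl
    | succ j _ ih => exact ih.trans (hA1 j).2.2.2.1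
  have hout : RecF (fun (q : ℕ × (Cnd × List ℕ × List ℕ)) (_ : ℕ → ℕ) =>
      (q.2.2.1[q.1]?).getD 0) := by
    refine RecF.of_computable ?_
    exact Computable.option_getD (Computable.list_getElem?.comp
      (Computable.fst.comp (Computable.snd.comp Computable.snd)) Computable.fst)
      (Computable.const 0)
  refine ⟨fun j => ((A (j + 1)).2.1[j]?).getD 0, hA2 _ hout, fun k => ?_⟩
  have hpre : pre (fun j => ((A (j + 1)).2.1[j]?).getD 0) k = (A k).2.1 := by
    refine List.ext_getElem? fun i => ?_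
    rw [MP_8c048d_lc.pre_getElem?]
    by_cases hi : i < k
    · rw [if_pos hi]
      obtain ⟨t, ht⟩ := hchain (i + 1) k hi
      have h2 : i < (A (i + 1)).2.1.length := by
        rw [hlen]
        omega
      rw [← ht, List.getElem?_append_left h2, List.getElem?_eq_getElem h2]
      rfl
    · rw [if_neg hi]
      symm
      rw [List.getElem?_eq_none_iff, hlen]
      omega
  rw [hpre]
  exact ((hinv k).1.valid.mem _ (hinv k).2.2.1).1

end Pool.Agent.Lib.MP_d48993_lc
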