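import Pool.Agent.Lib.MP_d48993_lc.Interfaces

/-!
# CUT: module STEP2C
-/

set_option autoImplicit false

namespace Pool.Agent.Lib.MP_d48993_lc

open MP_8c048d_lc (pre join RecF Sig Clo Cop)

namespace Step2c

theorem cp_comp {α β : Type} [Primcodable α] [Primcodable β] {P : β → Prop}
    (h : ComputablePred P) {f : α → β} (hf : Computable f) : ComputablePred (fun a => P (f a)) := by
  obtain ⟨_, h'⟩ := h
  exact ⟨fun a => inferInstance, h'.comp hf⟩

theorem eqPair : ComputablePred (fun p : ℕ × ℕ => p.1 = p.2) := by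
  have h : PrimrecRel (fun a b : ℕ => a = b) := Primrec.eq
  exact PrimrecPred.computablePred (PrimrecRel.comp h Primrec.fst Primrec.snd)

theorem lePair : ComputablePred (fun p : ℕ × ℕ => p.1 ≤ p.2) :=
  PrimrecPred.computablePred (PrimrecRel.comp Primrec.nat_le Primrec.fst Primrec.snd)

/-- The relation of the search. -/
def R (T : List ℕ → Prop) (φ : List ℕ → List ℕ) (F₀ : List (List ℕ)) (a a' : ℕ × Cnd)
    (F : ℕ → ℕ) : Prop :=
  a'.1 = a.1 + 1 ∧ Ext T F₀ a.2 a'.2 ∧ Safe F a'.2 ∧ a.1 + 1 ≤ (φ a'.2.1).length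

theorem R_cop (hE : ExtCompStatement) (hSf : SafeCompStatement) (T : List ℕ → Prop)
    (φ : List ℕ → List ℕ) (F₀ : List (List ℕ)) (hT : ComputablePred T) (hφ : Computable φ) :
    Cop (fun (p : (ℕ × Cnd) × (ℕ × Cnd)) F => R T φ F₀ p.1 p.2 F) := by
  refine Cop.and (Cop.of_computable ?_) (Cop.and (Cop.of_computable ?_) (Cop.and ?_
    (Cop.of_computable ?_)))
  · exact cp_comp eqPair (Computable.pair (Computable.fst.comp Computable.snd)
      (Computable.succ.comp (Computable.fst.comp Computable.fst)))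
  · exact cp_comp (hE T hT) (Computable.pair (Computable.const F₀)
      (Computable.pair (Computable.snd.comp Computable.fst) (Computable.snd.comp Computable.snd)))
  · exact hSf.2.1.comp (Computable.snd.comp Computable.snd)
  · exact cp_comp lePair (Computable.pair
      (Computable.succ.comp (Computable.fst.comp Computable.fst))
      (Computable.list_length.comp (hφ.comp
        (Computable.fst.comp (Computable.snd.comp Computable.snd)))))

end Step2c

open Step2c in
theorem step2c (hS : SearchStatement) (hE : ExtCompStatement) (hSf : SafeCompStatement)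
    (hTr : ExtTransStatement) : Step2cStatement := by
  intro G T TB φ F₀ c₀ hT hPC hφ hmon hval hsafe hfail
  obtain ⟨A, hA0, hA1, hA2⟩ := hS (ℕ × Cnd) (R T φ F₀) (R_cop hE hSf T φ F₀ hT hφ) G
    (fun a => Ext T F₀ c₀ a.2 ∧ Safe G a.2) (0, c₀) ⟨hTr.1 T F₀ c₀ hval, hsafe⟩
    (by
      rintro ⟨j, c⟩ ⟨h1, h2⟩
      obtain ⟨-, h3⟩ := hfail c h1 h2
      obtain ⟨c', h4, h5, h6⟩ := h3 (j + 1)
      exact ⟨(j + 1, c'), rfl, h4, h5, h6⟩)
    (by
      rintro ⟨j, c⟩ ⟨j', c'⟩ ⟨h1, h2⟩ ⟨h3, h4, h5, h6⟩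
      exact ⟨hTr.2 T F₀ F₀ c₀ c c' (List.Subset.refl _) h1 h4, h5⟩)
  have hfst : ∀ j, (A j).1 = j := by
    intro j
    induction j with
    | zero => rw [hA0]
    | succ j ih =>
      rw [(hA1 j).1, ih]
  have hinv : ∀ j, Ext T F₀ c₀ (A j).2 ∧ Safe G (A j).2 := by
    intro j
    induction j with
    | zero => rw [hA0]; exact ⟨hTr.1 T F₀ c₀ hval, hsafe⟩
    | succ j ih =>
      exact ⟨hTr.2 T F₀ F₀ c₀ _ _ (List.Subset.refl _) ih.1 (hA1 j).2.1, (hA1 j).2.2.1⟩
  have hchain : ∀ i j, i ≤ j → (A i).2.1 <+: (A j).2.1 := by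
    intro i j hij
    induction j, hij using Nat.le_induction with
    | base => exact List.prefix_rfl
    | succ j _ ih => exact ih.trans (hA1 j).2.1.px
  have hlen : ∀ j, j ≤ (φ (A j).2.1).length := by
    intro j
    cases j with
    | zero => exact Nat.zero_le _
    | succ j =>
      have h := (hA1 j).2.2.2
      rw [hfst j] at h
      exact h
  have hout : RecF (fun (q : ℕ × (ℕ × Cnd)) (_ : ℕ → ℕ) => ((φ q.2.2.1)[q.1]?).getD 0) := by
    refine RecF.of_computable ?_
    exact Computable.option_getD (Computable.list_getElem?.comp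
      (hφ.comp (Computable.fst.comp (Computable.snd.comp Computable.snd))) Computable.fst)
      (Computable.const 0)
  refine ⟨fun j => ((φ (A (j + 1)).2.1)[j]?).getD 0, hA2 _ hout, ?_⟩
  intro k
  have hpre : pre (fun j => ((φ (A (j + 1)).2.1)[j]?).getD 0) k <+: φ (A k).2.1 := by
    rw [List.prefix_iff_eq_take, MP_8c048d_lc.length_pre]
    refine List.ext_getElem? fun i => ?_
    rw [MP_8c048d_lc.pre_getElem?, List.getElem?_take]
    by_cases hi : i < k
    · rw [if_pos hi, if_pos hi]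
      have h1 : φ (A (i + 1)).2.1 <+: φ (A k).2.1 := hmon _ _ (hchain (i + 1) k hi)
      have h2 : i < (φ (A (i + 1)).2.1).length := hlen (i + 1)
      obtain ⟨t, ht⟩ := h1
      rw [← ht, List.getElem?_append_left h2, List.getElem?_eq_getElem h2]
      rfl
    · rw [if_neg hi, if_neg hi]
  exact hPC _ _ hpre (hfail (A k).2 (hinv k).1 (hinv k).2).1

end Pool.Agent.Lib.MP_d48993_lc
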