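import Pool.Agent.Lib.MP_d48993_lc.Interfaces

/-!
# Module STEP3: the generic sequence of conditions

From ORD, DENS, DECC, DECB, HX: a real `X` that computes no member of `C_ψ` and no member of `B`
and that satisfies the dichotomy `Theta`.
-/

set_option autoImplicit false

namespace Pool.Agent.Lib.MP_d48993_lc

open MP_8c048d_lc (pre join RecF Sig Clo Cop)

/-- A sequence that meets each of countably many dense sets infinitely often. -/
theorem exists_generic_seq {α ι : Type} [Countable ι] [Nonempty ι] (le : α → α → Prop)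
    (D : ι → α → Prop) (dense : ∀ i a, ∃ b, le a b ∧ D i b) (a₀ : α) :
    ∃ P : ℕ → α, (∀ n, le (P n) (P (n + 1))) ∧ ∀ i n, ∃ m, n ≤ m ∧ D i (P m) := by
  obtain ⟨f, hf⟩ := exists_surjective_nat ι
  choose next h1 h2 using dense
  refine ⟨fun n => Nat.rec a₀ (fun n a => next (f n.unpair.1) a) n, fun n => h1 _ _, ?_⟩
  intro i n
  obtain ⟨j, rfl⟩ := hf i
  refine ⟨Nat.pair j n + 1, (Nat.right_le_pair j n).trans (Nat.le_succ _), ?_⟩
  have := h2 (f (Nat.pair j n).unpair.1)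
    (Nat.rec a₀ (fun n a => next (f n.unpair.1) a) (Nat.pair j n))
  rw [Nat.unpair_pair] at this
  simpa using this

/-- In a valid condition the images are at least as long as the nodes. -/
theorem Valid.length_le {T : List ℕ → Prop} {q : List (List ℕ × List ℕ)} (h : Valid T q) :
    ∀ (n : ℕ) (p : List ℕ × List ℕ), p ∈ q → p.1.length = n → n ≤ p.2.length := by
  intro n
  induction n with
  | zero => intro p _ _; exact Nat.zero_le _
  | succ n ih =>
    intro p hp hn
    have hne : p.1 ≠ [] := by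
      intro h0
      rw [h0] at hn
      simp at hn
    obtain ⟨p', hp', he⟩ := h.parent p hp hne
    have h1 : p'.1.length = n := by rw [he, List.length_dropLast, hn]; rfl
    have h2 := ih p' hp' h1
    have h3 : p'.1 <+: p.1 := by rw [he]; exact List.dropLast_prefix _
    have h4 : p'.2 <+: p.2 := (h.emb p' hp' p hp).2 h3
    have h5 : p'.2.length ≠ p.2.length := by
      intro h6
      have h7 := h.len p' hp' p hp h6
      rw [h7] at h1
      omega
    have h6 := h4.length_le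
    omega

theorem resT_fst (T : List ℕ → Prop) (c : Cnd) : (resT T c).1 = c.1 := rfl

theorem mem_resT {T : List ℕ → Prop} {c : Cnd} {p : List ℕ × List ℕ} :
    p ∈ (resT T c).2 ↔ p ∈ c.2 ∧ T p.1 := by
  simp [resT]

/-- The real built by a sequence of longer and longer strings. -/
theorem exists_limit (x : ℕ → List ℕ) (hx : ∀ i j, i ≤ j → x i <+: x j)
    (hl : ∀ m, ∃ j, m ≤ (x j).length) : ∃ X : ℕ → ℕ, ∀ j, x j = pre X (x j).length := by
  choose J hJ using fun n => hl (n + 1)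
  refine ⟨fun n => (x (J n))[n]'(hJ n), fun j => ?_⟩
  apply List.ext_getElem
  · simp [pre]
  · intro i h1 h2
    simp only [pre, List.getElem_map, List.getElem_range]
    have e1 := (hx j (max j (J i)) (le_max_left _ _)).getElem h1
    have e2 := (hx (J i) (max j (J i)) (le_max_right _ _)).getElem (hJ i)
    rw [e1, e2]

/-- Module STEP3. -/
theorem step3 (hOrd : OrdStatement) (hDens : DensStatement) (hDecC : DecCStatement)
    (hDecB : DecBStatement) (hHx : HxStatement) : Step3Statement := by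
  intro Φ Tr G B hΦ hTr hG hB hGB
  have hpc : ∀ e, PC (Tr e) := hTr.tree
  obtain ⟨ordR, ordT, -, ordS⟩ := hOrd Tr G hpc
  obtain ⟨⟨P0, -⟩, dE, dI, dL, dF⟩ := hDens Tr G hpc
  obtain ⟨e₀, he₀⟩ := hTr.all B hB
  have hcomp : ∀ i, Computable (Φ i) := fun i =>
    hΦ.comp.comp (Computable.const i) Computable.id
  have hmon : ∀ i, Mon (Φ i) := hΦ.mono
  have hGB' : G ∉ Up {f | ∀ k, Tr e₀ (pre f k)} := by rw [← he₀]; exact hGB
  -- the requirements
  let ι : Type := ℕ ⊕ (ℕ × List ℕ) ⊕ ℕ ⊕ (ℕ × ℕ × List ℕ × List ℕ) ⊕ ℕ ⊕ ℕ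
  let D : ι → Cond3 Tr G → Prop := fun r P => match r with
    | .inl e => ¬ HasPath G (Tr e) → e ∈ P.E
    | .inr (.inl (e, s)) => Tr e s → e ∈ P.E → ∃ ρ, (e :: s, ρ) ∈ P.c.2
    | .inr (.inr (.inl m)) => m ≤ P.c.1.length
    | .inr (.inr (.inr (.inl (m, e, s, ρ)))) => (e :: s, ρ) ∈ P.c.2 →
        ∃ i, ∃ h : i < P.c.1.length, m ≤ i ∧ Fact P.c.1[i] (e :: s) ρ
    | .inr (.inr (.inr (.inr (.inl i)))) => ¬ TPsi G (Φ i P.c.1) ∨
        ∃ n, ∀ c, Ext (TE Tr P.E) P.F P.c c → Safe G c → (Φ i c.1).length < n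
    | .inr (.inr (.inr (.inr (.inr i)))) => ¬ Tr e₀ (Φ i P.c.1) ∨
        ∃ n, ∀ c, Ext (TE Tr P.E) P.F P.c c → Safe G c → (Φ i c.1).length < n
  have dense : ∀ r P, ∃ P', P3Le P P' ∧ D r P' := by
    intro r P
    rcases r with e | ⟨e, s⟩ | m | ⟨m, e, s, ρ⟩ | i | i
    · by_cases h : HasPath G (Tr e)
      · exact ⟨P, ordR P, fun h' => absurd h h'⟩
      · obtain ⟨P', h1, h2⟩ := dE e h P
        exact ⟨P', h1, fun _ => h2⟩
    · by_cases h : Tr e s ∧ e ∈ P.E
      · obtain ⟨P', h1, h2⟩ := dI e s h.1 P h.2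
        exact ⟨P', h1, fun _ _ => h2⟩
      · exact ⟨P, ordR P, fun h1 h2 => absurd ⟨h1, h2⟩ h⟩
    · exact dL m P
    · by_cases h : (e :: s, ρ) ∈ P.c.2
      · obtain ⟨P', h1, h2⟩ := dF m e s ρ P h
        exact ⟨P', h1, fun _ => h2⟩
      · exact ⟨P, ordR P, fun h1 => absurd h1 h⟩
    · exact hDecC Tr G (Φ i) hTr hG (hcomp i) (hmon i) P
    · exact hDecB Tr G (Φ i) (Tr e₀) hTr (hcomp i) (hmon i) (hpc e₀) hGB' P
  obtain ⟨P, hstep, hD⟩ := exists_generic_seq P3Le D dense P0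
  have hle : ∀ i j, i ≤ j → P3Le (P i) (P j) := by
    intro i j hij
    induction j, hij using Nat.le_induction with
    | base => exact ordR _
    | succ j _ ih => exact ordT _ _ _ ih (hstep j)
  -- the consequences of `P3Le`
  have hx : ∀ i j, i ≤ j → (P i).c.1 <+: (P j).c.1 := fun i j h => (hle i j h).2.2.px
  have hq : ∀ i j, i ≤ j → ∀ p ∈ (P i).c.2, p ∈ (P j).c.2 := fun i j h p hp =>
    (mem_resT.1 ((hle i j h).2.2.sub p hp)).1
  have hE : ∀ i j, i ≤ j → ∀ e ∈ (P i).E, e ∈ (P j).E := fun i j h e he => (hle i j h).1 he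
  have hlen : ∀ m n, ∃ j, n ≤ j ∧ m ≤ (P j).c.1.length := fun m n =>
    hD (.inr (.inr (.inl m))) n
  obtain ⟨X, hX⟩ := exists_limit (fun j => (P j).c.1) hx (fun m => by
    obtain ⟨j, -, hj⟩ := hlen m 0
    exact ⟨j, hj⟩)
  have hXi : ∀ j i (h : i < (P j).c.1.length), (P j).c.1[i] = X i := by
    intro j i h
    have h1 : (P j).c.1[i]? = (pre X (P j).c.1.length)[i]? := by rw [← hX j]
    rw [MP_8c048d_lc.pre_getElem?, if_pos h, List.getElem?_eq_getElem h] at h1
    exact Option.some.inj h1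
  -- no functional computes from `X` a path of a tree
  have key : ∀ (i : ℕ) (TB : List ℕ → Prop) (j : ℕ),
      (¬ TB (Φ i (P j).c.1) ∨
        ∃ n, ∀ c, Ext (TE Tr (P j).E) (P j).F (P j).c c → Safe G c → (Φ i c.1).length < n) →
      ∀ f : ℕ → ℕ, (∀ k, TB (pre f k)) → ¬ CompBy (Φ i) X f := by
    intro i TB j hj f hf hc
    rcases hj with h | ⟨n, hn⟩
    · apply h
      have h1 : (P j).c.1 = pre X (P j).c.1.length := hX j
      rw [h1, hc.1]
      exact hf _
    · obtain ⟨k, hk⟩ := hc.2 n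
      obtain ⟨j', hj', hkj'⟩ := hlen k j
      have h1 := hn (resT (TE Tr (P j).E) (P j').c) (hle j j' hj').2.2
        (ordS _ _ (hle j j' hj'))
      rw [resT_fst] at h1
      have h2 : pre X k <+: (P j').c.1 := by
        have h3 : (P j').c.1 = pre X (P j').c.1.length := hX j'
        rw [h3]
        have h4 := MP_8c048d_lc.pre_take X (P j').c.1.length k
        rw [min_eq_left hkj'] at h4
        rw [← h4]
        exact List.take_prefix _ _
      have h3 := (hΦ.mono i _ _ h2).length_le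
      omega
  refine ⟨X, ?_, ?_, ?_⟩
  · rintro ⟨f, hf, hfX⟩
    obtain ⟨i, hi⟩ := (hΦ.spec f X).1 hfX
    obtain ⟨j, -, hj⟩ := hD (.inr (.inr (.inr (.inr (.inl i))))) 0
    exact key i (TPsi G) j hj f hf hi
  · rintro ⟨f, hf, hfX⟩
    obtain ⟨i, hi⟩ := (hΦ.spec f X).1 hfX
    obtain ⟨j, -, hj⟩ := hD (.inr (.inr (.inr (.inr (.inr i))))) 0
    rw [he₀] at hf
    exact key i (Tr e₀) j hj f hf hi
  · intro e
    by_cases hpath : HasPath G (Tr e)
    · exact Or.inl hpath
    right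
    obtain ⟨j₀, -, hj₀⟩ := hD (.inl e) 0
    have he : e ∈ (P j₀).E := hj₀ hpath
    refine hHx Tr G X e (P j₀).c.1.length (fun s ρ => ∃ j, j₀ ≤ j ∧ (e :: s, ρ) ∈ (P j).c.2) hTr
      ?_ ?_ ?_ ?_
    · intro s hs
      obtain ⟨j, hj, hj'⟩ := hD (.inr (.inl (e, s))) j₀
      obtain ⟨ρ, hρ⟩ := hj' hs (hE _ _ hj e he)
      obtain ⟨j', h1, h2⟩ := hD (.inr (.inr (.inr (.inl ((P j₀).c.1.length, e, s, ρ))))) j
      obtain ⟨i, h3, h4, h5⟩ := h2 (hq _ _ h1 _ hρ)
      refine ⟨i, h4, ρ, ⟨j, hj, hρ⟩, ?_⟩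
      rw [← hXi j' i h3]
      exact h5
    · intro i hi s ρ hs hfact
      obtain ⟨j, hj, hj'⟩ := hlen (i + 1) j₀
      have hx' := (hle j₀ j hj).2.2.fact (X i) ?_ (e :: s) ρ hfact ⟨he, hs⟩
      · exact ⟨j, hj, (mem_resT.1 hx').1⟩
      · rw [resT_fst, List.mem_iff_getElem]
        refine ⟨i - (P j₀).c.1.length, ?_, ?_⟩
        · rw [List.length_drop]; omega
        · rw [List.getElem_drop]
          have : (P j₀).c.1.length + (i - (P j₀).c.1.length) = i := by omega
          simp only [this]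
          exact hXi j i (by omega)
    · rintro s ρ ⟨j, hj, hp⟩
      refine ⟨(P j).safe _ hp, ?_⟩
      have := (P j).valid.length_le _ _ hp rfl
      simp only [List.length_cons] at this
      omega
    · rintro s s' ρ ρ' hss ⟨j, hj, hp⟩ ⟨j', hj', hp'⟩
      have h1 := hq j (max j j') (le_max_left _ _) _ hp
      have h2 := hq j' (max j j') (le_max_right _ _) _ hp'
      exact ((P (max j j')).valid.emb _ h1 _ h2).2 (List.cons_prefix_cons.2 ⟨rfl, hss⟩)

end Pool.Agent.Lib.MP_d48993_lc
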