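import Pool.Agent.Lib.MP_d48993_lc.Interfaces

/-!
Module STEP5 of project CUT (helper30).
-/

set_option autoImplicit false

namespace Pool.Agent.Lib.MP_d48993_lc

namespace S5

open MP_8c048d_lc (pre join RecF Sig Clo Cop)

theorem tpsi_prefix {G : ℕ → ℕ} {σ τ : List ℕ} (h : σ <+: τ) (ht : TPsi G τ) : TPsi G σ := by
  obtain ⟨ρ, rfl⟩ := h
  refine ⟨fun n hn => ht.1 n (by simp [hn]), ?_⟩
  intro m hm
  have h1 := ht.2 m (by simp; omega)
  rw [List.getElem_append_left hm, List.take_append_of_le_length hm.le] at h1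
  exact h1

/-- the lookup function -/
def look (p : ℕ × ℕ) : ℕ := (((Encodable.decode (α := List ℕ) p.2).getD [])[p.1]?).getD 0

theorem look_comp : Computable look := by
  have h1 : Computable (fun p : ℕ × ℕ => (Encodable.decode (α := List ℕ) p.2).getD []) :=
    Computable.option_getD (Computable.decode.comp Computable.snd) (Computable.const [])
  exact Computable.option_getD (Computable.list_getElem?.comp h1 Computable.fst)
    (Computable.const 0)

/-- the functional -/
def phi (n : ℕ) (F : ℕ → ℕ) : ℕ :=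
  look (n, F (2 * Encodable.encode (pre (fun i => F (2 * i + 1)) (n + 1))))

theorem phi_rec : RecF phi := by
  have c1 : Computable (fun n : ℕ => 2 * n) :=
    (Primrec.nat_mul.comp (Primrec.const 2) Primrec.id).to_comp
  have c2 : Computable (fun n : ℕ => 2 * n + 1) :=
    (Primrec.nat_add.comp (Primrec.nat_mul.comp (Primrec.const 2) Primrec.id)
      (Primrec.const 1)).to_comp
  have h1 : RecF (fun (p : ℕ × ℕ) F => (fun (_ : ℕ) (F : ℕ → ℕ) (i : ℕ) => F (2 * i + 1)) p.1 F p.2) :=
    MP_8c048d_lc.RecF.at (f := fun p : ℕ × ℕ => 2 * p.2 + 1) (c2.comp Computable.snd)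
  have h2 : RecF (fun (p : ℕ × ℕ) F => pre (fun i => F (2 * i + 1)) p.2) :=
    MP_8c048d_lc.RecF.pre' (Ψ := fun (_ : ℕ) (F : ℕ → ℕ) (i : ℕ) => F (2 * i + 1)) h1
  have h3 : RecF (fun (n : ℕ) F => pre (fun i => F (2 * i + 1)) (n + 1)) :=
    h2.comp₁ (f := fun n : ℕ => (n, n + 1)) (Computable.pair Computable.id Computable.succ)
  have h4 : RecF (fun (n : ℕ) F => 2 * Encodable.encode (pre (fun i => F (2 * i + 1)) (n + 1))) :=
    MP_8c048d_lc.RecF.comp (g := fun l : List ℕ => 2 * Encodable.encode l)
      (c1.comp Computable.encode) h3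
  have h5 := MP_8c048d_lc.RecF.app h4
  exact MP_8c048d_lc.RecF.comp look_comp
    (MP_8c048d_lc.RecF.pair (MP_8c048d_lc.RecF.of_computable Computable.id) h5)

theorem phi_join (h f : ℕ → ℕ) (n : ℕ) :
    phi n (join h f) = look (n, h (Encodable.encode (pre f (n + 1)))) := by
  unfold phi
  have h1 : (fun i => join h f (2 * i + 1)) = f := by
    funext i
    exact MP_8c048d_lc.join_odd h f i
  rw [h1, MP_8c048d_lc.join_even]

theorem pre_prefix (f : ℕ → ℕ) {j k : ℕ} (h : j ≤ k) : pre f j <+: pre f k := by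
  have := MP_8c048d_lc.pre_take f k j
  rw [min_eq_left h] at this
  rw [← this]
  exact List.take_prefix _ _

end S5

open S5 MP_8c048d_lc in
/-- Module STEP5. -/
theorem step5 (r1 : Red1Statement) (rj : JoinStatement) : Step5Statement := by
  intro G X W f T hH hXW hfW hT
  obtain ⟨H, hHX, hH⟩ := hH
  set h : ℕ → ℕ := fun n => Encodable.encode (H ((Encodable.decode (α := List ℕ) n).getD []))
    with hh
  have hhW : Red h W := Red.trans hHX hXW
  have hj : Red (join h f) W := rj.2.2 h f W hhW hfW
  refine ⟨fun n => S5.phi n (join h f), ?_, Red.trans (r1 S5.phi S5.phi_rec (join h f)) hj⟩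
  intro k
  have hval : ∀ n, S5.phi n (join h f) = ((H (pre f (n + 1)))[n]?).getD 0 := by
    intro n
    rw [S5.phi_join]
    simp only [S5.look, hh, Encodable.encodek, Option.getD_some]
  have hlen : k ≤ (H (pre f k)).length := by
    have := (hH (pre f k) (hT k)).2.1
    rwa [length_pre] at this
  have heq : pre (fun n => S5.phi n (join h f)) k = (H (pre f k)).take k := by
    apply List.ext_getElem?
    intro n
    rw [pre_getElem?, List.getElem?_take]
    split_ifs with hn
    · rw [hval]
      have h1 : pre f (n + 1) <+: pre f k := S5.pre_prefix f (by omega)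
      have h2 := (hH (pre f k) (hT k)).2.2 (pre f (n + 1)) h1
      have h3 := (hH (pre f (n + 1)) (hT (n + 1))).2.1
      rw [length_pre] at h3
      obtain ⟨ρ, hρ⟩ := h2
      have h4 : (H (pre f k))[n]? = (H (pre f (n + 1)))[n]? := by
        rw [← hρ, List.getElem?_append_left (by omega)]
      rw [h4, List.getElem?_eq_getElem (by omega)]
      rfl
    · rfl
  rw [heq]
  exact S5.tpsi_prefix (List.take_prefix _ _) (hH (pre f k) (hT k)).1

end Pool.Agent.Lib.MP_d48993_lc
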