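import Pool.Agent.Lib.MP_d48993_lc.Red

/-!
# Project CUT, module TEC: the disjoint union of finitely many trees
-/

set_option autoImplicit false

namespace Pool.Agent.Lib.MP_d48993_lc

open MP_8c048d_lc (pre join RecF Sig Clo Cop)

theorem mem_list_primrec (E : List ℕ) : PrimrecPred (fun e : ℕ => e ∈ E) := by
  induction E with
  | nil => exact (PrimrecPred.of_eq (Primrec.eq.comp (Primrec.const 0) (Primrec.const 1))
      (fun n => by simp))
  | cons a E ih =>
    refine PrimrecPred.of_eq ((Primrec.eq.comp Primrec.id (Primrec.const a)).or ih) (fun n => ?_)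
    simp

/-- The tree `T_E` is computable. -/
theorem te_comp {Tr : ℕ → List ℕ → Prop} (hTr : ComputablePred (fun p : ℕ × List ℕ => Tr p.1 p.2))
    (E : List ℕ) : ComputablePred (TE Tr E) := by
  classical
  obtain ⟨D, hD⟩ := hTr
  have hE : Computable (fun e : ℕ => decide (e ∈ E)) := by
    obtain ⟨D', h'⟩ := mem_list_primrec E
    exact h'.to_comp.of_eq (fun n => by congr)
  have h1 : Computable (fun p : List ℕ × ℕ => decide (p.2 ∈ E)) := hE.comp Computable.snd
  have h2 : Computable (fun p : List ℕ × ℕ => decide (Tr p.2 p.1.tail)) :=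
    (hD.comp (Computable.pair Computable.snd
      (Primrec.list_tail.to_comp.comp Computable.fst))).of_eq (fun p => by congr)
  have h3 : Computable₂ (fun (σ : List ℕ) (e : ℕ) => decide (e ∈ E) && decide (Tr e σ.tail)) :=
    (Primrec.and.to_comp.comp h1 h2).to₂
  have h4 : Computable (fun σ : List ℕ =>
      (Option.casesOn σ.head? true (fun e => decide (e ∈ E) && decide (Tr e σ.tail)) : Bool)) :=
    Computable.option_casesOn (Primrec.list_head?.to_comp) (Computable.const true) h3
  refine ⟨Classical.decPred _, h4.of_eq (fun σ => ?_)⟩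
  cases σ with
  | nil => simp [TE]
  | cons e s =>
    simp only [TE, List.head?_cons, List.tail_cons, Bool.decide_and]
    congr

theorem te_pc {Tr : ℕ → List ℕ → Prop} (h : ∀ e, PC (Tr e)) (E : List ℕ) : PC (TE Tr E) := by
  intro σ τ hστ hτ
  cases σ with
  | nil => trivial
  | cons e s =>
    cases τ with
    | nil => simp at hστ
    | cons e' t =>
      obtain ⟨rfl, hst⟩ := List.cons_prefix_cons.1 hστ
      exact ⟨hτ.1, h _ _ _ hst hτ.2⟩

theorem pre_shift (f : ℕ → ℕ) (k : ℕ) : pre f (k + 1) = f 0 :: pre (fun n => f (n + 1)) k := by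
  simp only [MP_8c048d_lc.pre, List.range_succ_eq_map, List.map_cons, List.map_map]
  rfl

theorem te_path {Tr : ℕ → List ℕ → Prop} {E : List ℕ} {G : ℕ → ℕ} (h : HasPath G (TE Tr E)) :
    ∃ e ∈ E, HasPath G (Tr e) := by
  obtain ⟨f, hf, hk⟩ := h
  have h1 : ∀ k, f 0 ∈ E ∧ Tr (f 0) (pre (fun n => f (n + 1)) k) := by
    intro k
    have := hk (k + 1)
    rw [pre_shift] at this
    exact this
  refine ⟨f 0, (h1 0).1, fun n => f (n + 1), ?_, fun k => (h1 k).2⟩
  exact red1_trans (φ := fun n F => F (n + 1)) (RecF.at Primrec.succ.to_comp) hf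

theorem tec : TecStatement := by
  intro Tr E h
  exact ⟨te_comp h.comp E, te_pc h.tree E, fun G => te_path⟩

end Pool.Agent.Lib.MP_d48993_lc
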