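import Pool.Agent.Lib.MP_d48993_lc.Interfaces

/-!
# Project CUT, module THETA: the dichotomy is a `Σ¹₁` relation
-/

set_option autoImplicit false

namespace Pool.Agent.Lib.MP_d48993_lc.ThetaMod

open Pool.Agent.Lib.MP_8c048d_lc

variable {α β : Type} [Primcodable α] [Primcodable β]

theorem c_initial : ComputablePred (fun p : List ℕ × List ℕ => p.1 <+: p.2) := by
  have h : PrimrecPred (fun p : List ℕ × List ℕ => p.1 = p.2.take p.1.length) :=
    PrimrecRel.comp Primrec.eq Primrec.fst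
      (Primrec.list_take.comp (Primrec.list_length.comp Primrec.fst) Primrec.snd)
  exact h.computablePred.of_eq fun p => List.prefix_iff_eq_take.symm

theorem c_eqList : ComputablePred (fun p : List ℕ × List ℕ => p.1 = p.2) :=
  PrimrecPred.computablePred (PrimrecRel.comp Primrec.eq Primrec.fst Primrec.snd)

theorem c_le : ComputablePred (fun p : ℕ × ℕ => p.1 ≤ p.2) :=
  PrimrecPred.computablePred (PrimrecRel.comp Primrec.nat_le Primrec.fst Primrec.snd)

theorem c_eqNat : ComputablePred (fun p : ℕ × ℕ => p.1 = p.2) :=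
  PrimrecPred.computablePred (PrimrecRel.comp Primrec.eq Primrec.fst Primrec.snd)

/-- `CompBy` is arithmetical. -/
theorem compBy_del {Φ : ℕ → List ℕ → List ℕ} (hΦ : Computable₂ Φ)
    {A B : α → (ℕ → ℕ) → ℕ → ℕ} (hA : RecF (fun (p : α × ℕ) F => A p.1 F p.2))
    (hB : RecF (fun (p : α × ℕ) F => B p.1 F p.2)) :
    Del (fun (p : α × ℕ) F => CompBy (Φ p.2) (A p.1 F) (B p.1 F)) := by
  have e1 : RecF (fun (q : (α × ℕ) × ℕ) F => pre (A q.1.1 F) q.2) :=
    hA.pre'.comp₁ (f := fun q : (α × ℕ) × ℕ => (q.1.1, q.2))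
      (Computable.pair (Computable.fst.comp Computable.fst) Computable.snd)
  have e2 : RecF (fun (q : (α × ℕ) × ℕ) F => Φ q.1.2 (pre (A q.1.1 F) q.2)) :=
    ((RecF.of_computable (α := (α × ℕ) × ℕ) (f := fun q => q.1.2)
      (Computable.snd.comp Computable.fst)).pair e1).comp (g := fun x : ℕ × List ℕ => Φ x.1 x.2) hΦ
  have e3 : RecF (fun (q : (α × ℕ) × ℕ) F =>
      pre (B q.1.1 F) (Φ q.1.2 (pre (A q.1.1 F) q.2)).length) :=
    RecF.bind (φ := fun (x : α × ℕ) F => pre (B x.1 F) x.2) hB.pre'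
      (f := fun (q : (α × ℕ) × ℕ) F => (q.1.1, (Φ q.1.2 (pre (A q.1.1 F) q.2)).length))
      ((RecF.of_computable (Computable.fst.comp Computable.fst)).pair
        (e2.comp Computable.list_length))
  have e4 : Cop (fun (q : (α × ℕ) × ℕ) F => Φ q.1.2 (pre (A q.1.1 F) q.2) =
      pre (B q.1.1 F) (Φ q.1.2 (pre (A q.1.1 F) q.2)).length) :=
    Cop.of_recF (e2.pair e3) (p := fun x : List ℕ × List ℕ => x.1 = x.2) c_eqList
  have e5 : RecF (fun (q : ((α × ℕ) × ℕ) × ℕ) F =>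
      (q.1.2, (Φ q.1.1.2 (pre (A q.1.1.1 F) q.2)).length)) :=
    (RecF.of_computable (Computable.snd.comp Computable.fst)).pair
      ((e2.comp Computable.list_length).comp₁ (f := fun q : ((α × ℕ) × ℕ) × ℕ => (q.1.1, q.2))
        (Computable.pair (Computable.fst.comp Computable.fst) Computable.snd))
  have e6 : Cop (fun (q : ((α × ℕ) × ℕ) × ℕ) F =>
      q.1.2 ≤ (Φ q.1.1.2 (pre (A q.1.1.1 F) q.2)).length) :=
    Cop.of_recF e5 (p := fun x : ℕ × ℕ => x.1 ≤ x.2) c_le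
  have e7 : Del (fun (p : α × ℕ) F => ∀ k, Φ p.2 (pre (A p.1 F) k) =
      pre (B p.1 F) (Φ p.2 (pre (A p.1 F) k)).length) :=
    Del.all (P := fun (p : α × ℕ) (k : ℕ) F => Φ p.2 (pre (A p.1 F) k) =
      pre (B p.1 F) (Φ p.2 (pre (A p.1 F) k)).length) e4.del
  have e8 : Del (fun (p : (α × ℕ) × ℕ) F => ∃ k, p.2 ≤ (Φ p.1.2 (pre (A p.1.1 F) k)).length) :=
    Del.ex (P := fun (p : (α × ℕ) × ℕ) (k : ℕ) F =>
      p.2 ≤ (Φ p.1.2 (pre (A p.1.1 F) k)).length) e6.del
  have e9 : Del (fun (p : α × ℕ) F => ∀ n, ∃ k, n ≤ (Φ p.2 (pre (A p.1 F) k)).length) :=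
    Del.all (P := fun (p : α × ℕ) (n : ℕ) F => ∃ k, n ≤ (Φ p.2 (pre (A p.1 F) k)).length) e8
  exact e7.and e9

/-- Turing reducibility is `Σ¹₁`. -/
theorem red_sig {Φ : ℕ → List ℕ → List ℕ} (hΦ : IsEnum Φ)
    {A B : α → (ℕ → ℕ) → ℕ → ℕ} (hA : RecF (fun (p : α × ℕ) F => A p.1 F p.2))
    (hB : RecF (fun (p : α × ℕ) F => B p.1 F p.2)) :
    Sig (fun (a : α) F => Red (B a F) (A a F)) :=
  (Sig.ex (P := fun (a : α) (i : ℕ) F => CompBy (Φ i) (A a F) (B a F))
    (compBy_del hΦ.comp hA hB).1).congr fun a F => (hΦ.spec _ _).symm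

theorem tpsi_iff (G : ℕ → ℕ) (σ : List ℕ) : TPsi G σ ↔ ∀ m < σ.length,
    σ.getD m 0 < 4 ∧ σ.getD m 0 ≠ G (Encodable.encode (σ.take m)) % 4 := by
  unfold TPsi psi
  constructor
  · rintro ⟨h1, h2⟩ m hm
    have h3 : σ.getD m 0 = σ[m] := by simp [List.getD_eq_getElem?_getD, hm]
    rw [h3]
    exact ⟨h1 _ (List.getElem_mem hm), h2 m hm⟩
  · intro h
    constructor
    · intro x hx
      obtain ⟨m, hm, rfl⟩ := List.getElem_of_mem hx
      have h3 : σ.getD m 0 = σ[m] := by simp [List.getD_eq_getElem?_getD, hm]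
      rw [← h3]
      exact (h m hm).1
    · intro m hm
      have h3 : σ.getD m 0 = σ[m] := by simp [List.getD_eq_getElem?_getD, hm]
      rw [← h3]
      exact (h m hm).2

theorem tpsi_cop0 : Cop (fun (σ : List ℕ) (G : ℕ → ℕ) => TPsi G σ) := by
  have e1 : RecF (fun (p : List ℕ × ℕ) (G : ℕ → ℕ) =>
      (p.1.getD p.2 0, G (Encodable.encode (p.1.take p.2)))) := by
    refine (RecF.of_computable ?_).pair (RecF.at ?_)
    · exact (Primrec.list_getD 0).to_comp.comp Computable.fst Computable.snd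
    · exact Computable.encode.comp
        ((Primrec.list_take (α := ℕ)).to_comp.comp Computable.snd Computable.fst)
  have e2 : ComputablePred (fun x : ℕ × ℕ => x.1 < 4 ∧ x.1 ≠ x.2 % 4) := by
    have h1 : PrimrecPred (fun x : ℕ × ℕ => x.1 < 4) :=
      PrimrecRel.comp Primrec.nat_lt Primrec.fst (Primrec.const 4)
    have h2 : PrimrecPred (fun x : ℕ × ℕ => x.1 = x.2 % 4) :=
      PrimrecRel.comp Primrec.eq Primrec.fst
        (Primrec.nat_mod.comp Primrec.snd (Primrec.const 4))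
    exact PrimrecPred.computablePred (h1.and h2.not)
  have e3 : Cop (fun (p : List ℕ × ℕ) (G : ℕ → ℕ) => p.1.getD p.2 0 < 4 ∧
      p.1.getD p.2 0 ≠ G (Encodable.encode (p.1.take p.2)) % 4) :=
    Cop.of_recF e1 (p := fun x : ℕ × ℕ => x.1 < 4 ∧ x.1 ≠ x.2 % 4) e2
  exact (Cop.ball (P := fun (σ : List ℕ) (m : ℕ) (G : ℕ → ℕ) => σ.getD m 0 < 4 ∧
      σ.getD m 0 ≠ G (Encodable.encode (σ.take m)) % 4) e3 Computable.list_length).congr
    fun σ G => (tpsi_iff G σ).symm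

theorem tpsi_cop {S : α → (ℕ → ℕ) → List ℕ} (hS : RecF S) {A : α → (ℕ → ℕ) → ℕ → ℕ}
    (hA : RecF (fun (p : α × ℕ) F => A p.1 F p.2)) : Cop (fun (a : α) F => TPsi (A a F) (S a F)) :=
  tpsi_cop0.subst hS hA

/-- the map of strings given by a function -/
def dec (h : ℕ → ℕ) (s : List ℕ) : List ℕ :=
  (Encodable.decode (α := List ℕ) (h (Encodable.encode s))).getD []

theorem dec_recF {S : α → (ℕ → ℕ) → List ℕ} (hS : RecF S) {A : α → (ℕ → ℕ) → ℕ → ℕ}
    (hA : RecF (fun (p : α × ℕ) F => A p.1 F p.2)) : RecF (fun (a : α) F => dec (A a F) (S a F)) := by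
  have e0 : RecF (fun (s : List ℕ) (F : ℕ → ℕ) => F (Encodable.encode s)) :=
    RecF.at Computable.encode
  have e1 : Computable (fun n : ℕ => (Encodable.decode (α := List ℕ) n).getD []) :=
    Computable.option_getD Computable.decode (Computable.const [])
  exact (e0.comp e1).subst hS hA

theorem hmap_iff (X G : ℕ → ℕ) (T : List ℕ → Prop) : HMap X G T ↔ ∃ h : ℕ → ℕ, Red h X ∧
    ∀ s, T s → (TPsi G (dec h s) ∧ s.length ≤ (dec h s).length) ∧
      ∀ s', s' <+: s → dec h s' <+: dec h s := by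
  constructor
  · rintro ⟨H, h1, h2⟩
    refine ⟨_, h1, ?_⟩
    have h3 : ∀ s, dec (fun n => Encodable.encode
        (H ((Encodable.decode (α := List ℕ) n).getD []))) s = H s := by
      intro s
      simp [dec]
    intro s hs
    simp only [h3]
    exact ⟨⟨(h2 s hs).1, (h2 s hs).2.1⟩, (h2 s hs).2.2⟩
  · rintro ⟨h, h1, h2⟩
    refine ⟨dec h, ?_, fun s hs => ⟨(h2 s hs).1.1, (h2 s hs).1.2, (h2 s hs).2⟩⟩
    have h3 : (fun n => Encodable.encode (dec h ((Encodable.decode (α := List ℕ) n).getD []))) =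
        h := by
      funext n
      simp [dec, Denumerable.decode_eq_ofNat]
    rw [h3]
    exact h1

/-- THETA -/
theorem theta : ThetaStatement := by
  intro Φ Tr G hΦ hTr hG
  obtain ⟨g, hg, hlim⟩ := hG
  -- codes
  have cadd : Computable₂ (fun a b : ℕ => a + b) := Primrec.nat_add.to_comp
  have cmul : Computable₂ (fun a b : ℕ => a * b) := Primrec.nat_mul.to_comp
  have cdbl : ∀ {γ : Type} [Primcodable γ] {f : γ → ℕ}, Computable f →
      Computable (fun a => 2 * f a) := fun hf => cmul.comp (Computable.const 2) hf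
  have cdbl1 : ∀ {γ : Type} [Primcodable γ] {f : γ → ℕ}, Computable f →
      Computable (fun a => 2 * f a + 1) := fun hf => cadd.comp (cdbl hf) (Computable.const 1)
  -- paths: `K = join E f`, `E = join Y G`
  have p1 : Sig (fun (_ : ℕ) (K : ℕ → ℕ) => Red (fun i => K (2 * i + 1))
      (fun i => K (2 * (2 * i + 1)))) :=
    red_sig (α := ℕ) hΦ (A := fun _ K i => K (2 * (2 * i + 1))) (B := fun _ K i => K (2 * i + 1))
      (RecF.at (cdbl (cdbl1 Computable.snd))) (RecF.at (cdbl1 Computable.snd))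
  have p2 : RecF (fun (p : ℕ × ℕ) (K : ℕ → ℕ) => (p.1, pre (fun i => K (2 * i + 1)) p.2)) := by
    refine (RecF.of_computable Computable.fst).pair ?_
    exact RecF.pre' (Ψ := fun (_ : ℕ) K i => K (2 * i + 1)) (RecF.at (cdbl1 Computable.snd))
  have p3 : Cop (fun (p : ℕ × ℕ) (K : ℕ → ℕ) => Tr p.1 (pre (fun i => K (2 * i + 1)) p.2)) :=
    Cop.of_recF p2 (p := fun x : ℕ × List ℕ => Tr x.1 x.2) hTr.comp
  have p4 : Sig (fun (e : ℕ) (K : ℕ → ℕ) => ∀ k, Tr e (pre (fun i => K (2 * i + 1)) k)) :=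
    Sig.all (P := fun (e : ℕ) (k : ℕ) (K : ℕ → ℕ) => Tr e (pre (fun i => K (2 * i + 1)) k)) p3.del.1
  have p5 : Sig (fun (e : ℕ) (E : ℕ → ℕ) => HasPath (fun i => E (2 * i + 1)) (Tr e)) := by
    refine (Sig.exF (p1.and p4)).congr ?_
    intro e E
    simp only [join_odd, join_even]
    rfl
  -- maps: `K = join E h`, `E = join Y G`
  have q1 : Sig (fun (_ : ℕ) (K : ℕ → ℕ) => Red (fun i => K (2 * i + 1))
      (fun i => K (2 * (2 * i)))) :=
    red_sig (α := ℕ) hΦ (A := fun _ K i => K (2 * (2 * i))) (B := fun _ K i => K (2 * i + 1))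
      (RecF.at (cdbl (cdbl Computable.snd))) (RecF.at (cdbl1 Computable.snd))
  have q2 : RecF (fun (p : ℕ × List ℕ) (K : ℕ → ℕ) => dec (fun i => K (2 * i + 1)) p.2) :=
    dec_recF (α := ℕ × List ℕ) (S := fun p _ => p.2) (A := fun _ K i => K (2 * i + 1))
      (RecF.of_computable Computable.snd) (RecF.at (cdbl1 Computable.snd))
  have q3 : Cop (fun (p : ℕ × List ℕ) (K : ℕ → ℕ) =>
      TPsi (fun i => K (2 * (2 * i + 1))) (dec (fun i => K (2 * i + 1)) p.2)) :=
    tpsi_cop (α := ℕ × List ℕ) (A := fun _ K i => K (2 * (2 * i + 1))) q2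
      (RecF.at (cdbl (cdbl1 Computable.snd)))
  have q4 : Cop (fun (p : ℕ × List ℕ) (K : ℕ → ℕ) =>
      p.2.length ≤ (dec (fun i => K (2 * i + 1)) p.2).length) :=
    Cop.of_recF (φ := fun (p : ℕ × List ℕ) (K : ℕ → ℕ) =>
      (p.2.length, (dec (fun i => K (2 * i + 1)) p.2).length))
      ((RecF.of_computable (Computable.list_length.comp Computable.snd)).pair
        (q2.comp Computable.list_length)) (p := fun x : ℕ × ℕ => x.1 ≤ x.2) c_le
  have q5 : Cop (fun (p : (ℕ × List ℕ) × List ℕ) (_ : ℕ → ℕ) => p.2 <+: p.1.2) :=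
    Cop.of_recF (φ := fun (p : (ℕ × List ℕ) × List ℕ) (_ : ℕ → ℕ) => (p.2, p.1.2))
      (RecF.of_computable (Computable.pair Computable.snd (Computable.snd.comp Computable.fst)))
      (p := fun x : List ℕ × List ℕ => x.1 <+: x.2) c_initial
  have q6 : Cop (fun (p : (ℕ × List ℕ) × List ℕ) (K : ℕ → ℕ) =>
      dec (fun i => K (2 * i + 1)) p.2 <+: dec (fun i => K (2 * i + 1)) p.1.2) :=
    Cop.of_recF (φ := fun (p : (ℕ × List ℕ) × List ℕ) (K : ℕ → ℕ) =>
      (dec (fun i => K (2 * i + 1)) p.2, dec (fun i => K (2 * i + 1)) p.1.2))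
      ((q2.comp₁ (f := fun p : (ℕ × List ℕ) × List ℕ => (p.1.1, p.2)) (Computable.pair
        (Computable.fst.comp Computable.fst) Computable.snd)).pair
        (q2.comp₁ (f := fun p : (ℕ × List ℕ) × List ℕ => p.1) Computable.fst))
      (p := fun x : List ℕ × List ℕ => x.1 <+: x.2) c_initial
  have q7 : Del (fun (p : ℕ × List ℕ) (K : ℕ → ℕ) => ∀ s', s' <+: p.2 →
      dec (fun i => K (2 * i + 1)) s' <+: dec (fun i => K (2 * i + 1)) p.2) :=
    Del.all (P := fun (p : ℕ × List ℕ) (s' : List ℕ) (K : ℕ → ℕ) => s' <+: p.2 →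
      dec (fun i => K (2 * i + 1)) s' <+: dec (fun i => K (2 * i + 1)) p.2) (q5.imp q6).del
  have q8 : Cop (fun (p : ℕ × List ℕ) (_ : ℕ → ℕ) => Tr p.1 p.2) := Cop.of_computable hTr.comp
  have q9 : Del (fun (e : ℕ) (K : ℕ → ℕ) => ∀ s, Tr e s →
      (TPsi (fun i => K (2 * (2 * i + 1))) (dec (fun i => K (2 * i + 1)) s) ∧
        s.length ≤ (dec (fun i => K (2 * i + 1)) s).length) ∧
      ∀ s', s' <+: s → dec (fun i => K (2 * i + 1)) s' <+: dec (fun i => K (2 * i + 1)) s) :=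
    Del.all (P := fun (e : ℕ) (s : List ℕ) (K : ℕ → ℕ) => Tr e s →
      (TPsi (fun i => K (2 * (2 * i + 1))) (dec (fun i => K (2 * i + 1)) s) ∧
        s.length ≤ (dec (fun i => K (2 * i + 1)) s).length) ∧
      ∀ s', s' <+: s → dec (fun i => K (2 * i + 1)) s' <+: dec (fun i => K (2 * i + 1)) s)
      (Del.imp q8.del ((q3.and q4).del.and q7))
  have q10 : Sig (fun (e : ℕ) (E : ℕ → ℕ) =>
      HMap (fun i => E (2 * i)) (fun i => E (2 * i + 1)) (Tr e)) := by
    refine (Sig.exF (q1.and q9.1)).congr ?_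
    intro e E
    simp only [join_odd, join_even]
    exact (hmap_iff _ _ _).symm
  have r1 : Sig (fun (_ : Unit) (E : ℕ → ℕ) =>
      Theta Tr (fun i => E (2 * i + 1)) (fun i => E (2 * i))) :=
    Sig.all (P := fun (_ : Unit) (e : ℕ) (E : ℕ → ℕ) => HasPath (fun i => E (2 * i + 1)) (Tr e) ∨
      HMap (fun i => E (2 * i)) (fun i => E (2 * i + 1)) (Tr e))
      ((p5.or q10).comp (f := fun p : Unit × ℕ => p.2) Computable.snd)
  -- the graph of `G`
  have s1 : Cop (fun (p : ((Unit × ℕ) × ℕ) × ℕ) (E : ℕ → ℕ) =>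
      p.1.2 ≤ p.2 → g p.2 p.1.1.2 = E (2 * p.1.1.2 + 1)) := by
    refine Cop.imp ?_ ?_
    · exact Cop.of_recF (φ := fun (p : ((Unit × ℕ) × ℕ) × ℕ) (_ : ℕ → ℕ) => (p.1.2, p.2))
        (RecF.of_computable (Computable.pair (Computable.snd.comp Computable.fst) Computable.snd))
        (p := fun x : ℕ × ℕ => x.1 ≤ x.2) c_le
    · exact Cop.of_recF (φ := fun (p : ((Unit × ℕ) × ℕ) × ℕ) (E : ℕ → ℕ) =>
        (g p.2 p.1.1.2, E (2 * p.1.1.2 + 1)))
        ((RecF.of_computable (hg.comp Computable.snd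
          (Computable.snd.comp (Computable.fst.comp Computable.fst)))).pair
          (RecF.at (cdbl1 (Computable.snd.comp (Computable.fst.comp Computable.fst)))))
        (p := fun x : ℕ × ℕ => x.1 = x.2) c_eqNat
  have s2 : Del (fun (_ : Unit) (E : ℕ → ℕ) => ∀ n, ∃ s0, ∀ s, s0 ≤ s → g s n = E (2 * n + 1)) :=
    Del.all (P := fun (_ : Unit) (n : ℕ) (E : ℕ → ℕ) => ∃ s0, ∀ s, s0 ≤ s → g s n = E (2 * n + 1))
      (Del.ex (P := fun (p : Unit × ℕ) (s0 : ℕ) (E : ℕ → ℕ) =>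
        ∀ s, s0 ≤ s → g s p.2 = E (2 * p.2 + 1))
        (Del.all (P := fun (p : (Unit × ℕ) × ℕ) (s : ℕ) (E : ℕ → ℕ) =>
          p.2 ≤ s → g s p.1.2 = E (2 * p.1.2 + 1)) s1.del))
  refine (Sig.exF (s2.1.and r1)).congr ?_
  intro _ Y
  simp only [join_odd, join_even]
  constructor
  · rintro ⟨G', h1, h2⟩
    have h3 : G' = G := by
      funext n
      obtain ⟨a, ha⟩ := h1 n
      obtain ⟨b, hb⟩ := hlim n
      rw [← ha (max a b) (le_max_left _ _), hb (max a b) (le_max_right _ _)]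
    have h4 : Theta Tr G' Y := h2
    rwa [h3] at h4
  · intro h
    exact ⟨G, hlim, h⟩

end Pool.Agent.Lib.MP_d48993_lc.ThetaMod
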