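import Pool.Agent.Lib.MP_d48993_lc.Interfaces

/-!
# Module TRANS
-/

set_option autoImplicit false

namespace Pool.Agent.Lib.MP_d48993_lc

/-- images are unique -/
theorem Valid.uniq {T : List ℕ → Prop} {q : List (List ℕ × List ℕ)} (h : Valid T q)
    {p p' : List ℕ × List ℕ} (hp : p ∈ q) (hp' : p' ∈ q) (h1 : p.1 = p'.1) : p = p' := by
  have h2 : p.2 <+: p'.2 := (h.emb p hp p' hp').2 (h1 ▸ List.prefix_rfl)
  have h3 : p'.2 <+: p.2 := (h.emb p' hp' p hp).2 (h1 ▸ List.prefix_rfl)
  have h4 : p.2 = p'.2 := h2.eq_of_length (le_antisymm h2.length_le h3.length_le)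
  exact Prod.ext h1 h4

/-- images of the same length are equal -/
theorem Valid.uniq_len {T : List ℕ → Prop} {q : List (List ℕ × List ℕ)} (h : Valid T q)
    {p p' : List ℕ × List ℕ} (hp : p ∈ q) (hp' : p' ∈ q) (h1 : p.2.length = p'.2.length) :
    p = p' := h.uniq hp hp' (h.len p hp p' hp' h1)

/-- the domain is closed under prefixes -/
theorem Valid.dom {T : List ℕ → Prop} {q : List (List ℕ × List ℕ)} (h : Valid T q) :
    ∀ (m : ℕ) (p : List ℕ × List ℕ), p ∈ q → p.1.length ≤ m → ∀ t, t <+: p.1 →
      ∃ p' ∈ q, p'.1 = t := by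
  intro m
  induction m with
  | zero =>
    intro p hp hm t ht
    have h1 : p.1 = [] := List.length_eq_zero_iff.1 (by omega)
    rw [h1, List.prefix_nil] at ht
    exact ⟨p, hp, by rw [h1, ht]⟩
  | succ m ih =>
    intro p hp hm t ht
    by_cases h1 : t = p.1
    · exact ⟨p, hp, h1.symm⟩
    · have h2 : p.1 ≠ [] := by
        intro h3
        rw [h3, List.prefix_nil] at ht
        exact h1 (by rw [ht, h3])
      obtain ⟨p', hp', h3⟩ := h.parent p hp h2
      refine ih p' hp' ?_ t ?_
      · rw [h3, List.length_dropLast]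
        omega
      · rw [h3]
        have h4 : t.length < p.1.length := by
          by_contra h5
          exact h1 (ht.eq_of_length (le_antisymm ht.length_le (by omega)))
        rw [List.dropLast_eq_take]
        rw [List.prefix_take_iff]
        exact ⟨ht, by omega⟩

/-- Module TRANS -/
theorem trans : ExtTransStatement := by
  refine ⟨fun T F c hc => ?_, fun T F F' c c' c'' hF h h' => ?_⟩
  · refine ⟨hc, List.prefix_rfl, fun p hp => hp, fun p hp hp' => absurd hp hp', fun n hn => ?_⟩
    rw [List.drop_length] at hn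
    exact absurd hn List.not_mem_nil
  · refine ⟨h'.valid, h.px.trans h'.px, fun p hp => h'.sub p (h.sub p hp), ?_, ?_⟩
    · intro p hp hpc p' hp' hpar π hπ hπp
      by_cases hpc' : p ∈ c'.2
      · by_cases hnil : p.1 = []
        · have h1 : p'.1 = p.1 := by rw [hpar, hnil]; rfl
          rw [h'.valid.uniq hp' hp h1]
          exact hπp
        · obtain ⟨p₂, hp₂, h2⟩ := h.valid.parent p hpc' hnil
          have h3 : p' = p₂ := h'.valid.uniq hp' (h'.sub p₂ hp₂) (by rw [hpar, h2])
          rw [h3]
          exact h.frozen p hpc' hpc p₂ hp₂ h2 π hπ hπp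
      · exact h'.frozen p hp hpc' p' hp' hpar π (hF hπ) hπp
    · intro n hn s ρ hfact hT
      obtain ⟨a, ha⟩ := h.px
      obtain ⟨b, hb⟩ := h'.px
      rw [← hb, ← ha, List.append_assoc, List.drop_left, List.mem_append] at hn
      rcases hn with hn | hn
      · refine h'.sub _ (h.fact n ?_ s ρ hfact hT)
        rw [← ha, List.drop_left]
        exact hn
      · refine h'.fact n ?_ s ρ hfact hT
        rw [← hb, List.drop_left]
        exact hn

end Pool.Agent.Lib.MP_d48993_lc
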