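import Pool.Agent.Lib.MP_d48993_lc.Interfaces

/-!
# CUT, module TREES (helper24)
-/

set_option autoImplicit false

namespace Pool.Agent.Lib.MP_d48993_lc

open MP_8c048d_lc (pre join RecF Sig Clo Cop)
open Nat.Partrec (Code)

namespace Trees

theorem srch_none {α β : Type} [Primcodable α] [Primcodable β]
    {q : α × List ℕ → Option β} {p : α × List ℕ} {n : ℕ} :
    MP_8c048d_lc.srch q p n = none ↔ ∀ j ≤ n, q (p.1, p.2.take j) = none := by
  constructor
  · intro h j hj
    by_contra hne
    have h1 : (q (p.1, p.2.take j)).isSome := Option.ne_none_iff_isSome.1 hne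
    have h2 := MP_8c048d_lc.srch_isSome hj h1
    rw [h] at h2
    simp at h2
  · intro h
    by_contra hne
    obtain ⟨b, hb⟩ := Option.ne_none_iff_exists'.1 hne
    obtain ⟨j, hj, hj'⟩ := MP_8c048d_lc.srch_sound hb
    rw [h j hj] at hj'
    simp at hj'

/-- bounded halting -/
def qT (p : (ℕ × ℕ) × List ℕ) : Option ℕ :=
  Code.evaln p.1.2 (Denumerable.ofNat Code p.1.1) (Encodable.encode p.2)

theorem qT_comp : Computable qT := by
  have h : Primrec (fun p : (ℕ × ℕ) × List ℕ =>
      (((p.1.2, Denumerable.ofNat Code p.1.1), Encodable.encode p.2) : (ℕ × Code) × ℕ)) :=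
    ((Primrec.snd.comp Primrec.fst).pair ((Primrec.ofNat Code).comp
      (Primrec.fst.comp Primrec.fst))).pair (Primrec.encode.comp Primrec.snd)
  exact (Code.primrec_evaln.comp h).to_comp

/-- the list of trees -/
def Tr (e : ℕ) (σ : List ℕ) : Prop :=
  MP_8c048d_lc.srch qT ((e, σ.length), σ) σ.length = none

theorem Tr_iff {e : ℕ} {σ : List ℕ} : Tr e σ ↔ ∀ j ≤ σ.length,
    Code.evaln σ.length (Denumerable.ofNat Code e) (Encodable.encode (σ.take j)) = none := by
  unfold Tr
  rw [srch_none]
  rfl

theorem Tr_comp : ComputablePred (fun p : ℕ × List ℕ => Tr p.1 p.2) := by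
  rw [ComputablePred.computable_iff]
  refine ⟨fun p => !(MP_8c048d_lc.srch qT ((p.1, p.2.length), p.2) p.2.length).isSome, ?_, ?_⟩
  · have h1 : Computable (fun p : ℕ × List ℕ =>
        MP_8c048d_lc.srch qT ((p.1, p.2.length), p.2) p.2.length) :=
      (MP_8c048d_lc.srch_comp qT_comp).comp
        (f := fun z : (ℕ × ℕ) × List ℕ => MP_8c048d_lc.srch qT z z.2.length)
        (g := fun p : ℕ × List ℕ => ((p.1, p.2.length), p.2))
        ((Computable.fst.pair (Computable.list_length.comp Computable.snd)).pair Computable.snd)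
    exact Primrec.not.to_comp.comp (Primrec.option_isSome.to_comp.comp h1)
  · funext p
    simp [Tr]

theorem Tr_tree (e : ℕ) (σ τ : List ℕ) (h : σ <+: τ) (hτ : Tr e τ) : Tr e σ := by
  rw [Tr_iff] at hτ ⊢
  intro j hj
  obtain ⟨ρ, rfl⟩ := h
  have h1 := hτ j (by rw [List.length_append]; omega)
  rw [List.take_append_of_le_length hj] at h1
  by_contra hne
  obtain ⟨b, hb⟩ := Option.ne_none_iff_exists'.1 hne
  have h2 := Code.evaln_mono (k₂ := (σ ++ ρ).length) (by rw [List.length_append]; omega)
    (show b ∈ _ from hb)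
  rw [h1] at h2
  simp at h2

theorem Tr_all (P : Set (ℕ → ℕ)) (hP : ClosedC P) : ∃ e, P = {f | ∀ k, Tr e (pre f k)} := by
  obtain ⟨d, hd, hP⟩ := hP
  obtain ⟨q, hq, h1, h2⟩ := hd.mono
  have hmem : ∀ F, F ∈ P ↔ ∀ m j, q (((), m), pre F j) ≠ some false := by
    intro F
    have hP' : F ∈ P ↔ ∀ m : ℕ, d ((), m) F = true := hP () F
    rw [hP']
    constructor
    · intro h m j hc
      have := h1 _ _ _ _ hc
      rw [h m] at this
      simp at this
    · intro h m
      obtain ⟨k0, hk0⟩ := h2 ((), m) F
      have h3 := h m k0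
      rw [hk0 k0 le_rfl] at h3
      cases hd' : d ((), m) F with
      | true => rfl
      | false => rw [hd'] at h3; exact absurd rfl h3
  -- the bad strings
  let b : List ℕ → Bool := fun τ =>
    !((q (((), τ.length.unpair.1), τ.take τ.length.unpair.2)).getD true)
  have hbi : ∀ o : Option Bool, (!(o.getD true)) = true ↔ o = some false := by
    intro o
    rcases o with _ | _ | _ <;> simp
  have hb : Computable b := by
    have hu : Computable (fun τ : List ℕ => τ.length.unpair) :=
      Computable.unpair.comp Computable.list_length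
    have ha : Computable (fun τ : List ℕ => ((((), τ.length.unpair.1), τ.take τ.length.unpair.2) :
        (Unit × ℕ) × List ℕ)) :=
      ((Computable.const ()).pair (Computable.fst.comp hu)).pair
        ((Primrec.list_take (α := ℕ)).to_comp.comp (Computable.snd.comp hu) Computable.id)
    exact Primrec.not.to_comp.comp (Primrec.option_getD.to_comp.comp (hq.comp ha)
      (Computable.const true))
  have hg : Partrec (fun τ : List ℕ => bif b τ then (Part.some 0 : Part ℕ) else Part.none) :=
    Partrec.cond hb (Computable.const 0).partrec Partrec.none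
  obtain ⟨c, hc⟩ := Code.exists_code.1 hg
  have hdom : ∀ τ : List ℕ, (∃ x, x ∈ c.eval (Encodable.encode τ)) ↔ b τ = true := by
    intro τ
    rw [hc]
    simp only [Encodable.encodek, Part.coe_some, Part.bind_some, Part.mem_map_iff]
    cases hbτ : b τ with
    | true => simp
    | false => simp
  refine ⟨Encodable.encode c, ?_⟩
  ext F
  simp only [Set.mem_ofPred_eq, Tr_iff, Denumerable.ofNat_encode]
  rw [hmem]
  constructor
  · intro h k j _
    by_contra hne
    obtain ⟨x, hx⟩ := Option.ne_none_iff_exists'.1 hne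
    have h3 := (hdom _).1 ⟨x, Code.evaln_sound hx⟩
    rw [MP_8c048d_lc.pre_take] at h3
    simp only [b, MP_8c048d_lc.length_pre, MP_8c048d_lc.pre_take, hbi] at h3
    exact h _ _ h3
  · intro h m j hc'
    set k := Nat.pair m j with hk
    have hjk : j ≤ k := Nat.right_le_pair m j
    have h3 : b (pre F k) = true := by
      simp only [b, MP_8c048d_lc.length_pre, MP_8c048d_lc.pre_take, hbi]
      rw [hk, Nat.unpair_pair]
      simp only
      rw [← hk, min_eq_left hjk]
      exact hc'
    obtain ⟨x, hx⟩ := (hdom _).2 h3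
    obtain ⟨n, hn⟩ := Code.evaln_complete.1 hx
    have h4 := h (max n k) k (by rw [MP_8c048d_lc.length_pre]; exact le_max_right _ _)
    rw [MP_8c048d_lc.pre_take, min_eq_left (le_max_right _ _), MP_8c048d_lc.length_pre] at h4
    have h5 := Code.evaln_mono (le_max_left n k) hn
    rw [h4] at h5
    simp at h5

end Trees

/-- Module TREES. -/
theorem trees : TreeEnumStatement :=
  ⟨Trees.Tr, Trees.Tr_comp, Trees.Tr_tree, Trees.Tr_all⟩

end Pool.Agent.Lib.MP_d48993_lc
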