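import Pool.Agent.Lib.MP_d48993_lc.Final
import Pool.Agent.Lib.MP_d48993_lc.Enum
import Pool.Agent.Lib.MP_d48993_lc.Red
import Pool.Agent.Lib.MP_d48993_lc.Search
import Pool.Agent.Lib.MP_d48993_lc.Cls
import Pool.Agent.Lib.MP_d48993_lc.Trees
import Pool.Agent.Lib.MP_d48993_lc.Ops
import Pool.Agent.Lib.MP_d48993_lc.Pi2
import Pool.Agent.Lib.MP_d48993_lc.H46.Emb
import Pool.Agent.Lib.MP_d48993_lc.B0
import Pool.Agent.Lib.MP_d48993_lc.Cond
import Pool.Agent.Lib.MP_d48993_lc.Trans
import Pool.Agent.Lib.MP_d48993_lc.Ext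
import Pool.Agent.Lib.MP_d48993_lc.H15.G1
import Pool.Agent.Lib.MP_d48993_lc.Step2a
import Pool.Agent.Lib.MP_d48993_lc.Step2b
import Pool.Agent.Lib.MP_d48993_lc.Step2c
import Pool.Agent.Lib.MP_d48993_lc.H7.Ord
import Pool.Agent.Lib.MP_d48993_lc.Tec
import Pool.Agent.Lib.MP_d48993_lc.H15.DecC
import Pool.Agent.Lib.MP_d48993_lc.Hx
import Pool.Agent.Lib.MP_d48993_lc.Step3
import Pool.Agent.Lib.MP_d48993_lc.Step5
import Pool.Agent.Lib.MP_d48993_lc.Theta
import Pool.Agent.Lib.MP_d48993_lc.Res
import Pool.Agent.Lib.MP_d48993_lc.Hide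
import Pool.Agent.Lib.MP_d48993_lc.Gen

/-!
# Project CUT: all modules together
-/

set_option autoImplicit false

namespace Pool.Agent.Lib.MP_d48993_lc

theorem data : Nonempty Data := by
  have hGen : GenericStatement := gen
  have hE : EnumStatement := enum
  have hSearch : SearchStatement := search red1 redMu
  have hCls : ClsStatement := cls
  have hOrd : OrdStatement := H7.ord trans
  have hDens : DensStatement := H7.dens hOrd ext
  have hExt : ExtCompStatement := extComp
  have hSafe : SafeCompStatement := safeComp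
  have hG1 : G1Statement := g1 hExt hSafe
  have h2a : Step2aStatement := step2a hG1 trans
  have h2b : Step2bStatement := step2b h2a hSearch hExt hSafe trans
  have h2c : Step2cStatement := step2c hSearch hExt hSafe trans
  have hTec : TecStatement := tec
  have hDC : DecCStatement := decC h2b hOrd hTec
  have hDB : DecBStatement := decB h2c hOrd hTec
  have hHx : HxStatement := hx red1 redMu joinS
  have h3 : Step3Statement := step3 hOrd hDens hDC hDB hHx
  have h5 : Step5Statement := step5 red1 joinS
  have hTh : ThetaStatement := ThetaMod.theta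
  have hPi2 : Pi2Statement := pi2 redMu joinS
  have hRes : ResStatement := res hSearch hCls
  have hHide : HideStatement := hide hE hRes hPi2 joinS
  exact exists_data hE trees (ops joinS) (gclass red1 hPi2) (H46.emb red1 redMu hCls) hGen
    (b0 hE) h3 h5 hTh hHide

theorem cut : CutStatement := cut_of_data cls data

end Pool.Agent.Lib.MP_d48993_lc
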