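import Pool.Agent.Lib.MP_d48993_lc.Interfaces

/-!
# Project CUT: the theorem from the module statements
-/

set_option autoImplicit false

namespace Pool.Agent.Lib.MP_d48993_lc

open MP_8c048d_lc (pre join RecF Sig Clo Cop)

theorem muchnikLE_iff (P Q : Set (ℕ → ℕ)) : MuchnikLE P Q ↔ Up Q ⊆ Up P := by
  constructor
  · rintro h W ⟨g, hg, hgW⟩
    obtain ⟨f, hf, hfg⟩ := h g hg
    exact ⟨f, hf, hfg.trans hgW⟩
  · intro h g hg
    obtain ⟨f, hf, hfg⟩ := h (show g ∈ Up Q from ⟨g, hg, Red.rfl⟩)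
    exact ⟨f, hf, hfg⟩

theorem self_mem_Up {P : Set (ℕ → ℕ)} {g : ℕ → ℕ} (hg : g ∈ P) : g ∈ Up P := ⟨g, hg, Red.rfl⟩

theorem Up_trans {P : Set (ℕ → ℕ)} {g W : ℕ → ℕ} (hg : g ∈ Up P) (h : Red g W) : W ∈ Up P := by
  obtain ⟨f, hf, hfg⟩ := hg
  exact ⟨f, hf, hfg.trans h⟩

/-- The four classes. -/
structure Data : Type where
  a : Set (ℕ → ℕ)
  c : Set (ℕ → ℕ)
  d : Set (ℕ → ℕ)
  b : Set (ℕ → ℕ)
  ha : a.Nonempty ∧ ClosedC a ∧ Bin a
  hc : c.Nonempty ∧ ClosedC c ∧ Bin c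
  hd : d.Nonempty ∧ ClosedC d ∧ Bin d
  hb : b.Nonempty ∧ ClosedC b ∧ Bin b
  ac : MuchnikLE a c
  nca : ¬ MuchnikLE c a
  cd : MuchnikLE c d
  db : MuchnikLE d b
  nbd : ¬ MuchnikLE b d
  cut : ∀ Z : Set (ℕ → ℕ), ClosedC Z → MuchnikLE a Z → MuchnikLE Z b →
    MuchnikLE c Z ∨ MuchnikLE Z d

theorem exists_data (hE : EnumStatement) (hT : TreeEnumStatement)
    (hO : OpsStatement) (hG : GClassStatement) (hEmb : EmbStatement) (hGen : GenericStatement)
    (hB : B0Statement) (h3 : Step3Statement) (h5 : Step5Statement) (hTh : ThetaStatement)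
    (hH : HideStatement) : Nonempty Data := by
  obtain ⟨Φ, hΦ⟩ := hE
  obtain ⟨Tr, hTr⟩ := hT
  obtain ⟨G, hgen, hlim⟩ := hGen
  obtain ⟨B, hB1, hB2, hB3, hB4⟩ := hB
  have hGB := hB4 G hgen
  obtain ⟨⟨D, hD1, hD2⟩, ⟨C, hC1, hC2⟩, hGC⟩ := hG G hlim
  obtain ⟨⟨U, hU1, hU2⟩, -⟩ := hO C B hC1 hB2
  obtain ⟨X, hX1, hX2, hX3⟩ := h3 Φ Tr G B hΦ hTr hgen hB2 hGB
  have hXU : X ∉ Up U := by
    rw [hU2, hC2]
    rintro (h | h)
    · exact hX1 h
    · exact hX2 h
  obtain ⟨A, hA1, ⟨W0, hW0, hW0U⟩, hA3⟩ := hH U (fun Y => Theta Tr G Y) hU1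
    (hTh Φ Tr G hΦ hTr hlim) ⟨X, hX3, hXU⟩
  -- the dichotomy
  have key : ∀ Z : Set (ℕ → ℕ), ClosedC Z → ∀ W ∈ Z, W ∈ Up A → W ∉ Up U → G ∈ Up Z := by
    intro Z hZ W hWZ hWA hWU
    obtain ⟨W1, hW1, hr1⟩ := hWA
    have hW1U : W1 ∉ Up U := fun h => hWU (Up_trans h hr1)
    obtain ⟨Y, hY1, hY2⟩ := hA3 W1 hW1 hW1U
    obtain ⟨e, he⟩ := hTr.all Z hZ
    rcases hY2 e with h | h
    · obtain ⟨f, hf1, hf2⟩ := h
      refine ⟨f, ?_, hf1⟩
      rw [he]
      exact hf2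
    · exfalso
      apply hWU
      rw [hU2, hC2]
      left
      refine h5 G Y W W (Tr e) h (hY1.trans hr1) Red.rfl ?_
      have := hWZ
      rw [he] at this
      exact this
  have hGA : G ∈ Up A := key A hA1 W0 hW0 (self_mem_Up hW0) hW0U
  obtain ⟨-, ⟨AC, hAC1, hAC2⟩⟩ := hO A C hA1 hC1
  obtain ⟨a, ha1, ha2, ha3, ha4⟩ := hEmb A B hA1 hB1 hB2 hB3
  obtain ⟨c, hc1, hc2, hc3, hc4⟩ := hEmb AC B hAC1 hB1 hB2 hB3
  obtain ⟨d, hd1, hd2, hd3, hd4⟩ := hEmb D B hD1 hB1 hB2 hB3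
  rw [hAC2, hC2] at hc4
  rw [hD2] at hd4
  rw [hC2] at hU2
  refine ⟨⟨a, c, d, B, ⟨ha1, ha2, ha3⟩, ⟨hc1, hc2, hc3⟩, ⟨hd1, hd2, hd3⟩, ⟨hB1, hB2, hB3⟩,
    ?_, ?_, ?_, ?_, ?_, ?_⟩⟩
  · rw [muchnikLE_iff, ha4, hc4]
    exact Set.union_subset_union_left _ Set.inter_subset_left
  · rw [muchnikLE_iff, ha4, hc4]
    intro h
    rcases h (Or.inl (self_mem_Up hW0)) with ⟨-, h⟩ | h
    · exact hW0U (by rw [hU2]; exact Or.inl h)
    · exact hW0U (by rw [hU2]; exact Or.inr h)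
  · rw [muchnikLE_iff, hc4, hd4]
    refine Set.union_subset_union_left _ ?_
    rintro W ⟨g, hg, hgW⟩
    have hg' : g = G := hg
    subst hg'
    exact ⟨Up_trans hGA hgW, Up_trans hGC hgW⟩
  · rw [muchnikLE_iff, hd4]
    exact Set.subset_union_right
  · rw [muchnikLE_iff, hd4]
    intro h
    exact hGB (h (Or.inl (self_mem_Up rfl)))
  · intro Z hZ h1 h2
    by_cases hcz : MuchnikLE c Z
    · exact Or.inl hcz
    right
    have h3 : ∃ W ∈ Z, W ∉ Up c := by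
      by_contra hcon
      push Not at hcon
      apply hcz
      intro g hg
      obtain ⟨f, hf, hfg⟩ := hcon g hg
      exact ⟨f, hf, hfg⟩
    obtain ⟨W, hWZ, hWc⟩ := h3
    have hWa : W ∈ Up a := (muchnikLE_iff _ _).1 h1 (self_mem_Up hWZ)
    rw [hc4] at hWc
    rw [ha4] at hWa
    have hWB : W ∉ Up B := fun h => hWc (Or.inr h)
    have hWA : W ∈ Up A := hWa.resolve_right hWB
    have hWC : W ∉ Up (CPsi G) := fun h => hWc (Or.inl ⟨hWA, h⟩)
    have hWU : W ∉ Up U := by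
      rw [hU2]
      rintro (h | h)
      · exact hWC h
      · exact hWB h
    have hGZ := key Z hZ W hWZ hWA hWU
    rw [muchnikLE_iff, hd4]
    rintro V (hV | hV)
    · obtain ⟨g, hg, hgV⟩ := hV
      have hg' : g = G := hg
      subst hg'
      exact Up_trans hGZ hgV
    · exact (muchnikLE_iff _ _).1 h2 hV

theorem lt_iff_muchnik {P Q : BairePi} :
    toAntisymmetrization (· ≤ ·) P < toAntisymmetrization (· ≤ ·) Q ↔
      MuchnikLE P.1 Q.1 ∧ ¬ MuchnikLE Q.1 P.1 := by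
  rw [toAntisymmetrization_lt_toAntisymmetrization_iff, lt_iff_le_not_ge]
  exact Iff.rfl

theorem cut_of_data (hCls : ClsStatement) (hD : Nonempty Data) : CutStatement := by
  obtain ⟨D⟩ := hD
  constructor
  · let mk : ∀ P : Set (ℕ → ℕ), P.Nonempty ∧ ClosedC P ∧ Bin P → CantorPi :=
      fun P hP => ⟨P, (hCls.2 P).2 hP⟩
    refine ⟨toAntisymmetrization (· ≤ ·) (mk D.a D.ha), toAntisymmetrization (· ≤ ·) (mk D.c D.hc),
      toAntisymmetrization (· ≤ ·) (mk D.d D.hd), toAntisymmetrization (· ≤ ·) (mk D.b D.hb),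
      ?_, ?_, ?_, ?_⟩
    · rw [toAntisymmetrization_lt_toAntisymmetrization_iff, lt_iff_le_not_ge]
      exact ⟨D.ac, D.nca⟩
    · rw [toAntisymmetrization_le_toAntisymmetrization_iff]
      exact D.cd
    · rw [toAntisymmetrization_lt_toAntisymmetrization_iff, lt_iff_le_not_ge]
      exact ⟨D.db, D.nbd⟩
    · intro z
      induction z using Antisymmetrization.ind with
      | _ Z =>
        intro h1 h2
        rw [toAntisymmetrization_le_toAntisymmetrization_iff] at h1 h2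
        rcases D.cut Z.1 ((hCls.2 Z.1).1 Z.2).2.1 h1 h2 with h | h
        · left
          rw [toAntisymmetrization_le_toAntisymmetrization_iff]
          exact h
        · right
          rw [toAntisymmetrization_le_toAntisymmetrization_iff]
          exact h
  · let mk : ∀ P : Set (ℕ → ℕ), P.Nonempty ∧ ClosedC P ∧ Bin P → BairePi :=
      fun P hP => ⟨P, (hCls.1 P).2 ⟨hP.1, hP.2.1⟩⟩
    refine ⟨toAntisymmetrization (· ≤ ·) (mk D.a D.ha), toAntisymmetrization (· ≤ ·) (mk D.c D.hc),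
      toAntisymmetrization (· ≤ ·) (mk D.d D.hd), toAntisymmetrization (· ≤ ·) (mk D.b D.hb),
      ?_, ?_, ?_, ?_⟩
    · rw [toAntisymmetrization_lt_toAntisymmetrization_iff, lt_iff_le_not_ge]
      exact ⟨D.ac, D.nca⟩
    · rw [toAntisymmetrization_le_toAntisymmetrization_iff]
      exact D.cd
    · rw [toAntisymmetrization_lt_toAntisymmetrization_iff, lt_iff_le_not_ge]
      exact ⟨D.db, D.nbd⟩
    · intro z
      induction z using Antisymmetrization.ind with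
      | _ Z =>
        intro h1 h2
        rw [toAntisymmetrization_le_toAntisymmetrization_iff] at h1 h2
        rcases D.cut Z.1 ((hCls.1 Z.1).1 Z.2).2 h1 h2 with h | h
        · left
          rw [toAntisymmetrization_le_toAntisymmetrization_iff]
          exact h
        · right
          rw [toAntisymmetrization_le_toAntisymmetrization_iff]
          exact h

theorem cut_of_statements (hE : EnumStatement) (hCls : ClsStatement) (hT : TreeEnumStatement)
    (hO : OpsStatement) (hG : GClassStatement) (hEmb : EmbStatement) (hGen : GenericStatement)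
    (hB : B0Statement) (h3 : Step3Statement) (h5 : Step5Statement) (hTh : ThetaStatement)
    (hH : HideStatement) : CutStatement :=
  cut_of_data hCls (exists_data hE hT hO hG hEmb hGen hB h3 h5 hTh hH)

end Pool.Agent.Lib.MP_d48993_lc
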