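import Pool.Agent.Lib.MP_d48993_lc.Interfaces

/-!
# Project CUT: the hiding lemma (module HIDE)
-/

set_option autoImplicit false

namespace Pool.Agent.Lib.MP_d48993_lc

open MP_8c048d_lc (pre join RecF Sig Clo Cop join_even join_odd join_eta pre_succ length_pre
  pre_congr pre_getElem?)

namespace Hide

/-- the even part -/
def ev (F : ℕ → ℕ) : ℕ → ℕ := fun i => F (2 * i)

/-- the odd part -/
def od (F : ℕ → ℕ) : ℕ → ℕ := fun i => F (2 * i + 1)

/-- a finite sequence as a function -/
def ext (τ : List ℕ) : ℕ → ℕ := fun i => τ.getD i 0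

theorem ev_join (Y Z : ℕ → ℕ) : ev (join Y Z) = Y := by
  funext i
  exact join_even Y Z i

theorem od_join (Y Z : ℕ → ℕ) : od (join Y Z) = Z := by
  funext i
  exact join_odd Y Z i

theorem join_ev_od (F : ℕ → ℕ) : join (ev F) (od F) = F := join_eta F

theorem ext_pre (f : ℕ → ℕ) {n i : ℕ} (h : i < n) : ext (pre f n) i = f i := by
  unfold ext
  rw [List.getD_eq_getElem?_getD, pre_getElem?, if_pos h]
  rfl

/-- the matrix on finite sequences -/
def DD (q : (Unit × ℕ) × List ℕ → Option Bool) (Y : ℕ → ℕ) (τ : List ℕ) : Prop :=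
  ∀ m < τ.length + 1, ∀ k < τ.length + 1, q (((), m), pre (join Y (ext τ)) k) ≠ some false

theorem dd_spec {d : Unit × ℕ → (ℕ → ℕ) → Bool} {q : (Unit × ℕ) × List ℕ → Option Bool}
    (h1 : ∀ a F k b, q (a, pre F k) = some b → d a F = b)
    (h2 : ∀ a F, ∃ k0, ∀ k, k0 ≤ k → q (a, pre F k) = some (d a F)) (Y f : ℕ → ℕ) :
    (∀ m, d ((), m) (join Y f) = true) ↔ ∀ n, DD q Y (pre f n) := by
  have key : ∀ n k, k < n + 1 → pre (join Y (ext (pre f n))) k = pre (join Y f) k := by
    intro n k hk
    refine pre_congr fun i hi => ?_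
    unfold MP_8c048d_lc.join
    split_ifs with h
    · rfl
    · exact ext_pre f (by omega)
  constructor
  · intro h n m _ k hk
    rw [length_pre] at hk
    rw [key n k hk]
    intro hcon
    have h3 := h1 _ _ _ _ hcon
    rw [h m] at h3
    exact absurd h3 (by decide)
  · intro h m
    obtain ⟨k0, hk0⟩ := h2 ((), m) (join Y f)
    have h3 := h (max m k0) m (by rw [length_pre]; omega) (max m k0) (by rw [length_pre]; omega)
    rw [key _ _ (by omega), hk0 _ (le_max_right _ _)] at h3
    cases hd : d ((), m) (join Y f) with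
    | true => rfl
    | false => rw [hd] at h3; exact absurd rfl h3

theorem c_dbl {α : Type} [Primcodable α] {f : α → ℕ} (hf : Computable f) :
    Computable (fun a => 2 * f a) := by
  have h : Computable₂ (fun a b : ℕ => a * b) := Primrec.nat_mul.to_comp
  exact h.comp (Computable.const 2) hf

theorem c_dbl1 {α : Type} [Primcodable α] {f : α → ℕ} (hf : Computable f) :
    Computable (fun a => 2 * f a + 1) := Computable.succ.comp (c_dbl hf)

theorem recF_ev {α : Type} [Primcodable α] : RecF (fun (p : α × ℕ) F => ev F p.2) :=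
  RecF.at (c_dbl Computable.snd)

theorem recF_od {α : Type} [Primcodable α] : RecF (fun (p : α × ℕ) F => od F p.2) :=
  RecF.at (c_dbl1 Computable.snd)

theorem ne_some_false : ComputablePred (fun o : Option Bool => o ≠ some false) := by
  have h : PrimrecPred (fun o : Option Bool => o = some false) :=
    PrimrecRel.comp Primrec.eq Primrec.id (Primrec.const (some false))
  exact h.not.computablePred

theorem cop_dd {q : (Unit × ℕ) × List ℕ → Option Bool} (hq : Computable q) :
    Cop (fun (τ : List ℕ) F => DD q (ev F) τ) := by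
  have e1 : RecF (fun (p : ((List ℕ × ℕ) × ℕ)) F =>
      join (ev F) (ext p.1.1) p.2) := by
    refine RecF.joinF (Ψ := fun (_ : List ℕ × ℕ) F => ev F) (Φ := fun a _ => ext a.1) recF_ev ?_
    refine RecF.of_computable (f := fun p : (List ℕ × ℕ) × ℕ => ext p.1.1 p.2) ?_
    exact ((Primrec.list_getD 0).comp (Primrec.fst.comp Primrec.fst) Primrec.snd).to_comp
  have e2 : RecF (fun (p : ((List ℕ × ℕ) × ℕ)) F => pre (join (ev F) (ext p.1.1)) p.2) :=
    RecF.pre' (Ψ := fun (a : List ℕ × ℕ) F => join (ev F) (ext a.1)) e1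
  have e3 : RecF (fun (p : ((List ℕ × ℕ) × ℕ)) F =>
      q (((), p.1.2), pre (join (ev F) (ext p.1.1)) p.2)) := by
    refine RecF.comp hq (RecF.pair ?_ e2)
    exact RecF.of_computable (Computable.pair (Computable.const ())
      (Computable.snd.comp Computable.fst))
  have e4 : Cop (fun (p : ((List ℕ × ℕ) × ℕ)) F =>
      q (((), p.1.2), pre (join (ev F) (ext p.1.1)) p.2) ≠ some false) :=
    Cop.of_recF e3 ne_some_false
  have hl : Computable (fun τ : List ℕ => τ.length + 1) :=
    Computable.succ.comp Computable.list_length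
  have e5 := Cop.ball (P := fun (a : List ℕ × ℕ) k F =>
    q (((), a.2), pre (join (ev F) (ext a.1)) k) ≠ some false) e4
    (f := fun a => a.1.length + 1) (hl.comp Computable.fst)
  exact Cop.ball (P := fun (τ : List ℕ) m F => ∀ k < τ.length + 1,
    q (((), m), pre (join (ev F) (ext τ)) k) ≠ some false) e5 (f := fun τ => τ.length + 1) hl

/-- one step of the parse; the state is `(σ, f, b)` -/
def step (res : ℕ × ℕ × List ℕ → (ℕ → ℕ) → List ℕ) (dd : List ℕ → (ℕ → ℕ) → Bool)
    (p : ℕ × ℕ × (List ℕ × List ℕ × Bool)) (F : ℕ → ℕ) : List ℕ × List ℕ × Bool :=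
  (res (p.1, p.2.1, p.2.2.1) (ev F) ++ [F (2 * (res (p.1, p.2.1, p.2.2.1) (ev F)).length + 1)],
    p.2.2.2.1 ++ [F (2 * (res (p.1, p.2.1, p.2.2.1) (ev F)).length + 1)],
    (p.2.2.2.2 && decide (res (p.1, p.2.1, p.2.2.1) (ev F) =
      pre (od F) (res (p.1, p.2.1, p.2.2.1) (ev F)).length)) &&
        dd (p.2.2.2.1 ++ [F (2 * (res (p.1, p.2.1, p.2.2.1) (ev F)).length + 1)]) F)

/-- the parse of stage `p.1` up to `p.2` -/
def parse (res : ℕ × ℕ × List ℕ → (ℕ → ℕ) → List ℕ) (dd : List ℕ → (ℕ → ℕ) → Bool)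
    (p : ℕ × ℕ) (F : ℕ → ℕ) : List ℕ × List ℕ × Bool :=
  Nat.rec (motive := fun _ => List ℕ × List ℕ × Bool) ([], [], dd [] F)
    (fun k r => step res dd (p.1, k, r) F) p.2

theorem parse_zero (res : ℕ × ℕ × List ℕ → (ℕ → ℕ) → List ℕ) (dd : List ℕ → (ℕ → ℕ) → Bool)
    (t : ℕ) (F : ℕ → ℕ) : parse res dd (t, 0) F = ([], [], dd [] F) := rfl

theorem parse_succ (res : ℕ × ℕ × List ℕ → (ℕ → ℕ) → List ℕ) (dd : List ℕ → (ℕ → ℕ) → Bool)
    (t n : ℕ) (F : ℕ → ℕ) :
    parse res dd (t, n + 1) F = step res dd (t, n, parse res dd (t, n) F) F := rfl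

theorem recF_step {res : ℕ × ℕ × List ℕ → (ℕ → ℕ) → List ℕ} (hres : RecF res)
    {dd : List ℕ → (ℕ → ℕ) → Bool} (hdd : RecF dd) : RecF (step res dd) := by
  have e1 : RecF (fun (p : ℕ × ℕ × (List ℕ × List ℕ × Bool)) F =>
      res (p.1, p.2.1, p.2.2.1) (ev F)) :=
    hres.subst (ψ := fun (p : ℕ × ℕ × (List ℕ × List ℕ × Bool)) _ => (p.1, p.2.1, p.2.2.1))
      (RecF.of_computable (Computable.pair Computable.fst (Computable.pair
        (Computable.fst.comp Computable.snd)
        (Computable.fst.comp (Computable.snd.comp Computable.snd)))))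
      (Ψ := fun _ F => ev F) recF_ev
  have e2 : RecF (fun (p : ℕ × ℕ × (List ℕ × List ℕ × Bool)) F =>
      F (2 * (res (p.1, p.2.1, p.2.2.1) (ev F)).length + 1)) :=
    RecF.app (RecF.comp (g := fun l : List ℕ => 2 * l.length + 1)
      (c_dbl1 Computable.list_length) e1)
  have e3 : RecF (fun (p : ℕ × ℕ × (List ℕ × List ℕ × Bool)) F =>
      pre (od F) (res (p.1, p.2.1, p.2.2.1) (ev F)).length) := by
    have h1 : RecF (fun (p : (ℕ × ℕ × (List ℕ × List ℕ × Bool)) × ℕ) F => pre (od F) p.2) :=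
      RecF.pre' (Ψ := fun _ F => od F) recF_od
    exact RecF.bind h1 (f := fun (p : ℕ × ℕ × (List ℕ × List ℕ × Bool)) F =>
      (p, (res (p.1, p.2.1, p.2.2.1) (ev F)).length))
      (RecF.pair (RecF.of_computable Computable.id) (RecF.comp Computable.list_length e1))
  have e4 : RecF (fun (p : ℕ × ℕ × (List ℕ × List ℕ × Bool)) F =>
      p.2.2.2.1 ++ [F (2 * (res (p.1, p.2.1, p.2.2.1) (ev F)).length + 1)]) := by
    have h1 : RecF (fun (p : ℕ × ℕ × (List ℕ × List ℕ × Bool)) (_ : ℕ → ℕ) => p.2.2.2.1) :=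
      RecF.of_computable (Computable.fst.comp (Computable.snd.comp
        (Computable.snd.comp Computable.snd)))
    exact RecF.comp (g := fun x : List ℕ × ℕ => x.1 ++ [x.2])
      (Computable.list_concat.comp Computable.fst Computable.snd) (h1.pair e2)
  have e5 : RecF (fun (p : ℕ × ℕ × (List ℕ × List ℕ × Bool)) F =>
      dd (p.2.2.2.1 ++ [F (2 * (res (p.1, p.2.1, p.2.2.1) (ev F)).length + 1)]) F) :=
    RecF.bind hdd e4
  have e6 : RecF (fun (p : ℕ × ℕ × (List ℕ × List ℕ × Bool)) F =>
      decide (res (p.1, p.2.1, p.2.2.1) (ev F) =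
        pre (od F) (res (p.1, p.2.1, p.2.2.1) (ev F)).length)) := by
    have h1 : Computable (fun x : List ℕ × List ℕ => decide (x.1 = x.2)) :=
      (Primrec.eq (α := List ℕ)).decide.to_comp
    exact RecF.comp (g := fun x : List ℕ × List ℕ => decide (x.1 = x.2)) h1 (e1.pair e3)
  have e7 : RecF (fun (p : ℕ × ℕ × (List ℕ × List ℕ × Bool)) (_ : ℕ → ℕ) => p.2.2.2.2) :=
    RecF.of_computable (Computable.snd.comp (Computable.snd.comp
        (Computable.snd.comp Computable.snd)))
  have hand : Computable (fun x : Bool × Bool => x.1 && x.2) :=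
    (Primrec.and.to_comp).comp Computable.fst Computable.snd
  have e8 := RecF.comp (g := fun x : Bool × Bool => x.1 && x.2) hand (e7.pair e6)
  have e9 := RecF.comp (g := fun x : Bool × Bool => x.1 && x.2) hand (e8.pair e5)
  have e10 : RecF (fun (p : ℕ × ℕ × (List ℕ × List ℕ × Bool)) F =>
      res (p.1, p.2.1, p.2.2.1) (ev F) ++
        [F (2 * (res (p.1, p.2.1, p.2.2.1) (ev F)).length + 1)]) :=
    RecF.comp (g := fun x : List ℕ × ℕ => x.1 ++ [x.2])
      (Computable.list_concat.comp Computable.fst Computable.snd) (e1.pair e2)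
  exact e10.pair (e4.pair e9)

theorem recF_parse {res : ℕ × ℕ × List ℕ → (ℕ → ℕ) → List ℕ} (hres : RecF res)
    {dd : List ℕ → (ℕ → ℕ) → Bool} (hdd : RecF dd) : RecF (parse res dd) := by
  have e1 : RecF (fun (_ : ℕ) F => (([] : List ℕ), ([] : List ℕ), dd [] F)) :=
    RecF.pair (RecF.of_computable (Computable.const _)) (RecF.pair
      (RecF.of_computable (Computable.const _)) (hdd.comp₁ (f := fun _ : ℕ => ([] : List ℕ))
        (Computable.const _)))
  exact RecF.natRec e1 (recF_step hres hdd)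

/-- the union of an increasing sequence of finite sequences -/
theorem exists_union {S : ℕ → List ℕ} (h1 : ∀ n, S n <+: S (n + 1)) (h2 : ∀ n, n ≤ (S n).length) :
    ∃ Z : ℕ → ℕ, ∀ n, pre Z (S n).length = S n := by
  have h3 : ∀ n m, n ≤ m → S n <+: S m := by
    intro n m h
    induction m, h using Nat.le_induction with
    | base => exact List.prefix_refl _
    | succ m _ ih => exact ih.trans (h1 m)
  refine ⟨fun i => (S (i + 1)).getD i 0, fun n => ?_⟩
  refine List.ext_getElem? fun i => ?_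
  rw [pre_getElem?]
  split_ifs with hi
  · rw [List.getD_eq_getElem?_getD]
    have h4 : i < (S (i + 1)).length := h2 (i + 1)
    have h5 : (S n)[i]? = some (S n)[i] := List.getElem?_eq_getElem hi
    have h6 : (S (i + 1))[i]? = some (S (i + 1))[i] := List.getElem?_eq_getElem h4
    rw [h6, h5]
    simp only [Option.getD_some, Option.some.injEq]
    rcases le_total n (i + 1) with h | h
    · exact ((h3 _ _ h).getElem hi).symm
    · exact (h3 _ _ h).getElem h4
  · exact (List.getElem?_eq_none (by omega)).symm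

end Hide

open Hide in
/-- HIDE -/
theorem hide (henum : EnumStatement) (hresS : ResStatement) (hpi2 : Pi2Statement)
    (hjoin : JoinStatement) : HideStatement := by
  classical
  intro U Θ hU hΘ ⟨Y₀, hY₀, hY₀U⟩
  obtain ⟨Φ, hΦ⟩ := henum
  obtain ⟨res, hres, hext, hlim⟩ := hresS Φ U hΦ hU
  obtain ⟨d, hd, hdΘ⟩ := hΘ
  obtain ⟨q, hq, hq1, hq2⟩ := hd.mono
  obtain ⟨dd, hdd, hdd1⟩ := cop_dd hq
  have hdd2 : ∀ τ F, DD q (ev F) τ ↔ dd τ F = true := hdd1
  -- the `Π⁰₂` class
  let D₂ : ℕ × ℕ → (ℕ → ℕ) → Bool := fun p F =>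
    decide (p.1.unpair.2 ≤ p.2) && (parse res dd (p.2, p.1.unpair.1) F).2.2
  have hD₂ : RecF D₂ := by
    have cu1 : Computable (fun m : ℕ => m.unpair.1) := (Primrec.fst.comp Primrec.unpair).to_comp
    have cu2 : Computable (fun m : ℕ => m.unpair.2) := (Primrec.snd.comp Primrec.unpair).to_comp
    have e1 : RecF (fun (p : ℕ × ℕ) (_ : ℕ → ℕ) => decide (p.1.unpair.2 ≤ p.2)) := by
      refine RecF.of_computable (f := fun p : ℕ × ℕ => decide (p.1.unpair.2 ≤ p.2)) ?_
      have h : Computable (fun x : ℕ × ℕ => decide (x.1 ≤ x.2)) := Primrec.nat_le.decide.to_comp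
      have h0 : Computable (fun p : ℕ × ℕ => (p.1.unpair.2, p.2)) :=
        Computable.pair (cu2.comp Computable.fst) Computable.snd
      have h1 := Computable.comp (f := fun x : ℕ × ℕ => decide (x.1 ≤ x.2))
        (g := fun p : ℕ × ℕ => (p.1.unpair.2, p.2)) h h0
      exact h1
    have e21 : RecF (fun (p : ℕ × ℕ) F => parse res dd (p.2, p.1.unpair.1) F) :=
      (recF_parse hres hdd).comp₁ (f := fun p : ℕ × ℕ => (p.2, p.1.unpair.1))
        (Computable.pair Computable.snd (cu1.comp Computable.fst))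
    have e2 : RecF (fun (p : ℕ × ℕ) F => (parse res dd (p.2, p.1.unpair.1) F).2.2) :=
      RecF.comp (g := fun x : List ℕ × List ℕ × Bool => x.2.2)
        (Computable.snd.comp Computable.snd) e21
    exact RecF.comp (g := fun x : Bool × Bool => x.1 && x.2)
      ((Primrec.and.to_comp).comp Computable.fst Computable.snd) (e1.pair e2)
  obtain ⟨A, hA, hAU⟩ := hpi2 D₂ hD₂
  have hmem : ∀ F : ℕ → ℕ, (∀ n, ∃ m, D₂ (n, m) F = true) ↔
      ∀ n m, ∃ t ≥ m, (parse res dd (t, n) F).2.2 = true := by
    intro F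
    constructor
    · intro h n m
      obtain ⟨t, ht⟩ := h (Nat.pair n m)
      have h1 : (decide ((Nat.pair n m).unpair.2 ≤ t) &&
        (parse res dd (t, (Nat.pair n m).unpair.1) F).2.2) = true := ht
      rw [Nat.unpair_pair, Bool.and_eq_true, decide_eq_true_eq] at h1
      exact ⟨t, h1.1, h1.2⟩
    · intro h n
      obtain ⟨t, ht1, ht2⟩ := h n.unpair.1 n.unpair.2
      refine ⟨t, ?_⟩
      show (decide (n.unpair.2 ≤ t) && (parse res dd (t, n.unpair.1) F).2.2) = true
      rw [ht2, Bool.and_true, decide_eq_true_eq]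
      exact ht1
  refine ⟨A, hA, ?_, ?_⟩
  · -- a member outside
    obtain ⟨f, hf⟩ := (hdΘ () Y₀).1 hY₀
    have hDD := (dd_spec hq1 hq2 Y₀ f).1 hf
    obtain ⟨r, hr1, hr2⟩ := hlim Y₀ hY₀U
    let S : ℕ → List ℕ := fun n => Nat.rec (motive := fun _ => List ℕ) [] (fun k s => r k s ++ [f k]) n
    have hS : ∀ n, S (n + 1) = r n (S n) ++ [f n] := fun n => rfl
    have hre : ∀ n σ, σ <+: r n σ := by
      intro n σ
      obtain ⟨t, ht⟩ := hr1 n σ
      rw [← ht t le_rfl]
      exact hext t n σ Y₀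
    have hS1 : ∀ n, S n <+: S (n + 1) := by
      intro n
      rw [hS]
      exact (hre n (S n)).trans (List.prefix_append _ _)
    have hS2 : ∀ n, n ≤ (S n).length := by
      intro n
      induction n with
      | zero => exact Nat.zero_le _
      | succ n ih =>
        rw [hS, List.length_append, List.length_singleton]
        have := (hre n (S n)).length_le
        omega
    obtain ⟨Z, hZ⟩ := exists_union hS1 hS2
    have hZr : ∀ n, r n (S n) = pre Z (r n (S n)).length ∧ Z (r n (S n)).length = f n := by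
      intro n
      have h1 := hZ (n + 1)
      rw [hS, List.length_append, List.length_singleton, pre_succ] at h1
      have h2 := List.append_inj' h1 rfl
      exact ⟨h2.1.symm, by simpa using h2.2⟩
    have hF : join Y₀ Z ∈ {F | ∀ n, ∃ m, D₂ (n, m) F = true} := by
      refine (hmem (join Y₀ Z)).2 fun n m => ?_
      have key : ∀ n, ∃ t₀, ∀ t ≥ t₀,
          parse res dd (t, n) (join Y₀ Z) = (S n, pre f n, true) := by
        intro n
        induction n with
        | zero =>
          refine ⟨0, fun t _ => ?_⟩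
          rw [parse_zero]
          have h1 : dd [] (join Y₀ Z) = true := by
            rw [← hdd2, ev_join]
            exact hDD 0
          rw [h1]
          rfl
        | succ n ih =>
          obtain ⟨t₀, h0⟩ := ih
          obtain ⟨t₁, h1⟩ := hr1 n (S n)
          refine ⟨max t₀ t₁, fun t ht => ?_⟩
          rw [parse_succ, h0 t (le_trans (le_max_left _ _) ht)]
          unfold step
          simp only [ev_join, od_join]
          rw [h1 t (le_trans (le_max_right _ _) ht), join_odd, (hZr n).2, ← (hZr n).1, ← hS,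
            ← pre_succ]
          have h2 : dd (pre f (n + 1)) (join Y₀ Z) = true := by
            rw [← hdd2, ev_join]
            exact hDD (n + 1)
          rw [h2]
          simp
      obtain ⟨t₀, h0⟩ := key n
      exact ⟨max t₀ m, le_max_right _ _, by rw [h0 _ (le_max_left _ _)]⟩
    have hFU : join Y₀ Z ∉ Up U := by
      rintro ⟨g, hg, hgF⟩
      obtain ⟨i, hi⟩ := (hΦ.spec g (join Y₀ Z)).1 hgF
      exact hr2 i (S i) Z ⟨_, (hZr i).1⟩ g hg hi
    have hFA : join Y₀ Z ∈ Up A := by
      rw [hAU]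
      exact ⟨_, hF, Red.rfl⟩
    obtain ⟨W, hW, hWF⟩ := hFA
    refine ⟨W, hW, ?_⟩
    rintro ⟨g, hg, hgW⟩
    exact hFU ⟨g, hg, hgW.trans hWF⟩
  · -- the members outside compute a member of `Θ`
    intro W hW hWU
    have hWA : W ∈ Up A := ⟨W, hW, Red.rfl⟩
    rw [hAU] at hWA
    obtain ⟨F, hF, hFW⟩ := hWA
    have hF' := (hmem F).1 hF
    have hYF : Red (ev F) F := by
      have h1 := hjoin.1 (ev F) (od F)
      rwa [join_ev_od] at h1
    have hYU : ev F ∉ Up U := by
      rintro ⟨g, hg, hgY⟩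
      exact hWU ⟨g, hg, (hgY.trans hYF).trans hFW⟩
    refine ⟨ev F, hYF.trans hFW, ?_⟩
    obtain ⟨r, hr1, -⟩ := hlim (ev F) hYU
    let L : ℕ → List ℕ × List ℕ := fun n => Nat.rec (motive := fun _ => List ℕ × List ℕ) ([], [])
      (fun k s => (r k s.1 ++ [F (2 * (r k s.1).length + 1)],
        s.2 ++ [F (2 * (r k s.1).length + 1)])) n
    have hL : ∀ n, L (n + 1) = (r n (L n).1 ++ [F (2 * (r n (L n).1).length + 1)],
        (L n).2 ++ [F (2 * (r n (L n).1).length + 1)]) := fun n => rfl
    have key : ∀ n, ∃ t₀, ∃ b : Bool, (b = true → dd (L n).2 F = true) ∧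
        ∀ t ≥ t₀, parse res dd (t, n) F = ((L n).1, (L n).2, b) := by
      intro n
      induction n with
      | zero => exact ⟨0, dd [] F, fun h => h, fun t _ => parse_zero _ _ _ _⟩
      | succ n ih =>
        obtain ⟨t₀, b, -, h0⟩ := ih
        obtain ⟨t₁, h1⟩ := hr1 n (L n).1
        refine ⟨max t₀ t₁, (b && decide (r n (L n).1 = pre (od F) (r n (L n).1).length)) &&
          dd (L (n + 1)).2 F, fun h => ?_, fun t ht => ?_⟩
        · rw [Bool.and_eq_true] at h
          exact h.2
        · rw [parse_succ, h0 t (le_trans (le_max_left _ _) ht)]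
          unfold step
          simp only
          rw [h1 t (le_trans (le_max_right _ _) ht), hL]
    have hdL : ∀ n, dd (L n).2 F = true := by
      intro n
      obtain ⟨t₀, b, hb, h0⟩ := key n
      obtain ⟨t, ht, h1⟩ := hF' n t₀
      rw [h0 t ht] at h1
      exact hb h1
    have hLf : ∀ n, (L n).2 = pre (fun k => F (2 * (r k (L k).1).length + 1)) n := by
      intro n
      induction n with
      | zero => rfl
      | succ n ih => rw [hL, pre_succ, ← ih]
    refine (hdΘ () (ev F)).2 ⟨fun k => F (2 * (r k (L k).1).length + 1), ?_⟩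
    rw [dd_spec hq1 hq2]
    intro n
    rw [← hLf, hdd2]
    exact hdL n

end Pool.Agent.Lib.MP_d48993_lc
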