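import Pool.Agent.Lib.MP_d48993_lc.Base

/-!
# Project CUT: the statements of the modules

Every module proves one (or more) of the statements below, as
`theorem xxx : XxxStatement` in its own file; a module may assume the statements it depends on
(see the table `cut_modules` and `Blueprint.md`).
-/

set_option autoImplicit false

namespace Pool.Agent.Lib.MP_d48993_lc

open MP_8c048d_lc (pre join RecF Sig Clo Cop)

/-- Closed under initial segments. -/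
def PC (T : List ℕ → Prop) : Prop := ∀ σ τ, σ <+: τ → T τ → T σ

/-- Monotone. -/
def Mon (φ : List ℕ → List ℕ) : Prop := ∀ σ τ, σ <+: τ → φ σ <+: φ τ

/-! ## Turing reducibility -/

/-- Module ENUM. -/
def EnumStatement : Prop := ∃ Φ : ℕ → List ℕ → List ℕ, IsEnum Φ

/-- Module RED: recursive functionals are Turing reductions. -/
def Red1Statement : Prop :=
  ∀ φ : ℕ → (ℕ → ℕ) → ℕ, RecF φ → ∀ F, Red (fun n => φ n F) F

/-- Module RED: search. -/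
def RedMuStatement : Prop :=
  ∀ P : ℕ → ℕ → (ℕ → ℕ) → Prop, Cop (fun (p : ℕ × ℕ) F => P p.1 p.2 F) →
    ∀ F : ℕ → ℕ, (∀ n, ∃ m, P n m F) → ∃ f : ℕ → ℕ, Red f F ∧ ∀ n, P n (f n) F

/-- Module RED: the join is the least upper bound. -/
def JoinStatement : Prop :=
  (∀ F G : ℕ → ℕ, Red F (join F G)) ∧ (∀ F G : ℕ → ℕ, Red G (join F G)) ∧
    ∀ F G H : ℕ → ℕ, Red F H → Red G H → Red (join F G) H

/-- Module SEARCH (from RED): iterated search along a relation that is decidable in `G`. -/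
def SearchStatement : Prop :=
  ∀ (α : Type) [Primcodable α] (R : α → α → (ℕ → ℕ) → Prop),
    Cop (fun (p : α × α) F => R p.1 p.2 F) → ∀ (G : ℕ → ℕ) (I : α → Prop) (a₀ : α), I a₀ →
    (∀ a, I a → ∃ a', R a a' G) → (∀ a a', I a → R a a' G → I a') →
    ∃ A : ℕ → α, A 0 = a₀ ∧ (∀ j, R (A j) (A (j + 1)) G) ∧
      ∀ out : ℕ × α → (ℕ → ℕ) → ℕ, RecF out → Red (fun j => out (j, A (j + 1)) G) G

/-! ## Classes -/

/-- Module CLS. -/
def ClsStatement : Prop :=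
  (∀ P : Set (ℕ → ℕ), IsPi01 P ↔ P.Nonempty ∧ ClosedC P) ∧
    ∀ P : Set (ℕ → ℕ), IsPi01Cantor P ↔ P.Nonempty ∧ ClosedC P ∧ Bin P

/-- Module TREES. -/
def TreeEnumStatement : Prop := ∃ Tr : ℕ → List ℕ → Prop, IsTreeEnum Tr

/-- Module OPS: joins and meets of `Π⁰₁` classes. -/
def OpsStatement : Prop :=
  ∀ P Q : Set (ℕ → ℕ), ClosedC P → ClosedC Q →
    (∃ R, ClosedC R ∧ Up R = Up P ∪ Up Q) ∧ ∃ R, ClosedC R ∧ Up R = Up P ∩ Up Q

/-- Module PI2: `Π⁰₂` classes, up to `≡_w`. -/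
def Pi2Statement : Prop :=
  ∀ d : ℕ × ℕ → (ℕ → ℕ) → Bool, RecF d →
    ∃ S, ClosedC S ∧ Up S = Up {F | ∀ n, ∃ m, d (n, m) F = true}

/-- Module PI2: the singleton of a limit computable function and its class `C_ψ`. -/
def GClassStatement : Prop :=
  ∀ G : ℕ → ℕ, LimComp G →
    (∃ S, ClosedC S ∧ Up S = Up {G}) ∧ (∃ S, ClosedC S ∧ Up S = Up (CPsi G)) ∧ G ∈ Up (CPsi G)

/-- Module EMB: Simpson's embedding lemma. -/
def EmbStatement : Prop :=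
  ∀ S B : Set (ℕ → ℕ), ClosedC S → B.Nonempty → ClosedC B → Bin B →
    ∃ Q : Set (ℕ → ℕ), Q.Nonempty ∧ ClosedC Q ∧ Bin Q ∧ Up Q = Up S ∪ Up B

/-! ## The generic function and `B₀` -/

/-- Module GEN. -/
def GenericStatement : Prop := ∃ G : ℕ → ℕ, IsGeneric G ∧ LimComp G

/-- Module B0 (from ENUM): a `Π⁰₁` class of Cantor space without generic-computable members. -/
def B0Statement : Prop :=
  ∃ B : Set (ℕ → ℕ), B.Nonempty ∧ ClosedC B ∧ Bin B ∧ ∀ G, IsGeneric G → G ∉ Up B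

/-! ## Conditions -/

/-- Module COND. -/
def ExtCompStatement : Prop :=
  ∀ T : List ℕ → Prop, ComputablePred T →
    ComputablePred (fun p : List (List ℕ) × Cnd × Cnd => Ext T p.1 p.2.1 p.2.2)

/-- Module COND. -/
def SafeCompStatement : Prop :=
  ComputablePred (fun p : List ℕ × Cnd => SafeF p.1 p.2) ∧ Cop (fun (c : Cnd) G => Safe G c) ∧
    ∀ (G : ℕ → ℕ) (k : ℕ) (c : Cnd), SafeF (pre G k) c → Safe G c

/-- Module TRANS. -/
def ExtTransStatement : Prop :=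
  (∀ T F (c : Cnd), Valid T c.2 → Ext T F c c) ∧
  ∀ T F F' c c' c'', F ⊆ F' → Ext T F c c' → Ext T F' c' c'' → Ext T F c c''

/-- Module EXT: a new image. -/
def ExtendStatement : Prop :=
  ∀ (G : ℕ → ℕ) (T : List ℕ → Prop) (F : List (List ℕ)) (c : Cnd) (s ρ : List ℕ) (k N : ℕ),
    FOk F → Valid T c.2 → Safe G c → (s, ρ) ∈ c.2 → T (s ++ [k]) →
    (∀ ρ', (s ++ [k], ρ') ∉ c.2) →
    ∃ ρ', N ≤ ρ'.length ∧ Ext T F c (c.1, (s ++ [k], ρ') :: c.2) ∧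
      Safe G (c.1, (s ++ [k], ρ') :: c.2)

/-- Module G1 (from COND). -/
def G1Statement : Prop :=
  ∀ (G : ℕ → ℕ) (T : List ℕ → Prop) (φ : List ℕ → List ℕ) (F : List (List ℕ)) (c : Cnd)
    (π : List ℕ), IsGeneric G → ComputablePred T → Computable φ → Mon φ → Blocked T F c π →
    (∃ c', Ext T F c c' ∧ Safe G c' ∧ ¬ TPsi G (φ c'.1)) ∨
      ∃ L, ∀ c', Ext T F c c' → Safe G c' → π <+: φ c'.1 → (φ c'.1).length ≤ L

/-- Module STEP2A (from G1, TRANS). -/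
def Step2aStatement : Prop :=
  ∀ (G : ℕ → ℕ) (T : List ℕ → Prop) (φ : List ℕ → List ℕ) (F₀ : List (List ℕ)) (c₀ : Cnd),
    IsGeneric G → ComputablePred T → Computable φ → Mon φ → FOk F₀ → Failing G T φ F₀ c₀ →
    ∀ c, Ext T F₀ c₀ c → Safe G c → ∀ s ρ, (s, ρ) ∈ c.2 → ρ <+: φ c.1 →
      ∃ c' k ρ', Ext T F₀ c c' ∧ Safe G c' ∧ (s ++ [k], ρ') ∈ c'.2 ∧ ρ' <+: φ c'.1

/-- Module STEP2B (from STEP2A, SEARCH, COND, TRANS). -/
def Step2bStatement : Prop :=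
  ∀ (G : ℕ → ℕ) (T : List ℕ → Prop) (φ : List ℕ → List ℕ) (F₀ : List (List ℕ)) (c₀ : Cnd),
    IsGeneric G → ComputablePred T → PC T → Computable φ → Mon φ → FOk F₀ → Valid T c₀.2 →
    Safe G c₀ → Failing G T φ F₀ c₀ → HasPath G T

/-- Module STEP2C (from SEARCH, COND, TRANS). -/
def Step2cStatement : Prop :=
  ∀ (G : ℕ → ℕ) (T TB : List ℕ → Prop) (φ : List ℕ → List ℕ) (F₀ : List (List ℕ)) (c₀ : Cnd),
    ComputablePred T → PC TB → Computable φ → Mon φ → Valid T c₀.2 → Safe G c₀ →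
    (∀ c, Ext T F₀ c₀ c → Safe G c →
      TB (φ c.1) ∧ ∀ n, ∃ c', Ext T F₀ c c' ∧ Safe G c' ∧ n ≤ (φ c'.1).length) →
    ∃ f, Red f G ∧ ∀ k, TB (pre f k)

/-! ## Step 3 -/

/-- A condition over finitely many trees: `(E, F, c)`. -/
structure Cond3 (Tr : ℕ → List ℕ → Prop) (G : ℕ → ℕ) : Type where
  E : List ℕ
  F : List (List ℕ)
  c : Cnd
  good : ∀ e ∈ E, ¬ HasPath G (Tr e)
  fok : FOk F
  valid : Valid (TE Tr E) c.2
  safe : Safe G c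

open Classical in
/-- Restriction of a condition to a smaller tree. -/
noncomputable def resT (T : List ℕ → Prop) (c : Cnd) : Cnd := (c.1, c.2.filter (fun p => T p.1))

/-- The order: `P₃Le P P'` says that `P'` extends `P`. -/
def P3Le {Tr : ℕ → List ℕ → Prop} {G : ℕ → ℕ} (P P' : Cond3 Tr G) : Prop :=
  P.E ⊆ P'.E ∧ P.F ⊆ P'.F ∧ Ext (TE Tr P.E) P.F P.c (resT (TE Tr P.E) P'.c)

/-- Module ORD (from TRANS): the order is a preorder; two conditions over the same `E`. -/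
def OrdStatement : Prop :=
  ∀ (Tr : ℕ → List ℕ → Prop) (G : ℕ → ℕ), (∀ e, PC (Tr e)) →
    (∀ P : Cond3 Tr G, P3Le P P) ∧
    (∀ P P' P'' : Cond3 Tr G, P3Le P P' → P3Le P' P'' → P3Le P P'') ∧
    (∀ E (q : List (List ℕ × List ℕ)) x, Valid (TE Tr E) q → resT (TE Tr E) (x, q) = (x, q)) ∧
    (∀ P P' : Cond3 Tr G, P3Le P P' → Safe G (resT (TE Tr P.E) P'.c))

/-- Module DENS (from ORD, EXT): the density lemmas. -/
def DensStatement : Prop :=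
  ∀ (Tr : ℕ → List ℕ → Prop) (G : ℕ → ℕ), (∀ e, PC (Tr e)) →
    (∃ _P : Cond3 Tr G, True) ∧
    (∀ e, ¬ HasPath G (Tr e) → ∀ P : Cond3 Tr G, ∃ P', P3Le P P' ∧ e ∈ P'.E) ∧
    (∀ e s, Tr e s → ∀ P : Cond3 Tr G, e ∈ P.E →
      ∃ P', P3Le P P' ∧ ∃ ρ, (e :: s, ρ) ∈ P'.c.2) ∧
    (∀ m, ∀ P : Cond3 Tr G, ∃ P', P3Le P P' ∧ m ≤ P'.c.1.length) ∧
    (∀ m e s ρ, ∀ P : Cond3 Tr G, (e :: s, ρ) ∈ P.c.2 →
      ∃ P', P3Le P P' ∧ ∃ i, ∃ h : i < P'.c.1.length, m ≤ i ∧ Fact P'.c.1[i] (e :: s) ρ)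

/-- Module TEC (from RED): the tree `T_E`. -/
def TecStatement : Prop :=
  ∀ (Tr : ℕ → List ℕ → Prop) (E : List ℕ), IsTreeEnum Tr →
    ComputablePred (TE Tr E) ∧ PC (TE Tr E) ∧
    ∀ G, HasPath G (TE Tr E) → ∃ e ∈ E, HasPath G (Tr e)

/-- Module DECC (from STEP2B, ORD, TEC): deciding `Φ_i(X) ∈ C_ψ`. -/
def DecCStatement : Prop :=
  ∀ (Tr : ℕ → List ℕ → Prop) (G : ℕ → ℕ) (φ : List ℕ → List ℕ), IsTreeEnum Tr → IsGeneric G →
    Computable φ → Mon φ → ∀ P : Cond3 Tr G, ∃ P', P3Le P P' ∧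
      (¬ TPsi G (φ P'.c.1) ∨
        ∃ n, ∀ c, Ext (TE Tr P'.E) P'.F P'.c c → Safe G c → (φ c.1).length < n)

/-- Module DECB (from STEP2C, ORD, TEC): deciding `Φ_i(X) ∈ B`. -/
def DecBStatement : Prop :=
  ∀ (Tr : ℕ → List ℕ → Prop) (G : ℕ → ℕ) (φ : List ℕ → List ℕ) (TB : List ℕ → Prop),
    IsTreeEnum Tr → Computable φ → Mon φ → PC TB → G ∉ Up {f | ∀ k, TB (pre f k)} →
    ∀ P : Cond3 Tr G, ∃ P', P3Le P P' ∧
      (¬ TB (φ P'.c.1) ∨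
        ∃ n, ∀ c, Ext (TE Tr P'.E) P'.F P'.c c → Safe G c → (φ c.1).length < n)

/-- Module HX (from RED): the real of a generic sequence computes the maps. -/
def HxStatement : Prop :=
  ∀ (Tr : ℕ → List ℕ → Prop) (G X : ℕ → ℕ) (e m : ℕ) (q : List ℕ → List ℕ → Prop),
    IsTreeEnum Tr →
    -- `q s ρ`: the image of `e :: s` is `ρ`
    (∀ s, Tr e s → ∃ i, m ≤ i ∧ ∃ ρ, q s ρ ∧ Fact (X i) (e :: s) ρ) →
    (∀ i, m ≤ i → ∀ s ρ, Tr e s → Fact (X i) (e :: s) ρ → q s ρ) →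
    (∀ s ρ, q s ρ → TPsi G ρ ∧ s.length ≤ ρ.length) →
    (∀ s s' ρ ρ', s <+: s' → q s ρ → q s' ρ' → ρ <+: ρ') →
    HMap X G (Tr e)

/-- Module STEP3 (from ORD, DENS, DECC, DECB, HX). -/
def Step3Statement : Prop :=
  ∀ (Φ : ℕ → List ℕ → List ℕ) (Tr : ℕ → List ℕ → Prop) (G : ℕ → ℕ) (B : Set (ℕ → ℕ)),
    IsEnum Φ → IsTreeEnum Tr → IsGeneric G → ClosedC B → G ∉ Up B →
    ∃ X, X ∉ Up (CPsi G) ∧ X ∉ Up B ∧ Theta Tr G X

/-- Module STEP5 (from RED). -/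
def Step5Statement : Prop :=
  ∀ (G X W f : ℕ → ℕ) (T : List ℕ → Prop), HMap X G T → Red X W → Red f W →
    (∀ k, T (pre f k)) → W ∈ Up (CPsi G)

/-! ## Hiding -/

/-- Module THETA (from ENUM's structure `IsEnum` only). -/
def ThetaStatement : Prop :=
  ∀ (Φ : ℕ → List ℕ → List ℕ) (Tr : ℕ → List ℕ → Prop) (G : ℕ → ℕ), IsEnum Φ → IsTreeEnum Tr →
    LimComp G → Sig (fun (_ : Unit) Y => Theta Tr G Y)

/-- Module RES (from SEARCH, RED): in the hiding lemma, the restraint functional.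
`res t Y n σ` is the stage `t` guess. -/
def ResStatement : Prop :=
  ∀ (Φ : ℕ → List ℕ → List ℕ) (U : Set (ℕ → ℕ)), IsEnum Φ → ClosedC U →
    ∃ res : ℕ × ℕ × List ℕ → (ℕ → ℕ) → List ℕ, RecF res ∧
      (∀ t n σ Y, σ <+: res (t, n, σ) Y) ∧
      ∀ Y, Y ∉ Up U → ∃ r : ℕ → List ℕ → List ℕ,
        (∀ n σ, ∃ t₀, ∀ t ≥ t₀, res (t, n, σ) Y = r n σ) ∧
        ∀ n σ (Z : ℕ → ℕ), (∃ k, r n σ = pre Z k) → ∀ f ∈ U, ¬ CompBy (Φ n) (join Y Z) f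

/-- Module HIDE (from ENUM, RES, PI2, RED). -/
def HideStatement : Prop :=
  ∀ (U : Set (ℕ → ℕ)) (Θ : (ℕ → ℕ) → Prop), ClosedC U → Sig (fun (_ : Unit) Y => Θ Y) →
    (∃ Y, Θ Y ∧ Y ∉ Up U) →
    ∃ A, ClosedC A ∧ (∃ W ∈ A, W ∉ Up U) ∧ ∀ W ∈ A, W ∉ Up U → ∃ Y, Red Y W ∧ Θ Y

/-! ## The theorem -/

/-- Module FINAL: the theorem for both lattices. -/
def CutStatement : Prop :=
  (∃ a c d b : PwCantor, a < c ∧ c ≤ d ∧ d < b ∧ ∀ z, a ≤ z → z ≤ b → c ≤ z ∨ z ≤ d) ∧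
  (∃ a c d b : PwBaire, a < c ∧ c ≤ d ∧ d < b ∧ ∀ z, a ≤ z → z ≤ b → c ≤ z ∨ z ≤ d)

end Pool.Agent.Lib.MP_d48993_lc
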