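import Pool.Agent.Lib.MP_d48993_lc.Defs
import Pool.Agent.Lib.MP_8c048d_lc.Eff

/-!
# Internal definitions of the project CUT

`pre`, `join`, `RecF`, `Sig`, `Clo`, `Cop` are the ones of `MP_8c048d_lc` (effective calculus).
-/

set_option autoImplicit false

namespace Pool.Agent.Lib.MP_d48993_lc

open MP_8c048d_lc (pre join RecF Sig Clo Cop)

/-! ## Computability -/

/-- `φ` (a monotone map on strings) computes `f` from `g`. -/
def CompBy (φ : List ℕ → List ℕ) (g f : ℕ → ℕ) : Prop :=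
  (∀ k, φ (pre g k) = pre f (φ (pre g k)).length) ∧ ∀ n, ∃ k, n ≤ (φ (pre g k)).length

/-- `Φ` is a good enumeration of the Turing functionals, as computable monotone maps on finite
strings. -/
structure IsEnum (Φ : ℕ → List ℕ → List ℕ) : Prop where
  comp : Computable₂ Φ
  mono : ∀ i σ τ, σ <+: τ → Φ i σ <+: Φ i τ
  spec : ∀ f g : ℕ → ℕ, Red f g ↔ ∃ i, CompBy (Φ i) g f

/-- Upward closure: the reals computing a member of `P`. -/
def Up (P : Set (ℕ → ℕ)) : Set (ℕ → ℕ) := {W | ∃ f ∈ P, Red f W}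

/-- `Π⁰₁` classes (possibly empty), in the form used internally. -/
def ClosedC (P : Set (ℕ → ℕ)) : Prop := Clo (fun (_ : Unit) F => F ∈ P)

/-- Classes contained in Cantor space. -/
def Bin (P : Set (ℕ → ℕ)) : Prop := ∀ f ∈ P, ∀ n, f n < 2

/-- `Tr` lists all computable trees, up to the sets of their paths. -/
structure IsTreeEnum (Tr : ℕ → List ℕ → Prop) : Prop where
  comp : ComputablePred (fun p : ℕ × List ℕ => Tr p.1 p.2)
  tree : ∀ e σ τ, σ <+: τ → Tr e τ → Tr e σ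
  all : ∀ P : Set (ℕ → ℕ), ClosedC P → ∃ e, P = {f | ∀ k, Tr e (pre f k)}

/-- `1`-generic functions. -/
def IsGeneric (G : ℕ → ℕ) : Prop :=
  ∀ W : List ℕ → Prop, REPred W → ∃ k, W (pre G k) ∨ ∀ τ, pre G k <+: τ → ¬ W τ

/-- Limit computable functions. -/
def LimComp (G : ℕ → ℕ) : Prop :=
  ∃ g : ℕ → ℕ → ℕ, Computable₂ g ∧ ∀ n, ∃ s0, ∀ s ≥ s0, g s n = G n

/-! ## The class `C_ψ` -/

/-- The forbidden child of the node `τ`. -/
def psi (G : ℕ → ℕ) (τ : List ℕ) : ℕ := G (Encodable.encode τ) % 4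

/-- The tree `T_ψ ⊆ 4^{<ω}`. -/
def TPsi (G : ℕ → ℕ) (σ : List ℕ) : Prop :=
  (∀ n ∈ σ, n < 4) ∧ ∀ m (h : m < σ.length), σ[m] ≠ psi G (σ.take m)

/-- The class `C_ψ`. -/
def CPsi (G : ℕ → ℕ) : Set (ℕ → ℕ) := {y | ∀ k, TPsi G (pre y k)}

/-! ## Conditions -/

/-- A condition `(x, q)`: `x` is an initial segment of the real that is built, `q` is a finite map
from nodes (of a tree `T`) to nodes of `4^{<ω}`, given as a list of pairs. -/
abbrev Cnd : Type := List ℕ × List (List ℕ × List ℕ)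

/-- Different frozen nodes have different lengths. -/
def FOk (F : List (List ℕ)) : Prop := ∀ π ∈ F, ∀ π' ∈ F, π.length = π'.length → π = π'

/-- `q` is a finite order embedding from an initial part of `T` to `4^{<ω}`, with images of
pairwise different lengths. -/
structure Valid (T : List ℕ → Prop) (q : List (List ℕ × List ℕ)) : Prop where
  root : (([] : List ℕ), ([] : List ℕ)) ∈ q
  mem : ∀ p ∈ q, T p.1 ∧ ∀ n ∈ p.2, n < 4
  emb : ∀ p ∈ q, ∀ p' ∈ q, (p.2 <+: p'.2 ↔ p.1 <+: p'.1)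
  len : ∀ p ∈ q, ∀ p' ∈ q, p.2.length = p'.2.length → p.1 = p'.1
  parent : ∀ p ∈ q, p.1 ≠ [] → ∃ p' ∈ q, p'.1 = p.1.dropLast

/-- The number `n` states that the image of `s` is `ρ`. -/
def Fact (n : ℕ) (s ρ : List ℕ) : Prop := n = Encodable.encode (s, ρ)

/-- `(x', q')` extends `(x, q)`, for the tree `T` and the frozen nodes `F`. -/
structure Ext (T : List ℕ → Prop) (F : List (List ℕ)) (c c' : Cnd) : Prop where
  valid : Valid T c'.2
  px : c.1 <+: c'.1
  sub : ∀ p ∈ c.2, p ∈ c'.2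
  frozen : ∀ p ∈ c'.2, p ∉ c.2 → ∀ p' ∈ c'.2, p'.1 = p.1.dropLast →
    ∀ π ∈ F, π <+: p.2 → π <+: p'.2
  fact : ∀ n ∈ c'.1.drop c.1.length, ∀ s ρ, Fact n s ρ → T s → (s, ρ) ∈ c'.2

/-- All images are in `T_ψ`. -/
def Safe (G : ℕ → ℕ) (c : Cnd) : Prop := ∀ p ∈ c.2, TPsi G p.2

/-- `Safe`, with a finite part `γ` of `G`. -/
def SafeF (γ : List ℕ) (c : Cnd) : Prop :=
  ∀ p ∈ c.2, (∀ n ∈ p.2, n < 4) ∧ ∀ m (h : m < p.2.length),
    ∃ v, γ[Encodable.encode (p.2.take m)]? = some v ∧ p.2[m] ≠ v % 4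

/-- `π` is blocked: no extension has an image above `π`. -/
def Blocked (T : List ℕ → Prop) (F : List (List ℕ)) (c : Cnd) (π : List ℕ) : Prop :=
  ∀ c', Ext T F c c' → ∀ p ∈ c'.2, ¬ π <+: p.2

/-- The situation of Step 2: below `(c₀, F₀)` every safe condition keeps `φ(x)` in `T_ψ`, and
`φ(x)` can always be made longer. -/
def Failing (G : ℕ → ℕ) (T : List ℕ → Prop) (φ : List ℕ → List ℕ) (F₀ : List (List ℕ))
    (c₀ : Cnd) : Prop :=
  ∀ F c, F₀ ⊆ F → FOk F → Ext T F₀ c₀ c → Safe G c →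
    TPsi G (φ c.1) ∧ ∀ n, ∃ c', Ext T F c c' ∧ Safe G c' ∧ n ≤ (φ c'.1).length

/-- The disjoint union of the trees `Tr e`, `e ∈ E`, under a new root. -/
def TE (Tr : ℕ → List ℕ → Prop) (E : List ℕ) : List ℕ → Prop
  | [] => True
  | e :: s => e ∈ E ∧ Tr e s

/-- `X` computes a monotone map from `T` to `T_ψ` that does not decrease lengths. -/
def HMap (X G : ℕ → ℕ) (T : List ℕ → Prop) : Prop :=
  ∃ H : List ℕ → List ℕ,
    Red (fun n => Encodable.encode (H ((Encodable.decode (α := List ℕ) n).getD []))) X ∧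
    ∀ s, T s → TPsi G (H s) ∧ s.length ≤ (H s).length ∧ ∀ s', s' <+: s → H s' <+: H s

/-- `G` computes a path of `T`. -/
def HasPath (G : ℕ → ℕ) (T : List ℕ → Prop) : Prop := ∃ f, Red f G ∧ ∀ k, T (pre f k)

/-- The dichotomy. -/
def Theta (Tr : ℕ → List ℕ → Prop) (G Y : ℕ → ℕ) : Prop :=
  ∀ e, HasPath G (Tr e) ∨ HMap Y G (Tr e)

end Pool.Agent.Lib.MP_d48993_lc
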