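import Pool.Agent.Lib.MP_d48993_lc.AE.Defs

/-!
# The code numbers of the quantifier-free formulas: every number is the code of one formula
-/

set_option autoImplicit false

namespace Pool.Agent.Lib.MP_d48993_lc.CodeQF

/-- Every natural number is the code of a formula. -/
theorem code_surjective (c : ℕ) : ∃ φ : QF, φ.code = c := by
  induction c using Nat.strong_induction_on with
  | _ c ih =>
    have hc : c = 4 * (c / 4) + c % 4 := by omega
    have hr : c % 4 < 4 := Nat.mod_lt _ (by norm_num)
    have h4 : c % 4 = 0 ∨ c % 4 = 1 ∨ c % 4 = 2 ∨ c % 4 = 3 := by omega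
    rcases h4 with h | h | h | h
    · refine ⟨QF.le (Nat.unpair (c / 4)).1 (Nat.unpair (c / 4)).2, ?_⟩
      simp only [QF.code, Nat.pair_unpair]
      omega
    · refine ⟨QF.eq (Nat.unpair (c / 4)).1 (Nat.unpair (c / 4)).2, ?_⟩
      simp only [QF.code, Nat.pair_unpair]
      omega
    · obtain ⟨φ, hφ⟩ := ih (c / 4) (by omega)
      refine ⟨QF.neg φ, ?_⟩
      simp only [QF.code, hφ]
      omega
    · have h1 := Nat.unpair_left_le (c / 4)
      have h2 := Nat.unpair_right_le (c / 4)
      obtain ⟨φ, hφ⟩ := ih (Nat.unpair (c / 4)).1 (by omega)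
      obtain ⟨ψ, hψ⟩ := ih (Nat.unpair (c / 4)).2 (by omega)
      refine ⟨QF.and φ ψ, ?_⟩
      simp only [QF.code, hφ, hψ, Nat.pair_unpair]
      omega

/-- Different formulas have different codes. -/
theorem code_injective : ∀ φ ψ : QF, φ.code = ψ.code → φ = ψ := by
  intro φ
  induction φ with
  | le i j =>
    intro ψ h
    cases ψ with
    | le k l =>
      simp only [QF.code] at h
      have h1 := Nat.pair_eq_pair.1 (Nat.eq_of_mul_eq_mul_left (by norm_num) h)
      rw [h1.1, h1.2]
    | eq k l => simp only [QF.code] at h; omega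
    | neg χ => simp only [QF.code] at h; omega
    | and χ ξ => simp only [QF.code] at h; omega
  | eq i j =>
    intro ψ h
    cases ψ with
    | le k l => simp only [QF.code] at h; omega
    | eq k l =>
      simp only [QF.code] at h
      have h1 := Nat.pair_eq_pair.1 (show Nat.pair i j = Nat.pair k l by omega)
      rw [h1.1, h1.2]
    | neg χ => simp only [QF.code] at h; omega
    | and χ ξ => simp only [QF.code] at h; omega
  | neg φ ih =>
    intro ψ h
    cases ψ with
    | le k l => simp only [QF.code] at h; omega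
    | eq k l => simp only [QF.code] at h; omega
    | neg χ =>
      simp only [QF.code] at h
      rw [ih χ (by omega)]
    | and χ ξ => simp only [QF.code] at h; omega
  | and φ ψ ih1 ih2 =>
    intro θ h
    cases θ with
    | le k l => simp only [QF.code] at h; omega
    | eq k l => simp only [QF.code] at h; omega
    | neg χ => simp only [QF.code] at h; omega
    | and χ ξ =>
      simp only [QF.code] at h
      have h1 := Nat.pair_eq_pair.1 (show Nat.pair φ.code ψ.code = Nat.pair χ.code ξ.code by omega)
      rw [ih1 χ h1.1, ih2 ξ h1.2]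

theorem code_bijective : Function.Bijective QF.code :=
  ⟨fun φ ψ h => code_injective φ ψ h, code_surjective⟩

/-- From a decision function on codes to a decidable set of codes. -/
theorem pred_of_fun (T : ℕ → QF → Prop) (h : ∃ f : ℕ × ℕ → Bool, Computable f ∧
    ∀ n φ, f (n, QF.code φ) = true ↔ T n φ) :
    ComputablePred fun p : ℕ × ℕ => ∃ φ : QF, φ.code = p.2 ∧ T p.1 φ := by
  obtain ⟨f, cf, hf⟩ := h
  rw [ComputablePred.computable_iff]
  refine ⟨f, cf, ?_⟩
  funext p
  obtain ⟨n, c⟩ := p
  apply propext
  constructor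
  · rintro ⟨φ, rfl, h⟩
    exact (hf n φ).2 h
  · intro h
    obtain ⟨φ, rfl⟩ := code_surjective c
    exact ⟨φ, rfl, (hf n φ).1 h⟩

end Pool.Agent.Lib.MP_d48993_lc.CodeQF
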