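import Mathlib

/-!
# Muchnik degrees of `Π⁰₁` classes: the definitions of the statement

Baire space is `ℕ → ℕ`; Cantor space is the set of all `f : ℕ → ℕ` with values in `{0, 1}`.
Turing reducibility is Mathlib's `TuringReducible`.
-/

set_option autoImplicit false

namespace Pool.Agent.Lib.MP_d48993_lc

/-- `f` is Turing reducible to `g` (total functions). -/
def Red (f g : ℕ → ℕ) : Prop :=
  TuringReducible (fun n => Part.some (f n)) (fun n => Part.some (g n))

/-- A computable tree of finite sequences of natural numbers: a computable set of finite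
sequences that is closed under initial segments. -/
def IsCompTree (T : List ℕ → Prop) : Prop :=
  ComputablePred T ∧ ∀ σ τ, σ <+: τ → T τ → T σ

/-- The set of infinite paths through `T`. -/
def paths (T : List ℕ → Prop) : Set (ℕ → ℕ) :=
  {f | ∀ k, T ((List.range k).map f)}

/-- The nonempty `Π⁰₁` classes of Baire space. -/
def IsPi01 (P : Set (ℕ → ℕ)) : Prop :=
  P.Nonempty ∧ ∃ T, IsCompTree T ∧ P = paths T

/-- The nonempty `Π⁰₁` classes of Cantor space: the nonempty sets of paths through computable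
trees of `0`-`1`-sequences. -/
def IsPi01Cantor (P : Set (ℕ → ℕ)) : Prop :=
  P.Nonempty ∧ ∃ T, IsCompTree T ∧ (∀ σ, T σ → ∀ n ∈ σ, n < 2) ∧ P = paths T

/-- Muchnik (weak) reducibility `P ≤_w Q`: every member of `Q` computes a member of `P`. -/
def MuchnikLE (P Q : Set (ℕ → ℕ)) : Prop := ∀ g ∈ Q, ∃ f ∈ P, Red f g

theorem Red.rfl {f : ℕ → ℕ} : Red f f := TuringReducible.rfl

theorem Red.trans {f g h : ℕ → ℕ} (h1 : Red f g) (h2 : Red g h) : Red f h :=
  TuringReducible.trans h1 h2

theorem MuchnikLE.refl (P : Set (ℕ → ℕ)) : MuchnikLE P P := fun g hg => ⟨g, hg, Red.rfl⟩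

theorem MuchnikLE.trans {P Q R : Set (ℕ → ℕ)} (h1 : MuchnikLE P Q) (h2 : MuchnikLE Q R) :
    MuchnikLE P R := by
  intro h hh
  obtain ⟨g, hg, hgh⟩ := h2 h hh
  obtain ⟨f, hf, hfg⟩ := h1 g hg
  exact ⟨f, hf, hfg.trans hgh⟩

/-- The nonempty `Π⁰₁` classes of Baire space, preordered by Muchnik reducibility. -/
def BairePi : Type := {P : Set (ℕ → ℕ) // IsPi01 P}

/-- The nonempty `Π⁰₁` classes of Cantor space, preordered by Muchnik reducibility. -/
def CantorPi : Type := {P : Set (ℕ → ℕ) // IsPi01Cantor P}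

instance : Preorder BairePi where
  le P Q := MuchnikLE P.1 Q.1
  le_refl P := MuchnikLE.refl P.1
  le_trans _ _ _ := MuchnikLE.trans

instance : Preorder CantorPi where
  le P Q := MuchnikLE P.1 Q.1
  le_refl P := MuchnikLE.refl P.1
  le_trans _ _ _ := MuchnikLE.trans

/-- `𝒫_w(ω^ω)`: the Muchnik degrees of nonempty `Π⁰₁` subsets of Baire space. -/
abbrev PwBaire : Type := Antisymmetrization BairePi (· ≤ ·)

/-- `𝒫_w(2^ω)`: the Muchnik degrees of nonempty `Π⁰₁` subsets of Cantor space. -/
abbrev PwCantor : Type := Antisymmetrization CantorPi (· ≤ ·)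

end Pool.Agent.Lib.MP_d48993_lc
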