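import Pool.Agent.Lib.MP_d48993_lc.Trans

/-!
# Module EXT: a new image
-/

set_option autoImplicit false

namespace Pool.Agent.Lib.MP_d48993_lc

/-- one more entry -/
theorem ext_step (G : ℕ → ℕ) (T : List ℕ → Prop) (F : List (List ℕ)) (q : List (List ℕ × List ℕ))
    (hF : FOk F) (hV : Valid T q) (τ : List ℕ) :
    ∃ a : ℕ, a < 4 ∧ a ≠ psi G τ ∧ (∀ p ∈ q, p.2 ≠ τ ++ [a]) ∧ τ ++ [a] ∉ F := by
  by_contra hcon
  have h1 : ∀ a : Fin 4, (a : ℕ) = psi G τ ∨ (∃ p ∈ q, p.2 = τ ++ [(a : ℕ)]) ∨
      τ ++ [(a : ℕ)] ∈ F := by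
    intro a
    by_contra h2
    push Not at h2
    exact hcon ⟨a, a.2, h2.1, h2.2.1, h2.2.2⟩
  have h2 : ∀ a : Fin 4, ∃ i : Fin 3, (i = 0 → (a : ℕ) = psi G τ) ∧
      (i = 1 → ∃ p ∈ q, p.2 = τ ++ [(a : ℕ)]) ∧ (i = 2 → τ ++ [(a : ℕ)] ∈ F) := by
    intro a
    rcases h1 a with h | h | h
    · exact ⟨0, fun _ => h, fun h' => absurd h' (by decide), fun h' => absurd h' (by decide)⟩
    · exact ⟨1, fun h' => absurd h' (by decide), fun _ => h, fun h' => absurd h' (by decide)⟩
    · exact ⟨2, fun h' => absurd h' (by decide), fun h' => absurd h' (by decide), fun _ => h⟩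
  choose f hf0 hf1 hf2 using h2
  obtain ⟨a, b, hab, hfab⟩ := Fintype.exists_ne_map_eq_of_card_lt f (by simp)
  have hab' : (a : ℕ) ≠ (b : ℕ) := fun h => hab (Fin.ext h)
  have h3 : f a = 0 ∨ f a = 1 ∨ f a = 2 := by
    have h4 : ∀ i : Fin 3, i = 0 ∨ i = 1 ∨ i = 2 := by decide
    exact h4 (f a)
  rcases h3 with h3 | h3 | h3
  · exact hab' ((hf0 a h3).trans (hf0 b (hfab ▸ h3)).symm)
  · obtain ⟨p, hp, hp2⟩ := hf1 a h3
    obtain ⟨p', hp', hp2'⟩ := hf1 b (hfab ▸ h3)
    have h4 : p = p' := hV.uniq_len hp hp' (by rw [hp2, hp2']; simp)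
    rw [h4, hp2'] at hp2
    have h5 := List.append_cancel_left hp2
    exact hab' (by simpa using h5.symm)
  · have h4 := hF _ (hf2 a h3) _ (hf2 b (hfab ▸ h3)) (by simp)
    have h5 := List.append_cancel_left h4
    exact hab' (by simpa using h5)

theorem tpsi_append {G : ℕ → ℕ} {τ : List ℕ} {a : ℕ} (h : TPsi G τ) (ha : a < 4)
    (hne : a ≠ psi G τ) : TPsi G (τ ++ [a]) := by
  refine ⟨fun n hn => ?_, fun m hm => ?_⟩
  · rw [List.mem_append, List.mem_singleton] at hn
    rcases hn with hn | hn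
    · exact h.1 n hn
    · rw [hn]; exact ha
  · rw [List.length_append, List.length_singleton] at hm
    by_cases hm' : m < τ.length
    · rw [List.getElem_append_left hm', List.take_append_of_le_length hm'.le]
      exact h.2 m hm'
    · have hm2 : m = τ.length := by omega
      subst hm2
      rw [List.take_left' rfl]
      simpa using hne

/-- a long string above `ρ` that avoids images and frozen nodes -/
theorem ext_long (G : ℕ → ℕ) (T : List ℕ → Prop) (F : List (List ℕ)) (q : List (List ℕ × List ℕ))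
    (hF : FOk F) (hV : Valid T q) (ρ : List ℕ) (hρ : TPsi G ρ) (j : ℕ) :
    ∃ τ : List ℕ, τ.length = ρ.length + j ∧ ρ <+: τ ∧ TPsi G τ ∧
      (∀ p ∈ q, p.2 <+: τ → p.2 <+: ρ) ∧ ∀ π ∈ F, π <+: τ → π <+: ρ := by
  induction j with
  | zero => exact ⟨ρ, rfl, List.prefix_rfl, hρ, fun _ _ h => h, fun _ _ h => h⟩
  | succ j ih =>
    obtain ⟨τ, h1, h2, h3, h4, h5⟩ := ih
    obtain ⟨a, ha, hne, hq, hFa⟩ := ext_step G T F q hF hV τ
    refine ⟨τ ++ [a], by simp [h1]; omega, h2.trans (List.prefix_append _ _),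
      tpsi_append h3 ha hne, fun p hp hpre => ?_, fun π hπ hpre => ?_⟩
    · rcases List.prefix_concat_iff.1 hpre with h | h
      · exact absurd h (hq p hp)
      · exact h4 p hp h
    · rcases List.prefix_concat_iff.1 hpre with h | h
      · rw [h] at hπ
        exact absurd hπ hFa
      · exact h5 π hπ h

/-- Module EXT -/
theorem ext : ExtendStatement := by
  intro G T F c s ρ k N hF hV hS hmem hT hnew
  obtain ⟨M, hM1, hM2⟩ : ∃ M, N ≤ M ∧ ∀ p ∈ c.2, p.2.length < M := by
    have h1 : ∀ q : List (List ℕ × List ℕ), ∃ M, ∀ p ∈ q, p.2.length < M := by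
      intro q
      induction q with
      | nil => exact ⟨0, fun p hp => absurd hp List.not_mem_nil⟩
      | cons a q ih =>
        obtain ⟨M, hM⟩ := ih
        refine ⟨max M (a.2.length + 1), fun p hp => ?_⟩
        rcases List.mem_cons.1 hp with h | h
        · rw [h]
          exact lt_of_lt_of_le (Nat.lt_succ_self _) (le_max_right _ _)
        · exact lt_of_lt_of_le (hM p h) (le_max_left _ _)
    obtain ⟨M, hM⟩ := h1 c.2
    exact ⟨max N M, le_max_left _ _, fun p hp => lt_of_lt_of_le (hM p hp) (le_max_right _ _)⟩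
  obtain ⟨τ, hτ1, hτ2, hτ3, hτ4, hτ5⟩ := ext_long G T F c.2 hF hV ρ (hS _ hmem) M
  have hlen : ∀ p ∈ c.2, p.2.length < τ.length := fun p hp => by
    have := hM2 p hp
    omega
  have hnp : ∀ t : List ℕ × List ℕ, t ∈ c.2 → ¬ (s ++ [k]) <+: t.1 := by
    intro t ht hpre
    obtain ⟨p', hp', h1⟩ := hV.dom t.1.length t ht le_rfl _ hpre
    refine hnew p'.2 ?_
    rw [← h1]
    exact hp'
  refine ⟨τ, by omega, ⟨⟨?_, ?_, ?_, ?_, ?_⟩, List.prefix_rfl,
    fun p hp => List.mem_cons_of_mem _ hp, ?_, ?_⟩, ?_⟩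
  · exact List.mem_cons_of_mem _ hV.root
  · intro p hp
    rcases List.mem_cons.1 hp with h | h
    · rw [h]
      exact ⟨hT, hτ3.1⟩
    · exact hV.mem p h
  · intro p hp p' hp'
    rcases List.mem_cons.1 hp with h | h <;> rcases List.mem_cons.1 hp' with h' | h'
    · rw [h, h']
      exact ⟨fun _ => List.prefix_rfl, fun _ => List.prefix_rfl⟩
    · rw [h]
      constructor
      · intro hpre
        have h1 := hpre.length_le
        have h2 := hlen p' h'
        exact absurd h1 (by simpa using h2)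
      · intro hpre
        exact absurd hpre (hnp p' h')
    · rw [h']
      constructor
      · intro hpre
        have h1 : p.2 <+: ρ := hτ4 p h hpre
        exact ((hV.emb p h _ hmem).1 h1).trans (List.prefix_append _ _)
      · intro hpre
        rcases List.prefix_concat_iff.1 hpre with h1 | h1
        · exact absurd (h1 ▸ List.prefix_rfl) (hnp p h)
        · exact ((hV.emb p h _ hmem).2 h1).trans hτ2
    · exact hV.emb p h p' h'
  · intro p hp p' hp' hl
    rcases List.mem_cons.1 hp with h | h <;> rcases List.mem_cons.1 hp' with h' | h'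
    · rw [h, h']
    · rw [h] at hl
      exact absurd hl (hlen p' h').ne'
    · rw [h'] at hl
      exact absurd hl (hlen p h).ne
    · exact hV.len p h p' h' hl
  · intro p hp hne
    rcases List.mem_cons.1 hp with h | h
    · rw [h]
      exact ⟨(s, ρ), List.mem_cons_of_mem _ hmem, by simp⟩
    · obtain ⟨p', hp', h1⟩ := hV.parent p h hne
      exact ⟨p', List.mem_cons_of_mem _ hp', h1⟩
  · intro p hp hpc p' hp' hpar π hπ hπp
    rcases List.mem_cons.1 hp with h | h
    · rw [h] at hpar hπp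
      have hpar' : p'.1 = s := by simpa using hpar
      rcases List.mem_cons.1 hp' with h' | h'
      · rw [h'] at hpar'
        exact absurd hpar' (by simp)
      · have h1 : p' = (s, ρ) := hV.uniq h' hmem hpar'
        rw [h1]
        exact hτ5 π hπ hπp
    · exact absurd h hpc
  · intro n hn
    rw [List.drop_length] at hn
    exact absurd hn List.not_mem_nil
  · intro p hp
    rcases List.mem_cons.1 hp with h | h
    · rw [h]
      exact hτ3
    · exact hS p h

end Pool.Agent.Lib.MP_d48993_lc
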